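import Pool.Agent.H316R4.Win5

open scoped BigOperators Topology ENNReal
open Filter Set MeasureTheory

namespace H316F

variable {p : ℝ≥0∞} [hp1 : Fact (1 ≤ p)]


theorem An_disj (μ : ℕ → ℕ) (hμ : Monotone μ) {i j : ℕ} (h : i ≠ j) :
    Disjoint (An (μ i) (μ (i + 1))) (An (μ j) (μ (j + 1))) := by
  rcases lt_or_gt_of_ne h with h | h
  · rw [Set.disjoint_left]
    intro t h1 h2
    exact h2.2 (Bx_mono (hμ h) h1.1)
  · rw [Set.disjoint_left]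
    intro t h1 h2
    exact h1.2 (Bx_mono (hμ h) h2.1)

/-- the data of finitely many disjointly supported vectors and functionals -/
structure Ann (p : ℝ≥0∞) [Fact (1 ≤ p)] (lo hi n : ℕ) where
  e : ℕ → (Lp ℝ p (volume : Measure ℝ))
  ψ : ℕ → ((Lp ℝ p (volume : Measure ℝ))) →L[ℝ] ℝ
  bio : ∀ i < n, ∀ j < n, ψ i (e j) = if i = j then 1 else 0
  elow : ∀ i < n, ∀ a ≤ lo, Sx p a (e i) = 0
  ehigh : ∀ i < n, ∀ a, hi ≤ a → Sx p a (e i) = e i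
  ψlow : ∀ i < n, ∀ a ≤ lo, ∀ x, ψ i (Sx p a x) = 0
  ψhigh : ∀ i < n, ∀ a, hi ≤ a → ∀ x, ψ i (Sx p a x) = ψ i x
  bd : ∀ x, ‖∑ i ∈ Finset.range n, ψ i x • e i‖ ≤ ‖x‖
  supp : ∀ i < n, SuppOn (An lo hi) (e i)
  bd' : ∀ x, ‖∑ i ∈ Finset.range n, ψ i x • e i‖ ^ p.toReal ≤ ∫ t in An lo hi, |x t| ^ p.toReal

theorem An_sub {a b c d : ℕ} (h1 : a ≤ b) (h2 : c ≤ d) : An b c ⊆ An a d := fun _ ht =>
  ⟨Bx_mono h2 ht.1, fun h => ht.2 (Bx_mono h1 h)⟩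

theorem sum_setInt_le' (hp : p ≠ ⊤) {ι : Type*} (s : Finset ι) (A : ι → Set ℝ)
    (hA : ∀ i ∈ s, ∀ j ∈ s, i ≠ j → Disjoint (A i) (A j)) (hm : ∀ i ∈ s, MeasurableSet (A i))
    {B : Set ℝ} (hB : MeasurableSet B) (hAB : ∀ i ∈ s, A i ⊆ B)
    (x : (Lp ℝ p (volume : Measure ℝ))) : ∑ i ∈ s, ∫ t in A i, |x t| ^ p.toReal ≤ ∫ t in B, |x t| ^ p.toReal := by
  rw [← integral_biUnion_finset s hm (fun i hi j hj hij => hA i hi j hj hij)
    (fun i _ => (integrable_rpow hp x).integrableOn)]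
  exact setIntegral_mono_set (integrable_rpow hp x).integrableOn
    (Eventually.of_forall fun t => by positivity)
    (Set.iUnion₂_subset hAB).eventuallyLE

theorem annuli (hp : p ≠ ⊤) (n : ℕ) (μ : ℕ → ℕ) (hμ : Monotone μ) (G : ℕ → (Lp ℝ p (volume : Measure ℝ)))
    (hG : ∀ i < n, Pj p (μ i) (μ (i + 1)) (G i) ≠ 0) :
    ∃ A : Ann p (μ 0) (μ n) n, (∀ i, A.e i = Pj p (μ i) (μ (i + 1)) (G i)) ∧
      ∀ i < n, ‖A.ψ i‖ ≤ ‖Pj p (μ i) (μ (i + 1)) (G i)‖⁻¹ := by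
  classical
  have hq := q_ge (p := p) hp
  have hq0 : 0 < p.toReal := by linarith
  set e : ℕ → (Lp ℝ p (volume : Measure ℝ)) := fun i => Pj p (μ i) (μ (i + 1)) (G i) with he
  have h1 : ∀ i, ∃ g : ((Lp ℝ p (volume : Measure ℝ))) →L[ℝ] ℝ, ‖g‖ ≤ 1 ∧ g (e i) = ‖e i‖ := by
    intro i
    by_cases h : e i = 0
    · exact ⟨0, by simp, by simp [h]⟩
    · obtain ⟨g, hg1, hg2⟩ := exists_dual_vector ℝ (e i) (norm_ne_zero_iff.2 h)
      exact ⟨g, hg1.le, by simpa using hg2⟩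
  choose g hg1 hg2 using h1
  set ψ : ℕ → ((Lp ℝ p (volume : Measure ℝ))) →L[ℝ] ℝ := fun i => ‖e i‖⁻¹ • (g i ∘L Pj p (μ i) (μ (i + 1))) with hψ
  have hψa : ∀ i x, ψ i x = ‖e i‖⁻¹ * g i (Pj p (μ i) (μ (i + 1)) x) := fun i x => rfl
  have hμ0 : ∀ i, μ 0 ≤ μ i := fun i => hμ (Nat.zero_le _)
  have hkey : ∀ x, ‖∑ i ∈ Finset.range n, ψ i x • e i‖ ^ p.toReal ≤
      ∑ i ∈ Finset.range n, ∫ t in An (μ i) (μ (i + 1)), |x t| ^ p.toReal := by
    intro x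
    rw [disj_sum hp (Finset.range n) (fun i => An (μ i) (μ (i + 1)))
      (fun i _ j _ h => An_disj μ hμ h) _ (fun i _ => (Pj_supp _ _ _).smul _)]
    refine Finset.sum_le_sum fun i _ => ?_
    refine le_trans ?_ (Pj_norm hp (μ i) (μ (i + 1)) x)
    refine Real.rpow_le_rpow (norm_nonneg _) ?_ hq0.le
    rw [norm_smul, hψa, norm_mul, norm_inv, norm_norm]
    by_cases h : e i = 0
    · rw [h]; simp
    · have h0 : ‖e i‖ ≠ 0 := norm_ne_zero_iff.2 h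
      have h2 : ‖g i (Pj p (μ i) (μ (i + 1)) x)‖ ≤ ‖Pj p (μ i) (μ (i + 1)) x‖ := by
        calc _ ≤ ‖g i‖ * ‖Pj p (μ i) (μ (i + 1)) x‖ := (g i).le_opNorm _
          _ ≤ 1 * _ := by gcongr; exact hg1 i
          _ = _ := one_mul _
      calc ‖e i‖⁻¹ * ‖g i (Pj p (μ i) (μ (i + 1)) x)‖ * ‖e i‖ = ‖g i (Pj p (μ i) (μ (i + 1)) x)‖ := by
            field_simp
        _ ≤ _ := h2
  refine ⟨⟨e, ψ, ?_, ?_, ?_, ?_, ?_, ?_, ?_, ?_⟩, fun i => rfl, ?_⟩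
  · intro i hi j hj
    rw [hψa]
    by_cases h : i = j
    · subst h
      rw [if_pos rfl, he]
      simp only
      rw [Pj_idem]
      have := hg2 i
      rw [he] at this
      simp only at this
      rw [this, inv_mul_cancel₀]
      exact norm_ne_zero_iff.2 (hG i hi)
    · rw [if_neg h]
      have : Pj p (μ i) (μ (i + 1)) (e j) = 0 := by
        rcases lt_or_gt_of_ne h with h | h
        · exact Pj_Pj_disj (hμ h) _
        · exact Pj_Pj_disj' (hμ h) _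
      rw [this, map_zero, mul_zero]
  · intro i _ a ha
    exact Sx_Pj_low (ha.trans (hμ0 i)) _
  · intro i hi a ha
    exact Sx_Pj_high ((hμ (Nat.succ_le_of_lt hi)).trans ha) _
  · intro i _ a ha x
    rw [hψa, Pj_Sx_low (ha.trans (hμ0 i)), map_zero, mul_zero]
  · intro i hi a ha x
    rw [hψa, hψa, Pj_Sx_high ((hμ (Nat.succ_le_of_lt hi)).trans ha)]
  · intro x
    apply norm_le_of_rpow hp (norm_nonneg _)
    exact (hkey x).trans (sum_setInt_le hp (Finset.range n) (fun i => An (μ i) (μ (i + 1)))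
      (fun i _ j _ h => An_disj μ hμ h) (fun i _ => An_meas _ _) x)
  · intro i hi
    exact (Pj_supp _ _ _).mono (An_sub (hμ0 i) (hμ (Nat.succ_le_of_lt hi)))
  · intro x
    exact (hkey x).trans (sum_setInt_le' hp (Finset.range n) (fun i => An (μ i) (μ (i + 1)))
      (fun i _ j _ h => An_disj μ hμ h) (fun i _ => An_meas _ _) (An_meas _ _)
      (fun i hi => An_sub (hμ0 i) (hμ (Nat.succ_le_of_lt (Finset.mem_range.1 hi)))) x)
  · intro i _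
    show ‖ψ i‖ ≤ ‖e i‖⁻¹
    refine ContinuousLinearMap.opNorm_le_bound _ (by positivity) fun x => ?_
    rw [hψa, norm_mul, norm_inv, norm_norm]
    gcongr
    calc ‖g i (Pj p (μ i) (μ (i + 1)) x)‖ ≤ ‖g i‖ * ‖Pj p (μ i) (μ (i + 1)) x‖ := (g i).le_opNorm _
      _ ≤ 1 * ‖x‖ := by gcongr; exact hg1 i; exact Pj_le hp _ _ _
      _ = _ := one_mul _

/-- choice of windows -/
theorem windows (hp : p ≠ ⊤) (τ : ℕ → ℝ) (b0 tol : ℝ) (hb0 : 0 < b0) (htol : 0 < tol) (μ1 : ℕ) :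
    ∃ (b : ℕ → {x : ℝ // 0 < x}) (μ : ℕ → ℕ), μ 0 = μ1 ∧ StrictMono μ ∧ (∀ i, (b i : ℝ) ≤ b0) ∧
      ∀ i, ‖Pj p (μ i) (μ (i + 1)) (nw (p := p) hp (b i).2 (τ i)) - nw (p := p) hp (b i).2 (τ i)‖ ≤ tol := by
  have hq := q_ge (p := p) hp
  have H : ∀ (i m : ℕ), ∃ B : {x : ℝ // 0 < x} × ℕ, (B.1 : ℝ) ≤ b0 ∧ m < B.2 ∧
      ‖Pj p m B.2 (nw (p := p) hp B.1.2 (τ i)) - nw (p := p) hp B.1.2 (τ i)‖ ≤ tol := by
    intro i m
    have h2m : (0 : ℝ) < 2 ^ (m + 1) := by positivity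
    set T : ℝ := (tol / 2) ^ p.toReal / 2 ^ (m + 1) with hT
    have hT0 : 0 < T := by positivity
    set b : ℝ := min b0 (T ^ 2) with hb
    have hbpos : 0 < b := lt_min hb0 (by positivity)
    have h1 : ∫ t in Bx m, |nw (p := p) hp hbpos (τ i) t| ^ p.toReal ≤ (tol / 2) ^ p.toReal := by
      refine (nw_local hp hbpos (τ i) m).trans ?_
      have h2 : √b ≤ T := by
        rw [show T = √(T ^ 2) by rw [Real.sqrt_sq hT0.le]]
        exact Real.sqrt_le_sqrt (min_le_right _ _)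
      calc √b * 2 ^ (m + 1) ≤ T * 2 ^ (m + 1) := by gcongr
        _ = _ := by rw [hT]; field_simp
    obtain ⟨n0, hn0⟩ := ann_approx hp (nw (p := p) hp hbpos (τ i)) m (tol / 2) (by positivity) h1
    refine ⟨⟨⟨b, hbpos⟩, max n0 (m + 1)⟩, min_le_left _ _, lt_of_lt_of_le (Nat.lt_succ_self m) (le_max_right _ _), ?_⟩
    have := hn0 (max n0 (m + 1)) (le_max_left _ _)
    calc _ ≤ 2 * (tol / 2) := this
      _ = tol := by ring
  choose B hB1 hB2 hB3 using H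
  set μ : ℕ → ℕ := fun i => Nat.rec μ1 (fun i m => (B i m).2) i with hμ
  have hμs : ∀ i, μ (i + 1) = (B i (μ i)).2 := fun i => rfl
  refine ⟨fun i => (B i (μ i)).1, μ, rfl, strictMono_nat_of_lt_succ fun i => ?_, fun i => hB1 i (μ i), fun i => ?_⟩
  · rw [hμs]; exact hB2 i (μ i)
  · rw [hμs]; exact hB3 i (μ i)

end H316F
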