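import Mathlib

open scoped BigOperators
open Finset

namespace H316F

variable {κ : Type*} [Fintype κ] [DecidableEq κ]

/-- Walsh functions -/
noncomputable def ws (S j : κ → Bool) : ℝ := ∏ k, if (S k && j k) then (-1 : ℝ) else 1

theorem ws_symm (S j : κ → Bool) : ws S j = ws j S := by
  unfold ws
  refine Finset.prod_congr rfl fun k _ => ?_
  rw [Bool.and_comm]

theorem ws_orth (S S' : κ → Bool) :
    ∑ j, ws S j * ws S' j = if S = S' then (2 : ℝ) ^ (Fintype.card κ) else 0 := by
  have h1 : ∑ j, ws S j * ws S' j = ∏ k, ∑ b : Bool, ((if (S k && b) then (-1 : ℝ) else 1) *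
      (if (S' k && b) then (-1 : ℝ) else 1)) := by
    rw [Finset.prod_univ_sum]
    rw [Fintype.piFinset_univ]
    refine Finset.sum_congr rfl fun j _ => ?_
    rw [ws, ws, ← Finset.prod_mul_distrib]
  rw [h1]
  by_cases h : S = S'
  · subst h
    rw [if_pos rfl]
    have : ∀ k, ∑ b : Bool, ((if (S k && b) then (-1 : ℝ) else 1) *
      (if (S k && b) then (-1 : ℝ) else 1)) = 2 := by
      intro k
      rw [Fintype.sum_bool]
      cases S k <;> norm_num
    rw [Finset.prod_congr rfl fun k _ => this k]
    simp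
  · rw [if_neg h]
    obtain ⟨k, hk⟩ := Function.ne_iff.1 h
    refine Finset.prod_eq_zero (Finset.mem_univ k) ?_
    rw [Fintype.sum_bool]
    cases h1 : S k <;> cases h2 : S' k <;> simp_all

theorem ws_zero (j : κ → Bool) : ws (fun _ => false) j = 1 := by
  simp [ws]

theorem ws_single (k0 : κ) (j : κ → Bool) :
    ws (fun k => decide (k = k0)) j = if j k0 then -1 else 1 := by
  unfold ws
  rw [Finset.prod_eq_single k0]
  · simp
  · intro b _ hb
    simp [hb]
  · intro h; exact absurd (Finset.mem_univ _) h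

theorem ws_pm (S j : κ → Bool) : ws S j = 1 ∨ ws S j = -1 := by
  unfold ws
  refine Finset.prod_induction _ (fun x : ℝ => x = 1 ∨ x = -1) ?_ (Or.inl rfl) ?_
  · rintro a b (ha | ha) (hb | hb) <;> subst ha <;> subst hb <;> norm_num
  · intro k _
    by_cases h : (S k && j k) = true
    · rw [if_pos h]; right; rfl
    · rw [if_neg h]; left; rfl

theorem ws_abs (S j : κ → Bool) : |ws S j| = 1 := by
  rcases ws_pm S j with h | h <;> rw [h] <;> norm_num

/-- Walsh inversion -/
theorem ws_inv {V : Type*} [AddCommGroup V] [Module ℝ V] (v : (κ → Bool) → V) (j : κ → Bool) :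
    ∑ S, ws S j • ∑ j', ws S j' • v j' = (2 : ℝ) ^ (Fintype.card κ) • v j := by
  simp only [Finset.smul_sum, smul_smul]
  rw [Finset.sum_comm]
  have : ∀ j' : κ → Bool, ∑ S, (ws S j * ws S j') • v j' =
      (if j = j' then (2 : ℝ) ^ (Fintype.card κ) else 0) • v j' := by
    intro j'
    rw [← Finset.sum_smul]
    congr 1
    rw [← ws_orth j j']
    refine Finset.sum_congr rfl fun S _ => ?_
    rw [ws_symm S j, ws_symm S j']
  rw [Finset.sum_congr rfl fun j' _ => this j', Finset.sum_eq_single j]
  · simp
  · intro b _ hb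
    rw [if_neg (Ne.symm hb), zero_smul]
  · intro h; exact absurd (Finset.mem_univ _) h

/-- signs of the coordinates -/
noncomputable def sgn {d : ℕ} (r : Fin d) (e : Fin d → Bool) : ℝ := if e r then -1 else 1

theorem sgn_sum {d : ℕ} (r : Fin d) : ∑ e, sgn r e = 0 := by
  have h := ws_orth (fun k => decide (k = r)) (fun _ : Fin d => false)
  rw [if_neg] at h
  · simp only [ws_zero, mul_one, ws_single] at h
    exact h
  · intro h2
    have := congrFun h2 r
    simp at this

theorem sgn_orth {d : ℕ} (r r' : Fin d) : ∑ e, sgn r e * sgn r' e = if r = r' then (2 : ℝ) ^ d else 0 := by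
  have h := ws_orth (fun k => decide (k = r)) (fun k => decide (k = r'))
  simp only [ws_single] at h
  have h2 : ((fun k : Fin d => decide (k = r)) = fun k => decide (k = r')) ↔ r = r' := by
    constructor
    · intro h3
      have := congrFun h3 r
      simpa using this
    · rintro rfl; rfl
  simp only [h2, Fintype.card_fin] at h
  exact h

theorem ext_equiv {A J : Type*} [Fintype A] [Fintype J] [DecidableEq J] (τ : A → J)
    (hτ : Function.Injective τ) : ∃ (I : ℕ) (π : A ⊕ Fin I ≃ J), ∀ a, π (Sum.inl a) = τ a := by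
  classical
  refine ⟨Fintype.card ((Set.range τ)ᶜ : Set J), ?_, ?_⟩
  · exact (Equiv.sumCongr (Equiv.ofInjective τ hτ)
      (Fintype.equivFin ((Set.range τ)ᶜ : Set J)).symm).trans (Equiv.Set.sumCompl (Set.range τ))
  · intro a
    simp

end H316F
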