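import Pool.Agent.H316R4.Win5
import Pool.Agent.H316R4.Walsh

open scoped BigOperators Topology ENNReal
open Filter Set MeasureTheory

namespace H316F

variable {p : ℝ≥0∞} [hp1 : Fact (1 ≤ p)]


theorem dense_coeffs (h1p : 1 < p) (hp : p ≠ ⊤) {f : (Lp ℝ p (volume : Measure ℝ))} (hf : GoodF f) (N : ℝ) :
    ∃ Q : FormalMultilinearSeries ℝ ℝ ((Lp ℝ p (volume : Measure ℝ))),
      HasFPowerSeriesAt (deriv (fun a => Tr ℝ p a f)) Q N ∧
      ∀ x, x ∈ closure (Submodule.span ℝ (range Q.coeff) : Set ((Lp ℝ p (volume : Measure ℝ)))) := by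
  have hF := hf.an
  have hG : AnalyticOnNhd ℝ (deriv (fun a => Tr ℝ p a f)) univ := hF.deriv
  obtain ⟨Q, hQ⟩ := hG N (mem_univ _)
  refine ⟨Q, hQ, fun x => ?_⟩
  by_contra hx
  set s : Set ((Lp ℝ p (volume : Measure ℝ))) := closure (Submodule.span ℝ (range Q.coeff) : Set ((Lp ℝ p (volume : Measure ℝ)))) with hs
  have hs' : s = ((Submodule.span ℝ (range Q.coeff)).topologicalClosure : Set ((Lp ℝ p (volume : Measure ℝ)))) := rfl
  have hconv : Convex ℝ s := by
    rw [hs']; exact Submodule.convex _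
  obtain ⟨ℓ, u, h1, h2⟩ := geometric_hahn_banach_closed_point hconv isClosed_closure hx
  have hz : ∀ a ∈ s, ℓ a = 0 := by
    intro a ha
    by_contra hne
    have h3 : (u / ℓ a) • a ∈ s := by
      rw [hs'] at ha ⊢
      exact Submodule.smul_mem _ _ ha
    have h4 := h1 _ h3
    rw [map_smul, smul_eq_mul, div_mul_cancel₀ _ hne] at h4
    exact lt_irrefl _ h4
  have hzc : ∀ k, ℓ (Q.coeff k) = 0 := fun k =>
    hz _ (subset_closure (Submodule.subset_span ⟨k, rfl⟩))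
  have hev : ∀ᶠ z in 𝓝 N, ℓ (deriv (fun a => Tr ℝ p a f) z) = 0 := by
    have h5 := hasFPowerSeriesAt_iff'.1 hQ
    filter_upwards [h5] with z hz2
    have h6 := hz2.mapL ℓ
    simp only [map_smul, hzc, smul_zero] at h6
    exact h6.unique hasSum_zero
  have han : AnalyticOnNhd ℝ (fun z => ℓ (deriv (fun a => Tr ℝ p a f) z)) univ :=
    ℓ.comp_analyticOnNhd hG
  have hzero : ∀ z, ℓ (deriv (fun a => Tr ℝ p a f) z) = 0 := fun z =>
    han.eqOn_zero_of_preconnected_of_eventuallyEq_zero isPreconnected_univ (mem_univ N) hev (mem_univ z)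
  have hdiff : ∀ z, HasDerivAt (fun a => Tr ℝ p a f) (deriv (fun a => Tr ℝ p a f) z) z := fun z =>
    (hF z (mem_univ z)).differentiableAt.hasDerivAt
  have hd2 : ∀ z, HasDerivAt (fun a => ℓ (Tr ℝ p a f)) 0 z := by
    intro z
    have := ℓ.hasFDerivAt.comp_hasDerivAt z (hdiff z)
    rw [hzero z] at this
    exact this
  have hconst : ∀ a, ℓ (Tr ℝ p a f) = ℓ (Tr ℝ p 0 f) := fun a =>
    is_const_of_deriv_eq_zero (fun z => (hd2 z).differentiableAt) (fun z => (hd2 z).deriv) a 0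
  have hℓ0 := hf.cyc h1p hp ℓ _ hconst
  rw [hℓ0] at h2
  have h7 := h1 0 (subset_closure (Submodule.zero_mem _))
  rw [map_zero] at h7
  simp only [ContinuousLinearMap.zero_apply] at h2
  linarith

theorem stepA {E : Type*} [NormedAddCommGroup E] [NormedSpace ℝ E] (G : ℝ → E)
    (Q : FormalMultilinearSeries ℝ ℝ E) (N : ℝ) (hQ : HasFPowerSeriesAt G Q N) (L : ℕ)
    (β : Fin L → ℝ) (ε : ℝ) (hε : 0 < ε) :
    ∀ᶠ δ in 𝓝[>] (0 : ℝ), ∃ b : Fin L → ℝ,
      ‖∑ l : Fin L, b l • G (N + l * δ) - ∑ k : Fin L, β k • Q.coeff k‖ ≤ ε := by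
  classical
  rcases Nat.eq_zero_or_pos L with hL | hL
  · subst hL
    refine Eventually.of_forall fun δ => ⟨fun _ => 0, ?_⟩
    simp; exact hε.le
  set Vm : Matrix (Fin L) (Fin L) ℝ := Matrix.vandermonde (fun l : Fin L => (l : ℝ)) with hVm
  have hdet : IsUnit Vm.det := by
    rw [isUnit_iff_ne_zero, hVm, Matrix.det_vandermonde_ne_zero_iff]
    intro i j hij
    have h : ((i : ℕ) : ℝ) = ((j : ℕ) : ℝ) := hij
    exact Fin.ext (by exact_mod_cast h)
  set W := Vm⁻¹ with hW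
  have hWV : W * Vm = 1 := Matrix.nonsing_inv_mul _ hdet
  have hO := hQ.isBigO_sub_partialSum_pow L
  obtain ⟨C, hC⟩ := hO.bound
  obtain ⟨ρ, hρ, hC2⟩ := Metric.eventually_nhds_iff.1 hC
  set Cb : ℝ := ∑ l : Fin L, ∑ k : Fin L, |β k| * |W k l| with hCb
  have hCb0 : 0 ≤ Cb := Finset.sum_nonneg fun _ _ => Finset.sum_nonneg fun _ _ => by positivity
  set K : ℝ := L * (Cb * (|C| * (L : ℝ) ^ L)) + 1 with hK
  have hK0 : 0 < K := by positivity
  have hev : ∀ᶠ δ in 𝓝[>] (0 : ℝ), δ < min 1 (min (ρ / L) (ε / K)) := by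
    refine nhdsWithin_le_nhds (Iio_mem_nhds ?_)
    have hL' : (0 : ℝ) < L := by exact_mod_cast hL
    have := div_pos hρ hL'
    have := div_pos hε hK0
    simp only [lt_min_iff]
    exact ⟨by norm_num, by assumption, by assumption⟩
  filter_upwards [hev, self_mem_nhdsWithin] with δ hδ hδ0
  have hδ0' : (0 : ℝ) < δ := hδ0
  rw [lt_min_iff, lt_min_iff] at hδ
  obtain ⟨hd1, hd2, hd3⟩ := hδ
  have hL' : (0 : ℝ) < L := by exact_mod_cast hL
  rw [lt_div_iff₀ hL'] at hd2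
  rw [lt_div_iff₀ hK0] at hd3
  set γ : Fin L → ℝ := fun k => β k / δ ^ (k : ℕ) with hγ
  set b : Fin L → ℝ := Matrix.vecMul γ W with hb
  have hbV : Matrix.vecMul b Vm = γ := by
    rw [hb, Matrix.vecMul_vecMul, hWV, Matrix.vecMul_one]
  have hbk : ∀ k : Fin L, ∑ l : Fin L, b l * (l : ℝ) ^ (k : ℕ) = β k / δ ^ (k : ℕ) := by
    intro k
    have := congrFun hbV k
    simp only [Matrix.vecMul, dotProduct, hVm, Matrix.vandermonde_apply] at this
    exact this
  refine ⟨b, ?_⟩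
  -- decomposition
  set Rem : Fin L → E := fun l => G (N + l * δ) - ∑ k : Fin L, ((l : ℝ) * δ) ^ (k : ℕ) • Q.coeff k with hRem
  have e1 : ∑ l : Fin L, b l • G (N + l * δ) - ∑ k : Fin L, β k • Q.coeff k = ∑ l : Fin L, b l • Rem l := by
    have e2 : ∑ k : Fin L, β k • Q.coeff k = ∑ l : Fin L, b l • ∑ k : Fin L, ((l : ℝ) * δ) ^ (k : ℕ) • Q.coeff k := by
      simp only [Finset.smul_sum, smul_smul]
      rw [Finset.sum_comm]
      refine Finset.sum_congr rfl fun k _ => ?_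
      rw [← Finset.sum_smul]
      congr 1
      have e3 : ∑ l : Fin L, b l * ((l : ℝ) * δ) ^ (k : ℕ) = (∑ l : Fin L, b l * (l : ℝ) ^ (k : ℕ)) * δ ^ (k : ℕ) := by
        rw [Finset.sum_mul]
        exact Finset.sum_congr rfl fun l _ => by rw [mul_pow]; ring
      rw [e3, hbk]
      field_simp
    rw [e2, ← Finset.sum_sub_distrib]
    refine Finset.sum_congr rfl fun l _ => ?_
    rw [hRem, ← smul_sub]
  have hRn : ∀ l : Fin L, ‖Rem l‖ ≤ |C| * (L : ℝ) ^ L * δ ^ L := by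
    intro l
    have hl : (l : ℝ) ≤ L := by exact_mod_cast l.2.le
    have hl0 : (0 : ℝ) ≤ l := by positivity
    have h1 : dist ((l : ℝ) * δ) 0 < ρ := by
      rw [dist_zero_right, Real.norm_of_nonneg (by positivity)]
      calc (l : ℝ) * δ ≤ L * δ := by gcongr
        _ < ρ := by linarith
    have h2 := hC2 h1
    rw [FormalMultilinearSeries.partialSum] at h2
    simp only [FormalMultilinearSeries.apply_eq_pow_smul_coeff] at h2
    rw [Finset.sum_range] at h2
    refine h2.trans ?_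
    rw [norm_pow, norm_norm, Real.norm_of_nonneg (by positivity : (0 : ℝ) ≤ l * δ), mul_pow]
    calc C * ((l : ℝ) ^ L * δ ^ L) ≤ |C| * ((L : ℝ) ^ L * δ ^ L) := by
          gcongr
          exact le_abs_self C
      _ = _ := by ring
  have hbn : ∀ l : Fin L, |b l| * δ ^ L ≤ Cb * δ := by
    intro l
    have h1 : |b l| ≤ ∑ k : Fin L, |γ k| * |W k l| := by
      rw [hb]
      simp only [Matrix.vecMul, dotProduct]
      refine (Finset.abs_sum_le_sum_abs _ _).trans (Finset.sum_le_sum fun k _ => ?_)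
      rw [abs_mul]
    have h2 : (∑ k : Fin L, |γ k| * |W k l|) * δ ^ L ≤ (∑ k : Fin L, |β k| * |W k l|) * δ := by
      rw [Finset.sum_mul, Finset.sum_mul]
      refine Finset.sum_le_sum fun k _ => ?_
      rw [hγ]
      simp only
      rw [abs_div, abs_of_pos (by positivity : (0 : ℝ) < δ ^ (k : ℕ))]
      have h3 : δ ^ L ≤ δ ^ ((k : ℕ) + 1) := pow_le_pow_of_le_one hδ0'.le hd1.le k.2
      calc |β k| / δ ^ (k : ℕ) * |W k l| * δ ^ L ≤ |β k| / δ ^ (k : ℕ) * |W k l| * δ ^ ((k : ℕ) + 1) := by gcongr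
        _ = |β k| * |W k l| * δ := by rw [pow_succ]; field_simp
    have h3 : (∑ k : Fin L, |β k| * |W k l|) ≤ Cb :=
      Finset.single_le_sum (f := fun l => ∑ k : Fin L, |β k| * |W k l|)
        (fun _ _ => Finset.sum_nonneg fun _ _ => by positivity) (Finset.mem_univ l)
    calc |b l| * δ ^ L ≤ (∑ k : Fin L, |γ k| * |W k l|) * δ ^ L := by gcongr
      _ ≤ (∑ k : Fin L, |β k| * |W k l|) * δ := h2
      _ ≤ Cb * δ := by gcongr
  rw [e1]
  calc ‖∑ l : Fin L, b l • Rem l‖ ≤ ∑ l : Fin L, ‖b l • Rem l‖ := norm_sum_le _ _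
    _ ≤ ∑ _l : Fin L, Cb * (|C| * (L : ℝ) ^ L) * δ := by
        refine Finset.sum_le_sum fun l _ => ?_
        rw [norm_smul, Real.norm_eq_abs]
        calc |b l| * ‖Rem l‖ ≤ |b l| * (|C| * (L : ℝ) ^ L * δ ^ L) := by gcongr; exact hRn l
          _ = (|b l| * δ ^ L) * (|C| * (L : ℝ) ^ L) := by ring
          _ ≤ (Cb * δ) * (|C| * (L : ℝ) ^ L) := mul_le_mul_of_nonneg_right (hbn l) (by positivity)
          _ = _ := by ring
    _ = L * (Cb * (|C| * (L : ℝ) ^ L)) * δ := by simp; ring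
    _ ≤ K * δ := by gcongr; linarith
    _ ≤ ε := by linarith

end H316F
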