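import Pool.Agent.H316R4.Approx

open scoped BigOperators Topology ENNReal
open Filter Set MeasureTheory

namespace H316F

theorem stepB {E : Type*} [NormedAddCommGroup E] [NormedSpace ℝ E] (F G : ℝ → E)
    (hF : ∀ a, HasDerivAt F (G a) a) (L d : ℕ) (t : Fin L → ℝ) (b : Fin d → Fin L → ℝ)
    (ε δ : ℝ) (hε : 0 < ε) (hδ : 0 < δ) :
    ∃ v : ℝ, 0 < v ∧ ∃ c : Fin L × (Fin d → Bool) → ℝ, (∀ j, |v * c j| ≤ δ) ∧
      ∀ r : Fin d, ‖v⁻¹ • ∑ j : Fin L × (Fin d → Bool), sgn r j.2 • F (t j.1 + v * c j) -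
        ∑ l, b r l • G (t l)‖ ≤ ε := by
  classical
  set c : Fin L × (Fin d → Bool) → ℝ := fun j => ∑ r, sgn r j.2 * b r j.1 / 2 ^ d with hc
  have h2d : (0 : ℝ) < 2 ^ d := by positivity
  -- derivative of the combination
  have hder : ∀ r : Fin d, HasDerivAt (fun v : ℝ => ∑ j : Fin L × (Fin d → Bool),
      sgn r j.2 • F (t j.1 + v * c j)) (∑ l, b r l • G (t l)) 0 := by
    intro r
    have h1 : HasDerivAt (fun v : ℝ => ∑ j : Fin L × (Fin d → Bool),
      sgn r j.2 • F (t j.1 + v * c j)) (∑ j : Fin L × (Fin d → Bool), sgn r j.2 • (c j • G (t j.1))) 0 := by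
      have h3 := HasDerivAt.fun_sum (u := (Finset.univ : Finset (Fin L × (Fin d → Bool))))
        (A := fun j (v : ℝ) => sgn r j.2 • F (t j.1 + v * c j))
        (A' := fun j => sgn r j.2 • (c j • G (t j.1))) (x := (0 : ℝ)) (fun j _ => by
          refine HasDerivAt.const_smul _ ?_
          have h4 : HasDerivAt (fun v : ℝ => t j.1 + v * c j) (c j) 0 := by
            simpa using ((hasDerivAt_id (0 : ℝ)).mul_const (c j)).const_add (t j.1)
          have h5 := HasDerivAt.scomp (g₁ := F) (g₁' := G (t j.1)) (0 : ℝ) (by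
            have := hF (t j.1)
            simpa using this) h4
          exact h5)
      exact h3
    have h2 : ∑ j : Fin L × (Fin d → Bool), sgn r j.2 • (c j • G (t j.1)) = ∑ l, b r l • G (t l) := by
      rw [Fintype.sum_prod_type]
      refine Finset.sum_congr rfl fun l _ => ?_
      simp only [smul_smul]
      rw [← Finset.sum_smul]
      congr 1
      have h6 : ∑ e : Fin d → Bool, sgn r e * c (l, e) =
          ∑ r', (∑ e : Fin d → Bool, sgn r e * sgn r' e) * (b r' l / 2 ^ d) := by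
        rw [hc]
        simp only [Finset.mul_sum, Finset.sum_mul]
        rw [Finset.sum_comm]
        refine Finset.sum_congr rfl fun r' _ => Finset.sum_congr rfl fun e _ => ?_
        ring
      rw [h6]
      simp only [sgn_orth]
      rw [Finset.sum_eq_single r]
      · rw [if_pos rfl]; field_simp
      · intro r' _ hr'
        rw [if_neg (Ne.symm hr'), zero_mul]
      · intro h; exact absurd (Finset.mem_univ _) h
    rwa [h2] at h1
  have hzero : ∀ r : Fin d, ∑ j : Fin L × (Fin d → Bool), sgn r j.2 • F (t j.1 + 0 * c j) = 0 := by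
    intro r
    rw [Fintype.sum_prod_type]
    refine Finset.sum_eq_zero fun l _ => ?_
    simp only [zero_mul, add_zero]
    rw [← Finset.sum_smul, sgn_sum, zero_smul]
  have hev : ∀ r : Fin d, ∀ᶠ v in 𝓝[>] (0 : ℝ), ‖v⁻¹ • ∑ j : Fin L × (Fin d → Bool),
      sgn r j.2 • F (t j.1 + v * c j) - ∑ l, b r l • G (t l)‖ ≤ ε := by
    intro r
    have h1 := (hasDerivAt_iff_tendsto_slope.1 (hder r))
    have h2 : Tendsto (slope (fun v : ℝ => ∑ j : Fin L × (Fin d → Bool),
      sgn r j.2 • F (t j.1 + v * c j)) 0) (𝓝[>] 0) (𝓝 (∑ l, b r l • G (t l))) :=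
      h1.mono_left (nhdsWithin_mono _ fun v hv => (ne_of_gt hv))
    have h3 := (Metric.tendsto_nhds.1 h2) ε hε
    filter_upwards [h3] with v hv
    rw [slope_def_module, sub_zero, hzero r, sub_zero, dist_eq_norm] at hv
    exact hv.le
  have hev2 : ∀ᶠ v in 𝓝[>] (0 : ℝ), ∀ j, |v * c j| ≤ δ := by
    rw [eventually_all]
    intro j
    have h1 : Tendsto (fun v : ℝ => |v * c j|) (𝓝 0) (𝓝 |0 * c j|) := by
      have : Continuous fun v : ℝ => |v * c j| := by fun_prop
      exact this.tendsto 0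
    rw [zero_mul, abs_zero] at h1
    have h2 : ∀ᶠ v in 𝓝[>] (0 : ℝ), |v * c j| < δ := nhdsWithin_le_nhds (h1.eventually (gt_mem_nhds hδ))
    exact h2.mono fun v hv => hv.le
  obtain ⟨v, ⟨hv1, hv2⟩, hv3⟩ := (((eventually_all.2 hev).and hev2).and self_mem_nhdsWithin).exists
  exact ⟨v, hv3, c, hv2, hv1⟩

variable {p : ℝ≥0∞} [hp1 : Fact (1 ≤ p)]


theorem approx (h1p : 1 < p) (hp : p ≠ ⊤) {f : (Lp ℝ p (volume : Measure ℝ))} (hf : GoodF f) (N : ℝ) (d : ℕ) (h : Fin d → (Lp ℝ p (volume : Measure ℝ)))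
    (ε : ℝ) (hε : 0 < ε) :
    ∃ a : ℕ, ∀ δ : ℝ, 0 < δ → ∃ (P : Fin (2 ^ a) × (Fin d → Bool) → ℝ) (R : ℝ), 0 < R ∧ (∀ j, |P j| ≤ δ) ∧
      ∀ r, ‖R • ∑ j : Fin (2 ^ a) × (Fin d → Bool), sgn r j.2 • Tr ℝ p (N + P j) f - h r‖ ≤ ε := by
  classical
  obtain ⟨Q, hQ, hdense⟩ := dense_coeffs h1p hp hf N
  have h1 : ∀ r : Fin d, ∃ c : ℕ →₀ ℝ, ‖c.sum (fun i a => a • Q.coeff i) - h r‖ ≤ ε / 3 := by
    intro r
    obtain ⟨y, hy, hy2⟩ := Metric.mem_closure_iff.1 (hdense (h r)) (ε / 3) (by positivity)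
    obtain ⟨c, hc⟩ := (Finsupp.mem_span_range_iff_exists_finsupp).1 hy
    refine ⟨c, ?_⟩
    rw [hc, ← dist_eq_norm, dist_comm]
    exact hy2.le
  choose c hc using h1
  obtain ⟨a, ha⟩ : ∃ a : ℕ, ∀ r, (c r).support ⊆ Finset.range (2 ^ a) := by
    obtain ⟨M, hM⟩ := (Finset.univ.biUnion fun r => (c r).support).bddAbove
    refine ⟨M + 1, fun r k hk => ?_⟩
    rw [Finset.mem_range]
    have : k ≤ M := hM (by simp only [Finset.coe_biUnion, Set.mem_iUnion]; exact ⟨r, by simp, hk⟩)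
    exact lt_of_le_of_lt this (lt_trans (Nat.lt_succ_self M) (Nat.lt_two_pow_self))
  set L := 2 ^ a with hL
  set β : Fin d → Fin L → ℝ := fun r k => c r k with hβ
  have hsum : ∀ r, ∑ k : Fin L, β r k • Q.coeff k = (c r).sum (fun i a => a • Q.coeff i) := by
    intro r
    rw [Finsupp.sum_of_support_subset _ (ha r) _ (fun i _ => by simp), Finset.sum_range]
  set F : ℝ → (Lp ℝ p (volume : Measure ℝ)) := fun a => Tr ℝ p a f with hFdef
  have hdiff : ∀ z, HasDerivAt F (deriv F z) z := fun z =>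
    (hf.an z (mem_univ z)).differentiableAt.hasDerivAt
  refine ⟨a, fun δ hδ => ?_⟩
  have hevA := eventually_all.2 (fun r : Fin d => stepA (deriv F) Q N hQ L (β r) (ε / 3) (by positivity))
  have hL0 : (0 : ℝ) < L := by rw [hL]; positivity
  have hevδ : ∀ᶠ η in 𝓝[>] (0 : ℝ), η < δ / 2 / L :=
    nhdsWithin_le_nhds (Iio_mem_nhds (by positivity))
  obtain ⟨η, ⟨hη1, hη2⟩, hη3⟩ := ((hevA.and hevδ).and self_mem_nhdsWithin).exists
  have hη0 : (0 : ℝ) < η := hη3
  choose b hb using hη1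
  obtain ⟨v, hv, cc, hcc, hB⟩ := stepB F (deriv F) hdiff L d (fun l => N + l * η) b (ε / 3) (δ / 2)
    (by positivity) (by positivity)
  refine ⟨fun j => j.1 * η + v * cc j, v⁻¹, by positivity, fun j => ?_, fun r => ?_⟩
  · have h2 : |(j.1 : ℝ) * η| ≤ δ / 2 := by
      rw [abs_of_nonneg (by positivity)]
      have : (j.1 : ℝ) ≤ L := by exact_mod_cast j.1.2.le
      rw [lt_div_iff₀ hL0] at hη2
      calc (j.1 : ℝ) * η ≤ L * η := by gcongr
        _ ≤ δ / 2 := by linarith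
    calc |(j.1 : ℝ) * η + v * cc j| ≤ |(j.1 : ℝ) * η| + |v * cc j| := abs_add_le _ _
      _ ≤ δ / 2 + δ / 2 := add_le_add h2 (hcc j)
      _ = δ := by ring
  · have h3 := hB r
    have h4 := hb r
    rw [hsum r] at h4
    have h5 := hc r
    have e1 : v⁻¹ • ∑ j : Fin L × (Fin d → Bool), sgn r j.2 • Tr ℝ p (N + (j.1 * η + v * cc j)) f - h r =
        (v⁻¹ • ∑ j : Fin L × (Fin d → Bool), sgn r j.2 • F (N + j.1 * η + v * cc j) - ∑ l, b r l • deriv F (N + l * η))
        + (∑ l, b r l • deriv F (N + l * η) - (c r).sum (fun i a => a • Q.coeff i))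
        + ((c r).sum (fun i a => a • Q.coeff i) - h r) := by
      simp only [hFdef, ← add_assoc]
      abel
    rw [e1]
    calc _ ≤ _ + _ := norm_add_le _ _
      _ ≤ (_ + _) + _ := by gcongr; exact norm_add_le _ _
      _ ≤ (ε / 3 + ε / 3) + ε / 3 := by gcongr
      _ = ε := by ring

end H316F
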