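import Pool.Agent.H316R4.Main2

open scoped BigOperators Topology ENNReal
open Filter Set MeasureTheory

namespace H316F

variable {p : ℝ≥0∞} [hp1 : Fact (1 ≤ p)]


noncomputable def toC : ((Lp ℝ p (volume : Measure ℝ))) →L[ℝ] ((Lp ℂ p (volume : Measure ℝ))) := Complex.ofRealCLM.compLpL p volume
noncomputable def reP : ((Lp ℂ p (volume : Measure ℝ))) →L[ℝ] ((Lp ℝ p (volume : Measure ℝ))) := Complex.reCLM.compLpL p volume
noncomputable def imP : ((Lp ℂ p (volume : Measure ℝ))) →L[ℝ] ((Lp ℝ p (volume : Measure ℝ))) := Complex.imCLM.compLpL p volume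

theorem toC_coe (u : (Lp ℝ p (volume : Measure ℝ))) : toC u =ᵐ[volume] fun t => ((u t : ℝ) : ℂ) :=
  Complex.ofRealCLM.coeFn_compLpL u

theorem reP_coe (u : (Lp ℂ p (volume : Measure ℝ))) : reP u =ᵐ[volume] fun t => (u t).re := Complex.reCLM.coeFn_compLpL u

theorem imP_coe (u : (Lp ℂ p (volume : Measure ℝ))) : imP u =ᵐ[volume] fun t => (u t).im := Complex.imCLM.coeFn_compLpL u

theorem reP_toC (u : (Lp ℝ p (volume : Measure ℝ))) : reP (toC u) = u := by
  apply Lp.ext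
  filter_upwards [reP_coe (toC u), toC_coe u] with t h1 h2
  rw [h1, h2, Complex.ofReal_re]

theorem imP_toC (u : (Lp ℝ p (volume : Measure ℝ))) : imP (toC u) = 0 := by
  apply Lp.ext
  filter_upwards [imP_coe (toC u), toC_coe u, Lp.coeFn_zero ℝ p volume] with t h1 h2 h3
  rw [h1, h2, Complex.ofReal_im, h3]
  rfl

theorem decomp (w : (Lp ℂ p (volume : Measure ℝ))) : toC (reP w) + Complex.I • toC (imP w) = w := by
  apply Lp.ext
  filter_upwards [Lp.coeFn_add (toC (reP w)) (Complex.I • toC (imP w)),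
    Lp.coeFn_smul Complex.I (toC (imP w)), toC_coe (reP w), toC_coe (imP w), reP_coe w, imP_coe w]
    with t h1 h2 h3 h4 h5 h6
  rw [h1, Pi.add_apply, h2, Pi.smul_apply, h3, h4, h5, h6, smul_eq_mul, mul_comm]
  exact Complex.re_add_im _

theorem reP_smul (c : ℂ) (w : (Lp ℂ p (volume : Measure ℝ))) : reP (c • w) = c.re • reP w - c.im • imP w := by
  apply Lp.ext
  filter_upwards [reP_coe (c • w), Lp.coeFn_smul c w, reP_coe w, imP_coe w,
    Lp.coeFn_sub (c.re • reP w) (c.im • imP w), Lp.coeFn_smul c.re (reP w),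
    Lp.coeFn_smul c.im (imP w)] with t h1 h2 h3 h4 h5 h6 h7
  rw [h1, h2, h5, Pi.sub_apply, h6, h7, Pi.smul_apply, Pi.smul_apply, Pi.smul_apply, h3, h4,
    smul_eq_mul, smul_eq_mul, smul_eq_mul, Complex.mul_re]

theorem imP_smul (c : ℂ) (w : (Lp ℂ p (volume : Measure ℝ))) : imP (c • w) = c.re • imP w + c.im • reP w := by
  apply Lp.ext
  filter_upwards [imP_coe (c • w), Lp.coeFn_smul c w, reP_coe w, imP_coe w,
    Lp.coeFn_add (c.re • imP w) (c.im • reP w), Lp.coeFn_smul c.re (imP w),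
    Lp.coeFn_smul c.im (reP w)] with t h1 h2 h3 h4 h5 h6 h7
  rw [h1, h2, h5, Pi.add_apply, h6, h7, Pi.smul_apply, Pi.smul_apply, Pi.smul_apply, h3, h4,
    smul_eq_mul, smul_eq_mul, smul_eq_mul, Complex.mul_im]

theorem toC_Tr (a : ℝ) (f : (Lp ℝ p (volume : Measure ℝ))) : toC (Tr ℝ p a f) = Tr ℂ p a (toC f) := by
  apply Lp.ext
  have h1 := (measurePreserving_sub_right (volume : Measure ℝ) a).quasiMeasurePreserving.ae
    (toC_coe f)
  filter_upwards [toC_coe (Tr ℝ p a f), Tr_coe (𝕜 := ℝ) a f, Tr_coe (𝕜 := ℂ) a (toC f), h1] with t h2 h3 h4 h5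
  rw [h2, h3, h4, h5]

theorem toC_smul (r : ℝ) (w : (Lp ℂ p (volume : Measure ℝ))) : ((r : ℂ) • w : (Lp ℂ p (volume : Measure ℝ))) = r • w := by
  apply Lp.ext
  filter_upwards [Lp.coeFn_smul (r : ℂ) w, Lp.coeFn_smul r w] with t h1 h2
  rw [h1, h2]
  simp

theorem span_CR (G : Set ((Lp ℝ p (volume : Measure ℝ)))) {w : (Lp ℂ p (volume : Measure ℝ))} (hw : w ∈ Submodule.span ℂ (toC '' G)) :
    reP w ∈ Submodule.span ℝ G ∧ imP w ∈ Submodule.span ℝ G := by
  induction hw using Submodule.span_induction with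
  | mem x hx =>
    obtain ⟨g, hg, rfl⟩ := hx
    rw [reP_toC, imP_toC]
    exact ⟨Submodule.subset_span hg, Submodule.zero_mem _⟩
  | zero => rw [map_zero, map_zero]; exact ⟨Submodule.zero_mem _, Submodule.zero_mem _⟩
  | add x y _ _ hx hy =>
    rw [map_add, map_add]
    exact ⟨Submodule.add_mem _ hx.1 hy.1, Submodule.add_mem _ hx.2 hy.2⟩
  | smul c x _ hx =>
    rw [reP_smul, imP_smul]
    exact ⟨Submodule.sub_mem _ (Submodule.smul_mem _ _ hx.1) (Submodule.smul_mem _ _ hx.2),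
      Submodule.add_mem _ (Submodule.smul_mem _ _ hx.2) (Submodule.smul_mem _ _ hx.1)⟩

theorem span_RC (G : Set ((Lp ℝ p (volume : Measure ℝ)))) {u : (Lp ℝ p (volume : Measure ℝ))} (hu : u ∈ Submodule.span ℝ G) :
    toC u ∈ Submodule.span ℂ (toC '' G) := by
  induction hu using Submodule.span_induction with
  | mem x hx => exact Submodule.subset_span ⟨x, hx, rfl⟩
  | zero => rw [map_zero]; exact Submodule.zero_mem _
  | add x y _ _ hx hy => rw [map_add]; exact Submodule.add_mem _ hx hy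
  | smul c x _ hx =>
    rw [map_smul, ← toC_smul]
    exact Submodule.smul_mem _ _ hx

theorem cplx_fdd (G : ℕ → Set ((Lp ℝ p (volume : Measure ℝ)))) (hfin : ∀ k, (G k).Finite)
    (hG : IsFDD ℝ fun k => Submodule.span ℝ (G k)) :
    IsFDD ℂ fun k => Submodule.span ℂ (toC '' (G k)) := by
  refine ⟨fun k => FiniteDimensional.span_of_finite ℂ ((hfin k).image _), fun w => ?_⟩
  obtain ⟨u, ⟨hu1, hu2⟩, hu3⟩ := hG.2 (reP w)
  obtain ⟨v, ⟨hv1, hv2⟩, hv3⟩ := hG.2 (imP w)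
  refine ⟨fun k => toC (u k) + Complex.I • toC (v k), ⟨fun k => Submodule.add_mem _ (span_RC _ (hu1 k))
    (Submodule.smul_mem _ _ (span_RC _ (hv1 k))), ?_⟩, ?_⟩
  · have h1 : Tendsto (fun n => toC (∑ k ∈ Finset.range n, u k)) atTop (𝓝 (toC (reP w))) :=
      (toC.continuous.tendsto _).comp hu2
    have h2 : Tendsto (fun n => toC (∑ k ∈ Finset.range n, v k)) atTop (𝓝 (toC (imP w))) :=
      (toC.continuous.tendsto _).comp hv2
    have h3 := h1.add (h2.const_smul Complex.I)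
    rw [decomp] at h3
    refine h3.congr fun n => ?_
    rw [map_sum, map_sum, Finset.sum_add_distrib, Finset.smul_sum]
  · rintro z ⟨hz1, hz2⟩
    have h1 : (fun k => reP (z k)) = u := hu3 _ ⟨fun k => (span_CR _ (hz1 k)).1, by
      have := (reP.continuous.tendsto _).comp hz2
      refine this.congr fun n => ?_
      simp⟩
    have h2 : (fun k => imP (z k)) = v := hv3 _ ⟨fun k => (span_CR _ (hz1 k)).2, by
      have := (imP.continuous.tendsto _).comp hz2
      refine this.congr fun n => ?_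
      simp⟩
    funext k
    rw [← h1, ← h2]
    exact (decomp (z k)).symm

/-- span over the field of a block of translates -/
noncomputable def blk (𝕜 : Type*) [RCLike 𝕜] (p : ℝ≥0∞) [Fact (1 ≤ p)]
    (f : Lp 𝕜 p (volume : Measure ℝ)) (lam : ℕ → ℝ) (n : ℕ → ℕ) (k : ℕ) :
    Submodule 𝕜 (Lp 𝕜 p (volume : Measure ℝ)) :=
  Submodule.span 𝕜 {g | ∃ i, n k ≤ i ∧ i < n (k + 1) ∧ g = Tr 𝕜 p (lam i) f}

theorem main_both (h1p : 1 < p) (hp : p ≠ ⊤) : ∃ (f : (Lp ℝ p (volume : Measure ℝ))) (lam : ℕ → ℝ) (n : ℕ → ℕ), n 0 = 0 ∧ StrictMono n ∧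
    IsFDD ℝ (blk ℝ p f lam n) ∧ IsFDD ℂ (blk ℂ p (toC f) lam n) := by
  obtain ⟨f, lam, n, h0, h1, h2⟩ := main_real h1p hp
  refine ⟨f, lam, n, h0, h1, h2, ?_⟩
  have h3 := cplx_fdd (fun k => {g : (Lp ℝ p (volume : Measure ℝ)) | ∃ i, n k ≤ i ∧ i < n (k + 1) ∧ g = Tr ℝ p (lam i) f})
    (fun k => by
      refine ((Set.finite_lt_nat (n (k + 1))).image fun i => Tr ℝ p (lam i) f).subset ?_
      rintro _ ⟨i, hi1, hi2, rfl⟩
      exact ⟨i, hi2, rfl⟩) h2
  have h4 : ∀ k, toC '' {g : (Lp ℝ p (volume : Measure ℝ)) | ∃ i, n k ≤ i ∧ i < n (k + 1) ∧ g = Tr ℝ p (lam i) f} =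
      {g : (Lp ℂ p (volume : Measure ℝ)) | ∃ i, n k ≤ i ∧ i < n (k + 1) ∧ g = Tr ℂ p (lam i) (toC f)} := by
    intro k
    ext g
    constructor
    · rintro ⟨_, ⟨i, hi1, hi2, rfl⟩, rfl⟩
      exact ⟨i, hi1, hi2, toC_Tr _ _⟩
    · rintro ⟨i, hi1, hi2, rfl⟩
      exact ⟨_, ⟨i, hi1, hi2, rfl⟩, toC_Tr _ _⟩
  simp only [h4] at h3
  exact h3

end H316F
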