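import Pool.Agent.H316R4.Dyad3

open scoped BigOperators Topology ENNReal FourierTransform SchwartzMap Convolution ContDiff
open Filter Set MeasureTheory

namespace H316F

theorem conv_eq (φ : 𝓢(ℝ, ℂ)) (w : ℝ → ℂ) (hw : Integrable w) (ψ : 𝓢(ℝ, ℂ))
    (h : ∀ ξ, 𝓕 (ψ : ℝ → ℂ) ξ = 𝓕 (φ : ℝ → ℂ) ξ * 𝓕 w ξ) (x : ℝ) :
    ψ x = ∫ a, φ a * w (x - a) := by
  set F : ℝ → ℂ := w ⋆[ContinuousLinearMap.mul ℂ ℂ] (φ : ℝ → ℂ) with hF
  have hbdd : BddAbove (range fun x => ‖φ x‖) := by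
    obtain ⟨C, hC⟩ := φ.decay 0 0
    refine ⟨C, ?_⟩
    rintro _ ⟨y, rfl⟩
    have := hC.2 y
    simpa using this
  have hcont : Continuous F :=
    hbdd.continuous_convolution_right_of_integrable (L := ContinuousLinearMap.mul ℂ ℂ) hw φ.continuous
  have hint : Integrable F := hw.integrable_convolution (ContinuousLinearMap.mul ℂ ℂ) φ.integrable
  have hFF : 𝓕 F = 𝓕 (ψ : ℝ → ℂ) := by
    funext ξ
    rw [hF, Real.fourier_mul_convolution_eq hw φ.integrable, h, mul_comm]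
  have hψi : Integrable (𝓕 (ψ : ℝ → ℂ)) := by
    have := (𝓕 ψ).integrable (μ := (volume : Measure ℝ))
    rwa [SchwartzMap.fourier_coe] at this
  have h1 : F = ψ := by
    rw [← hcont.fourierInv_fourier_eq hint (by rw [hFF]; exact hψi), hFF,
      ψ.continuous.fourierInv_fourier_eq ψ.integrable hψi]
  rw [← h1, hF]
  show ∫ t, w t * φ (x - t) = _
  rw [← integral_sub_left_eq_self _ _ x]
  refine integral_congr_ae (Eventually.of_forall fun a => ?_)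
  simp only [sub_sub_cancel]
  ring

/-- deconvolution: a Schwartz function with compactly supported Fourier transform is a convolution
of `u` with a Schwartz function -/
theorem deconv (u : ℝ → ℂ) (hu : Integrable u) (U : ℝ → ℝ) (hU : ∀ ξ, 0 < U ξ)
    (hUs : ContDiff ℝ ∞ U) (hF : ∀ ξ, 𝓕 u ξ = U ξ) (ψ : 𝓢(ℝ, ℂ))
    (hψ : HasCompactSupport (𝓕 (ψ : ℝ → ℂ))) :
    ∃ φ : 𝓢(ℝ, ℂ), (∀ x, ψ x = ∫ a, φ a * u (x - a)) ∧ 𝓕 (ψ : ℝ → ℂ) 0 = U 0 * ∫ a, φ a := by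
  set g : ℝ → ℂ := fun ξ => 𝓕 (ψ : ℝ → ℂ) ξ * ((U ξ)⁻¹ : ℝ) with hg
  have hgc : HasCompactSupport g := hψ.mul_right
  have hψs : ContDiff ℝ ∞ (𝓕 (ψ : ℝ → ℂ)) := (𝓕 ψ).smooth'
  have hgs : ContDiff ℝ ∞ g := by
    refine hψs.mul ?_
    exact Complex.ofRealCLM.contDiff.comp (hUs.inv fun ξ => (hU ξ).ne')
  set G : 𝓢(ℝ, ℂ) := hgc.toSchwartzMap hgs with hG
  have hφ : 𝓕 ((𝓕⁻ G : 𝓢(ℝ, ℂ)) : ℝ → ℂ) = g := by
    rw [← SchwartzMap.fourier_coe, FourierTransform.fourier_fourierInv_eq]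
    rfl
  refine ⟨𝓕⁻ G, ?_, ?_⟩
  · apply conv_eq _ _ hu
    intro ξ
    rw [hφ, hF, hg]
    have : (U ξ : ℂ) ≠ 0 := by exact_mod_cast (hU ξ).ne'
    push_cast
    field_simp
  · have h0 : 𝓕 ((𝓕⁻ G : 𝓢(ℝ, ℂ)) : ℝ → ℂ) 0 = ∫ a, (𝓕⁻ G : 𝓢(ℝ, ℂ)) a := by
      rw [Real.fourier_eq]
      simp
    rw [← h0, hφ, hg]
    have : (U 0 : ℂ) ≠ 0 := by exact_mod_cast (hU 0).ne'
    push_cast
    field_simp

variable {p : ℝ≥0∞} [hp1 : Fact (1 ≤ p)]


theorem boc_integrable (hp : p ≠ ⊤) (φ : ℝ → ℝ) (hφ : Integrable φ) (W : (Lp ℝ p (volume : Measure ℝ))) :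
    Integrable (fun a => φ a • Tr ℝ p a W) := by
  refine Integrable.mono' (hφ.norm.mul_const ‖W‖) ?_ ?_
  · exact hφ.aestronglyMeasurable.smul (Tr_cont (𝕜 := ℝ) hp W).aestronglyMeasurable
  · refine Eventually.of_forall fun a => ?_
    rw [norm_smul, LinearIsometry.norm_map]

theorem boc (hp : p ≠ ⊤) (φ : ℝ → ℝ) (hφ : Integrable φ) (w : ℝ → ℝ) (hw : Integrable w)
    (hwm : MemLp w p volume) (ψ : ℝ → ℝ) (hψ : MemLp ψ p volume)
    (h : ∀ x, ψ x = ∫ a, φ a * w (x - a)) :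
    ∫ a, φ a • Tr ℝ p a (hwm.toLp w) = hψ.toLp ψ := by
  have h0 : p ≠ 0 := fun h => by have := hp1.out; rw [h] at this; simp at this
  apply Lp.ext
  refine Lp.ae_eq_of_forall_setIntegral_eq _ _ h0 hp
    (fun s _ hs => integrableOn_of_fin _ hs.ne) (fun s _ hs => integrableOn_of_fin _ hs.ne) ?_
  intro s hs hμ
  rw [← sInt_apply s hs hμ.ne, ← ContinuousLinearMap.integral_comp_comm _ (boc_integrable hp φ hφ _)]
  have e1 : ∀ a, sInt p s hs hμ.ne (φ a • Tr ℝ p a (hwm.toLp w)) = ∫ x in s, φ a * w (x - a) := by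
    intro a
    rw [map_smul, sInt_apply, smul_eq_mul, ← integral_const_mul]
    refine setIntegral_congr_ae hs ?_
    have h2 := (measurePreserving_sub_right (volume : Measure ℝ) a).quasiMeasurePreserving.ae
      hwm.coeFn_toLp
    filter_upwards [Tr_coe (𝕜 := ℝ) a (hwm.toLp w), h2] with t h3 h4 _
    rw [h3, h4]
  simp only [e1]
  have e2 : ∫ x in s, hψ.toLp ψ x = ∫ x in s, ∫ a, φ a * w (x - a) := by
    refine setIntegral_congr_ae hs ?_
    filter_upwards [hψ.coeFn_toLp] with t ht _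
    rw [ht, h]
  rw [e2]
  have hi : Integrable (fun q : ℝ × ℝ => φ q.2 * w (q.1 - q.2)) ((volume : Measure ℝ).prod volume) :=
    Integrable.convolution_integrand (ContinuousLinearMap.mul ℝ ℝ) hφ hw
  have hi2 : Integrable (fun q : ℝ × ℝ => φ q.2 * w (q.1 - q.2))
      (((volume : Measure ℝ).restrict s).prod volume) := by
    refine hi.mono_measure ?_
    exact Measure.prod_mono Measure.restrict_le_self le_rfl
  exact (integral_integral_swap (f := fun x a => φ a * w (x - a)) hi2).symm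

end H316F
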