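import Pool.Agent.H316R4.Cyc

open scoped BigOperators Topology ENNReal FourierTransform SchwartzMap Convolution ContDiff
open Filter Set MeasureTheory

namespace H316F

variable {p : ℝ≥0∞} [hp1 : Fact (1 ≤ p)]


theorem re_conv (φ : 𝓢(ℝ, ℂ)) (u : ℝ → ℝ) (hu : Integrable u) (x : ℝ) :
    (∫ a, φ a * (u (x - a) : ℂ)).re = ∫ a, (φ a).re * u (x - a) := by
  have hi : Integrable (fun a => φ a * (u (x - a) : ℂ)) := by
    have h1 : Integrable (fun a => (u (x - a) : ℂ)) := (hu.comp_sub_left x).ofReal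
    obtain ⟨C, hC⟩ := φ.decay 0 0
    refine h1.bdd_mul (c := C) φ.continuous.aestronglyMeasurable (Eventually.of_forall fun y => ?_)
    have := hC.2 y
    simpa using this
  have h2 := (Complex.reCLM.integral_comp_comm hi).symm
  simp only [Complex.reCLM_apply] at h2
  rw [h2]
  refine integral_congr_ae (Eventually.of_forall fun a => ?_)
  simp [Complex.mul_re]

theorem int_re (φ : 𝓢(ℝ, ℂ)) : ∫ a, (φ a).re = (∫ a, φ a).re := by
  have h2 := (Complex.reCLM.integral_comp_comm (φ.integrable (μ := volume)))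
  simpa using h2

theorem memRe (ψ : 𝓢(ℝ, ℂ)) : MemLp (fun x => (ψ x).re) p volume := (ψ.memLp p).re

theorem fourier_zero (ψ : 𝓢(ℝ, ℂ)) : 𝓕 (ψ : ℝ → ℂ) 0 = ∫ a, ψ a := by
  rw [Real.fourier_eq]; simp

/-- step 1 -/
theorem cyc1 (hp : p ≠ ⊤) (u : ℝ → ℝ) (hu : Integrable u) (hum : MemLp u p volume) (U : ℝ → ℝ)
    (hU : ∀ ξ, 0 < U ξ) (hUs : ContDiff ℝ ∞ U) (hF : ∀ ξ, 𝓕 (fun x => (u x : ℂ)) ξ = U ξ)
    (ℓ : ((Lp ℝ p (volume : Measure ℝ))) →L[ℝ] ℝ) (C : ℝ) (hℓ : ∀ a, ℓ (Tr ℝ p a (hum.toLp u)) = C)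
    (ψ : 𝓢(ℝ, ℂ)) (hψ : HasCompactSupport (𝓕 (ψ : ℝ → ℂ))) :
    ℓ ((memRe ψ).toLp _) = C / U 0 * (𝓕 (ψ : ℝ → ℂ) 0).re := by
  obtain ⟨φ, h1, h2⟩ := deconv (fun x => (u x : ℂ)) hu.ofReal U hU hUs hF ψ hψ
  have hφi : Integrable (fun a => (φ a).re) := (φ.integrable (μ := volume)).re
  have h3 : ∀ x, (ψ x).re = ∫ a, (φ a).re * u (x - a) := by
    intro x
    rw [h1 x, re_conv φ u hu x]
  rw [← boc hp (fun a => (φ a).re) hφi u hu hum _ (memRe ψ) h3,
    ← ContinuousLinearMap.integral_comp_comm _ (boc_integrable hp _ hφi _)]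
  simp only [map_smul, hℓ, smul_eq_mul]
  rw [integral_mul_const, int_re, h2]
  have : U 0 ≠ 0 := (hU 0).ne'
  rw [Complex.re_ofReal_mul]
  field_simp

theorem scale_lemma (χ : ℝ → ℂ) (n : ℝ) (hn : 0 < n) (a : ℝ) :
    𝓕⁻ (fun ξ => χ (ξ / n)) a = n * 𝓕⁻ χ (n * a) := by
  rw [Real.fourierInv_eq, Real.fourierInv_eq]
  have h1 := Measure.integral_comp_div (fun η : ℝ => 𝐞 (Inner.inner ℝ η (n * a)) • χ η) n
  rw [abs_of_pos hn] at h1
  have h2 : ∫ ξ : ℝ, 𝐞 (Inner.inner ℝ ξ a) • χ (ξ / n) = ∫ ξ : ℝ, 𝐞 (Inner.inner ℝ (ξ / n) (n * a)) • χ (ξ / n) := by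
    refine integral_congr_ae (Eventually.of_forall fun ξ => ?_)
    have : Inner.inner ℝ (ξ / n) (n * a) = Inner.inner ℝ ξ a := by
      rw [RCLike.inner_apply, RCLike.inner_apply, conj_trivial, conj_trivial]
      field_simp
    simp only [this]
  rw [h2, h1]
  simp

/-- step 2 -/
theorem cyc2 (hp : p ≠ ⊤) (u : ℝ → ℝ) (hu : Integrable u) (hum : MemLp u p volume) (U : ℝ → ℝ)
    (hU : ∀ ξ, 0 < U ξ) (hUs : ContDiff ℝ ∞ U) (hF : ∀ ξ, 𝓕 (fun x => (u x : ℂ)) ξ = U ξ)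
    (ℓ : ((Lp ℝ p (volume : Measure ℝ))) →L[ℝ] ℝ) (C : ℝ) (hℓ : ∀ a, ℓ (Tr ℝ p a (hum.toLp u)) = C)
    (v : ℝ → ℝ) (hvc : HasCompactSupport v) (hvs : ContDiff ℝ ∞ v) (hvm : MemLp v p volume) :
    ℓ (hvm.toLp v) = C / U 0 * ∫ x, v x := by
  classical
  have hvi : Integrable v := hvs.continuous.integrable_of_hasCompactSupport hvc
  set vC : 𝓢(ℝ, ℂ) := (hvc.comp_left (g := fun x : ℝ => (x : ℂ)) (by simp)).toSchwartzMap
    (Complex.ofRealCLM.contDiff.comp hvs) with hvC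
  have hvCx : ∀ x, vC x = (v x : ℂ) := fun x => rfl
  -- bump
  let b : ContDiffBump (0 : ℝ) := ⟨1, 2, by norm_num, by norm_num⟩
  set χ : ℝ → ℂ := fun ξ => (b ξ : ℂ) with hχ
  have hχs : ContDiff ℝ ∞ χ := Complex.ofRealCLM.contDiff.comp b.contDiff
  have hχc : HasCompactSupport χ := b.hasCompactSupport.comp_left (g := fun x : ℝ => (x : ℂ)) (by simp)
  have hχ0 : χ 0 = 1 := by
    rw [hχ]; simp only
    rw [b.one_of_mem_closedBall (by simp; norm_num)]; simp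
  set K : 𝓢(ℝ, ℂ) := 𝓕⁻ (hχc.toSchwartzMap hχs) with hK
  have hKχ : ∀ a, K a = 𝓕⁻ χ a := by
    intro a
    rw [hK, SchwartzMap.fourierInv_coe]
    rfl
  set κ : ℝ → ℝ := fun a => (K a).re with hκ
  have hκi : Integrable κ := (K.integrable (μ := volume)).re
  have hκ1 : ∫ a, κ a = 1 := by
    rw [hκ, int_re, ← fourier_zero, ← SchwartzMap.fourier_coe, hK,
      FourierTransform.fourier_fourierInv_eq]
    show (χ 0).re = 1
    rw [hχ0]; simp
  -- the approximations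
  have key : ∀ n : ℕ, ℓ (∫ y, κ y • Tr ℝ p (y / ((n : ℝ) + 1)) (hvm.toLp v)) = C / U 0 * ∫ x, v x := by
    intro n
    have hn : (0 : ℝ) < (n : ℝ) + 1 := by positivity
    set m : ℝ := (n : ℝ) + 1 with hm
    have hχnc : HasCompactSupport (fun ξ => χ (ξ / m)) := by
      have h1 := hχc.comp_homeomorph (Homeomorph.mulRight₀ (m⁻¹) (by positivity))
      have h2 : (fun ξ => χ (ξ / m)) = χ ∘ (Homeomorph.mulRight₀ (m⁻¹) (by positivity)) := by
        funext ξ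
        simp [div_eq_mul_inv]
      rw [h2]
      exact h1
    have hχns : ContDiff ℝ ∞ (fun ξ => χ (ξ / m)) := hχs.comp (contDiff_id.div_const m)
    set Kn : 𝓢(ℝ, ℂ) := 𝓕⁻ (hχnc.toSchwartzMap hχns) with hKn
    have hKna : ∀ a, Kn a = m * K (m * a) := by
      intro a
      rw [hKn, SchwartzMap.fourierInv_coe, hKχ, ← scale_lemma χ m hn a]
      rfl
    have hFKn : ∀ ξ, 𝓕 (Kn : ℝ → ℂ) ξ = χ (ξ / m) := by
      intro ξ
      rw [← SchwartzMap.fourier_coe, hKn, FourierTransform.fourier_fourierInv_eq]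
      rfl
    set w : ℝ → ℂ := fun ξ => χ (ξ / m) * 𝓕 (vC : ℝ → ℂ) ξ with hw
    have hwc : HasCompactSupport w := hχnc.mul_right
    have hws : ContDiff ℝ ∞ w := by
      refine hχns.mul ?_
      exact (𝓕 vC).smooth'
    set ψ : 𝓢(ℝ, ℂ) := 𝓕⁻ (hwc.toSchwartzMap hws) with hψ
    have hFψ : 𝓕 (ψ : ℝ → ℂ) = w := by
      rw [← SchwartzMap.fourier_coe, hψ, FourierTransform.fourier_fourierInv_eq]
      rfl
    have h1 : ∀ x, ψ x = ∫ a, Kn a * (v (x - a) : ℂ) := by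
      apply conv_eq Kn (fun x => (v x : ℂ)) hvi.ofReal ψ
      intro ξ
      rw [hFψ, hw, hFKn]
      rfl
    have h2 : ∀ x, (ψ x).re = ∫ a, (Kn a).re * v (x - a) := by
      intro x
      rw [h1 x, re_conv Kn v hvi x]
    have hKni : Integrable (fun a => (Kn a).re) := (Kn.integrable (μ := volume)).re
    have h3 := boc hp (fun a => (Kn a).re) hKni v hvi hvm _ (memRe ψ) h2
    have h4 : ∫ a, (Kn a).re • Tr ℝ p a (hvm.toLp v) = ∫ y, κ y • Tr ℝ p (y / m) (hvm.toLp v) := by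
      have h5 := Measure.integral_comp_mul_left (fun y : ℝ => κ y • Tr ℝ p (y / m) (hvm.toLp v)) m
      rw [abs_of_pos (by positivity : 0 < m⁻¹)] at h5
      have h6 : ∫ a, (Kn a).re • Tr ℝ p a (hvm.toLp v) =
          ∫ a, m • (κ (m * a) • Tr ℝ p (m * a / m) (hvm.toLp v)) := by
        refine integral_congr_ae (Eventually.of_forall fun a => ?_)
        simp only
        rw [hKna, hκ, mul_div_cancel_left₀ _ hn.ne', smul_smul, Complex.re_ofReal_mul]
      rw [h6, integral_smul, h5, smul_smul, mul_inv_cancel₀ hn.ne', one_smul]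
    rw [← h4, h3, cyc1 hp u hu hum U hU hUs hF ℓ C hℓ ψ (by rw [hFψ]; exact hwc), hFψ, hw]
    simp only [zero_div, hχ0, one_mul]
    rw [fourier_zero]
    congr 1
    have h7 : ∫ a, vC a = ((∫ a, v a : ℝ) : ℂ) := by
      exact integral_complex_ofReal
    rw [h7, Complex.ofReal_re]
  -- the limit
  have hlim : Tendsto (fun n : ℕ => ∫ y, κ y • Tr ℝ p (y / ((n : ℝ) + 1)) (hvm.toLp v)) atTop
      (𝓝 (∫ y, κ y • (hvm.toLp v))) := by
    refine tendsto_integral_of_dominated_convergence (fun y => ‖κ y‖ * ‖hvm.toLp v‖) ?_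
      (hκi.norm.mul_const _) ?_ ?_
    · intro n
      refine hκi.aestronglyMeasurable.smul ?_
      have h1 : Continuous fun y : ℝ => Tr ℝ p (y / ((n : ℝ) + 1)) (hvm.toLp v) :=
        (Tr_cont (𝕜 := ℝ) hp (hvm.toLp v)).comp (continuous_id.div_const _)
      exact h1.aestronglyMeasurable
    · intro n
      refine Eventually.of_forall fun y => ?_
      rw [norm_smul, LinearIsometry.norm_map]
    · refine Eventually.of_forall fun y => ?_
      refine Tendsto.const_smul ?_ _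
      have h1 : Tendsto (fun n : ℕ => y / ((n : ℝ) + 1)) atTop (𝓝 0) :=
        tendsto_const_nhds.div_atTop (tendsto_atTop_add_const_right _ _ tendsto_natCast_atTop_atTop)
      have h2 := (Tr_cont (𝕜 := ℝ) hp (hvm.toLp v)).tendsto 0
      rw [Tr_zero] at h2
      exact h2.comp h1
  rw [integral_smul_const, hκ1, one_smul] at hlim
  have h8 := (ℓ.continuous.tendsto _).comp hlim
  refine tendsto_nhds_unique h8 ?_
  refine tendsto_const_nhds.congr fun n => ?_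
  exact (key n).symm

end H316F
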