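import Pool.Agent.H316R4.Cyc2

open scoped BigOperators Topology ENNReal FourierTransform SchwartzMap Convolution ContDiff
open Filter Set MeasureTheory

namespace H316F

variable {p : ℝ≥0∞} [hp1 : Fact (1 ≤ p)]


theorem q_gt (h1 : 1 < p) (hp : p ≠ ⊤) : 1 < p.toReal := by
  have := (ENNReal.toReal_lt_toReal (by simp) hp).2 h1
  simpa using this

theorem cyc (h1p : 1 < p) (hp : p ≠ ⊤) (u : ℝ → ℝ) (hu : Integrable u) (hum : MemLp u p volume)
    (U : ℝ → ℝ) (hU : ∀ ξ, 0 < U ξ) (hUs : ContDiff ℝ ∞ U)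
    (hF : ∀ ξ, 𝓕 (fun x => (u x : ℂ)) ξ = U ξ)
    (ℓ : ((Lp ℝ p (volume : Measure ℝ))) →L[ℝ] ℝ) (C : ℝ) (hℓ : ∀ a, ℓ (Tr ℝ p a (hum.toLp u)) = C) : ℓ = 0 := by
  have hq := q_gt h1p hp
  have hqr : (0 : ℝ) < p.toReal := by linarith
  -- bump
  let b : ContDiffBump (1 / 2 : ℝ) := ⟨1 / 8, 1 / 4, by norm_num, by norm_num⟩
  set v : ℝ → ℝ := fun x => b x with hv
  have hvs : ContDiff ℝ ∞ v := b.contDiff
  have hvc : HasCompactSupport v := b.hasCompactSupport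
  have hvm : MemLp v p volume := hvs.continuous.memLp_of_hasCompactSupport hvc
  set I : ℝ := ∫ x, v x with hI
  have hIpos : 0 < I := b.integral_pos
  set C' : ℝ := C / U 0 with hC'
  have h1 : ∀ l : ℕ, ℓ (Tr ℝ p l (hvm.toLp v)) = C' * I := by
    intro l
    have := cyc2 hp u hu hum U hU hUs hF (ℓ ∘L (Tr ℝ p (l : ℝ)).toContinuousLinearMap) C
      (fun a => by
        have e : ((ℓ ∘L (Tr ℝ p (l : ℝ)).toContinuousLinearMap) (Tr ℝ p a (hum.toLp u)))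
          = ℓ (Tr ℝ p l (Tr ℝ p a (hum.toLp u))) := rfl
        rw [e, ← Tr_add, hℓ]) v hvc hvs hvm
    exact this
  have hsupp : ∀ l : ℕ, SuppOn (cell 0 l) (Tr ℝ p l (hvm.toLp v)) := by
    intro l
    have h2 := (measurePreserving_sub_right (volume : Measure ℝ) (l : ℝ)).quasiMeasurePreserving.ae
      hvm.coeFn_toLp
    filter_upwards [Tr_coe (𝕜 := ℝ) (l : ℝ) (hvm.toLp v), h2] with t h3 h4 h5
    rw [h3, h4, hv]
    simp only
    apply b.zero_of_le_dist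
    by_contra hlt
    push Not at hlt
    rw [Real.dist_eq, abs_lt] at hlt
    apply h5
    have e : b.rOut = 1 / 4 := rfl
    rw [e] at hlt
    rw [cell, mem_Ico]
    push_cast
    constructor <;> linarith [hlt.1, hlt.2]
  have h2 : ∀ n : ℕ, ‖∑ l ∈ Finset.range n, Tr ℝ p (l : ℝ) (hvm.toLp v)‖ ^ p.toReal
      = n * ‖hvm.toLp v‖ ^ p.toReal := by
    intro n
    rw [disj_sum hp (Finset.range n) (fun l => cell 0 (l : ℤ))
      (fun i _ j _ h => cell_disj (by exact_mod_cast h)) _ (fun l _ => hsupp l)]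
    simp
  have h3 : ∀ n : ℕ, (n : ℝ) ^ p.toReal * |C' * I| ^ p.toReal ≤ ‖ℓ‖ ^ p.toReal * (n * ‖hvm.toLp v‖ ^ p.toReal) := by
    intro n
    have e1 : ℓ (∑ l ∈ Finset.range n, Tr ℝ p (l : ℝ) (hvm.toLp v)) = n * (C' * I) := by
      rw [map_sum]
      simp [h1]
    have e2 : |(n : ℝ) * (C' * I)| ≤ ‖ℓ‖ * ‖∑ l ∈ Finset.range n, Tr ℝ p (l : ℝ) (hvm.toLp v)‖ := by
      rw [← e1, ← Real.norm_eq_abs]
      exact ℓ.le_opNorm _
    have e3 := Real.rpow_le_rpow (abs_nonneg _) e2 hqr.le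
    rw [Real.mul_rpow (norm_nonneg _) (norm_nonneg _), h2 n, abs_mul, Nat.abs_cast,
      Real.mul_rpow (by positivity) (abs_nonneg _)] at e3
    exact e3
  have hC0 : C' * I = 0 := by
    by_contra hne
    have hpos : 0 < |C' * I| ^ p.toReal := Real.rpow_pos_of_pos (abs_pos.2 hne) _
    set B : ℝ := ‖ℓ‖ ^ p.toReal * ‖hvm.toLp v‖ ^ p.toReal / |C' * I| ^ p.toReal with hB
    have h4 : ∀ n : ℕ, 0 < n → (n : ℝ) ^ (p.toReal - 1) ≤ B := by
      intro n hn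
      have hn' : (0 : ℝ) < n := by exact_mod_cast hn
      have h5 := h3 n
      rw [Real.rpow_sub_one hn'.ne', hB, div_le_div_iff₀ hn' hpos]
      calc _ ≤ ‖ℓ‖ ^ p.toReal * (n * ‖hvm.toLp v‖ ^ p.toReal) := h5
        _ = _ := by ring
    have h5 : Tendsto (fun n : ℕ => (n : ℝ) ^ (p.toReal - 1)) atTop atTop :=
      (tendsto_rpow_atTop (by linarith)).comp tendsto_natCast_atTop_atTop
    obtain ⟨n, hn1, hn2⟩ := ((h5.eventually_gt_atTop B).and (eventually_gt_atTop 0)).exists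
    exact absurd (h4 n hn2) (not_le.2 hn1)
  have hC'0 : C' = 0 := by
    rcases mul_eq_zero.1 hC0 with h | h
    · exact h
    · exact absurd h hIpos.ne'
  have h6 : ∀ x ∈ {f : (Lp ℝ p (volume : Measure ℝ)) | ∃ (g : ℝ → ℝ), f =ᵐ[volume] g ∧ HasCompactSupport g ∧ ContDiff ℝ ∞ g},
      ℓ x = (0 : ((Lp ℝ p (volume : Measure ℝ))) →L[ℝ] ℝ) x := by
    rintro x ⟨g, hxg, hgc, hgs⟩
    have hgm : MemLp g p volume := hgs.continuous.memLp_of_hasCompactSupport hgc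
    have e : x = hgm.toLp g := by
      apply Lp.ext
      filter_upwards [hxg, hgm.coeFn_toLp] with t h7 h8
      rw [h7, h8]
    rw [e, cyc2 hp u hu hum U hU hUs hF ℓ C hℓ g hgc hgs hgm, ← hC', hC'0]
    simp
  have h7 := Continuous.ext_on (Lp.dense_hasCompactSupport_contDiff (μ := (volume : Measure ℝ)) (F := ℝ) hp)
    ℓ.continuous (0 : ((Lp ℝ p (volume : Measure ℝ))) →L[ℝ] ℝ).continuous h6
  ext x
  exact congrFun h7 x

end H316F
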