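import Mathlib

open scoped BigOperators Topology ENNReal
open Filter Set MeasureTheory

namespace H316F

variable {p : ℝ≥0∞} [hp1 : Fact (1 ≤ p)]


theorem q_ge (hp : p ≠ ⊤) : 1 ≤ p.toReal := by
  have := ENNReal.toReal_mono hp hp1.out
  simpa using this

theorem norm_rpow (hp : p ≠ ⊤) (x : (Lp ℝ p (volume : Measure ℝ))) : ‖x‖ ^ p.toReal = ∫ t, |x t| ^ p.toReal := by
  have hq := q_ge (p := p) hp
  have h0 : p ≠ 0 := fun h => by have := hp1.out; rw [h] at this; simp at this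
  have hnn : 0 ≤ ∫ t, ‖x t‖ ^ p.toReal := integral_nonneg fun t => by positivity
  rw [Lp.norm_def, (Lp.memLp x).eLpNorm_eq_integral_rpow_norm h0 hp,
    ENNReal.toReal_ofReal (by positivity), ← Real.rpow_mul hnn, inv_mul_cancel₀ (by linarith),
    Real.rpow_one]
  simp [Real.norm_eq_abs]

theorem integrable_rpow (hp : p ≠ ⊤) (x : (Lp ℝ p (volume : Measure ℝ))) : Integrable (fun t => |x t| ^ p.toReal) := by
  have h0 : p ≠ 0 := fun h => by have := hp1.out; rw [h] at this; simp at this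
  have := (Lp.memLp x).integrable_norm_rpow h0 hp
  simpa [Real.norm_eq_abs] using this

theorem integrableOn_of_fin (x : (Lp ℝ p (volume : Measure ℝ))) {s : Set ℝ} (hs : volume s ≠ ⊤) :
    IntegrableOn (fun t => x t) s := by
  have : IsFiniteMeasure (volume.restrict s) := ⟨by simpa using lt_top_iff_ne_top.2 hs⟩
  exact ((Lp.memLp x).restrict s).integrable hp1.out

/-- integral over a set of finite measure, as a continuous functional -/
noncomputable def sInt (p : ℝ≥0∞) [hp1 : Fact (1 ≤ p)] (s : Set ℝ) (hs : MeasurableSet s)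
    (hμ : volume s ≠ ⊤) : ((Lp ℝ p (volume : Measure ℝ))) →L[ℝ] ℝ :=
  haveI : Fact (1 ≤ (1 - p⁻¹)⁻¹) := by constructor; simp
  haveI : ENNReal.HolderConjugate p (1 - p⁻¹)⁻¹ := ENNReal.HolderConjugate.inv_one_sub_inv' hp1.out
  (((ContinuousLinearMap.mul ℝ ℝ).lpPairing volume p (1 - p⁻¹)⁻¹).flip
    (indicatorConstLp (1 - p⁻¹)⁻¹ hs hμ (1 : ℝ)))

theorem sInt_apply (s : Set ℝ) (hs : MeasurableSet s) (hμ : volume s ≠ ⊤) (x : (Lp ℝ p (volume : Measure ℝ))) :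
    sInt p s hs hμ x = ∫ t in s, x t := by
  haveI : Fact (1 ≤ (1 - p⁻¹)⁻¹) := by constructor; simp
  haveI : ENNReal.HolderConjugate p (1 - p⁻¹)⁻¹ := ENNReal.HolderConjugate.inv_one_sub_inv' hp1.out
  rw [sInt, ContinuousLinearMap.flip_apply, ContinuousLinearMap.lpPairing_eq_integral,
    ← integral_indicator hs]
  refine integral_congr_ae ?_
  filter_upwards [indicatorConstLp_coeFn (p := (1 - p⁻¹)⁻¹) (hs := hs) (hμs := hμ) (c := (1 : ℝ))]
    with t ht
  rw [ht]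
  by_cases h : t ∈ s
  · simp [h]
  · simp [h]

/-- dyadic cells -/
def cell (n : ℕ) (j : ℤ) : Set ℝ := Ico ((j : ℝ) / 2 ^ n) (((j : ℝ) + 1) / 2 ^ n)

theorem cell_meas (n : ℕ) (j : ℤ) : MeasurableSet (cell n j) := measurableSet_Ico

theorem cell_vol (n : ℕ) (j : ℤ) : volume (cell n j) = ENNReal.ofReal ((2 ^ n)⁻¹) := by
  rw [cell, Real.volume_Ico]
  congr 1
  field_simp
  ring

theorem cell_fin (n : ℕ) (j : ℤ) : volume (cell n j) ≠ ⊤ := by
  rw [cell_vol]; exact ENNReal.ofReal_ne_top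

theorem cell_real (n : ℕ) (j : ℤ) : volume.real (cell n j) = (2 ^ n)⁻¹ := by
  rw [Measure.real, cell_vol, ENNReal.toReal_ofReal (by positivity)]

theorem mem_cell {n : ℕ} {j : ℤ} {t : ℝ} : t ∈ cell n j ↔ ⌊t * 2 ^ n⌋ = j := by
  have h2 : (0 : ℝ) < 2 ^ n := by positivity
  rw [Int.floor_eq_iff, cell, mem_Ico, div_le_iff₀ h2, lt_div_iff₀ h2]

theorem cell_disj {n : ℕ} {i j : ℤ} (h : i ≠ j) : Disjoint (cell n i) (cell n j) := by
  rw [Set.disjoint_left]
  intro t h1 h2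
  rw [mem_cell] at h1 h2
  exact h (h1.symm.trans h2)

theorem cell_split (n : ℕ) (j : ℤ) : cell n j = cell (n + 1) (2 * j) ∪ cell (n + 1) (2 * j + 1) := by
  have h2 : (0 : ℝ) < 2 ^ n := by positivity
  have e1 : ((2 * j : ℤ) : ℝ) / 2 ^ (n + 1) = (j : ℝ) / 2 ^ n := by
    push_cast; field_simp; ring
  have e2 : (((2 * j : ℤ) : ℝ) + 1) / 2 ^ (n + 1) = ((2 * j + 1 : ℤ) : ℝ) / 2 ^ (n + 1) := by
    push_cast; ring
  have e3 : (((2 * j + 1 : ℤ) : ℝ) + 1) / 2 ^ (n + 1) = ((j : ℝ) + 1) / 2 ^ n := by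
    push_cast; field_simp; ring
  rw [cell, cell, cell, e1, e2, e3]
  rw [Ico_union_Ico_eq_Ico]
  · rw [← e1, ← e2]; gcongr; linarith
  · rw [← e3]; gcongr; linarith

/-- indicator of a cell in `Lp` -/
noncomputable def ind (p : ℝ≥0∞) (n : ℕ) (j : ℤ) : (Lp ℝ p (volume : Measure ℝ)) :=
  indicatorConstLp p (cell_meas n j) (cell_fin n j) (1 : ℝ)

omit hp1 in
theorem ind_coe (n : ℕ) (j : ℤ) : ind p n j =ᵐ[volume] (cell n j).indicator fun _ => (1 : ℝ) :=
  indicatorConstLp_coeFn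

noncomputable def cInt (p : ℝ≥0∞) [hp1 : Fact (1 ≤ p)] (n : ℕ) (j : ℤ) : ((Lp ℝ p (volume : Measure ℝ))) →L[ℝ] ℝ :=
  sInt p (cell n j) (cell_meas n j) (cell_fin n j)

theorem cInt_apply (n : ℕ) (j : ℤ) (x : (Lp ℝ p (volume : Measure ℝ))) : cInt p n j x = ∫ t in cell n j, x t :=
  sInt_apply _ _ _ _

theorem cInt_ind (n : ℕ) (i j : ℤ) : cInt p n i (ind p n j) = if i = j then (2 ^ n)⁻¹ else 0 := by
  rw [cInt_apply]
  have : ∫ t in cell n i, ind p n j t = ∫ t in cell n i, (cell n j).indicator (fun _ => (1 : ℝ)) t :=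
    setIntegral_congr_ae (cell_meas n i) ((ind_coe n j).mono fun t ht _ => ht)
  rw [this, setIntegral_indicator (cell_meas n j)]
  by_cases h : i = j
  · subst h
    simp [cell_real]
  · rw [(cell_disj h).inter_eq]
    simp [h]

theorem ind_split (n : ℕ) (j : ℤ) : ind p n j = ind p (n + 1) (2 * j) + ind p (n + 1) (2 * j + 1) := by
  apply Lp.ext
  filter_upwards [ind_coe (p := p) n j, ind_coe (p := p) (n + 1) (2 * j),
    ind_coe (p := p) (n + 1) (2 * j + 1), Lp.coeFn_add (ind p (n + 1) (2 * j)) (ind p (n + 1) (2 * j + 1))]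
    with t h1 h2 h3 h4
  rw [h1, h4, Pi.add_apply, h2, h3, cell_split n j]
  have hd : Disjoint (cell (n + 1) (2 * j)) (cell (n + 1) (2 * j + 1)) := cell_disj (by omega)
  rw [Set.indicator_union_of_disjoint hd]

theorem cInt_split (n : ℕ) (j : ℤ) (x : (Lp ℝ p (volume : Measure ℝ))) :
    cInt p n j x = cInt p (n + 1) (2 * j) x + cInt p (n + 1) (2 * j + 1) x := by
  rw [cInt_apply, cInt_apply, cInt_apply, cell_split n j,
    setIntegral_union (cell_disj (by omega)) (cell_meas _ _)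
      (integrableOn_of_fin x (cell_fin _ _)) (integrableOn_of_fin x (cell_fin _ _))]

/-- averaging over a finite set of cells -/
noncomputable def Ex (p : ℝ≥0∞) [hp1 : Fact (1 ≤ p)] (n : ℕ) (s : Finset ℤ) : ((Lp ℝ p (volume : Measure ℝ))) →L[ℝ] ((Lp ℝ p (volume : Measure ℝ))) :=
  ∑ j ∈ s, ((2 : ℝ) ^ n • cInt p n j).smulRight (ind p n j)

theorem Ex_apply (n : ℕ) (s : Finset ℤ) (x : (Lp ℝ p (volume : Measure ℝ))) :
    Ex p n s x = ∑ j ∈ s, ((2 : ℝ) ^ n * cInt p n j x) • ind p n j := by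
  simp [Ex, smul_eq_mul]

theorem cInt_Ex (n : ℕ) (s : Finset ℤ) (x : (Lp ℝ p (volume : Measure ℝ))) (i : ℤ) :
    cInt p n i (Ex p n s x) = if i ∈ s then cInt p n i x else 0 := by
  rw [Ex_apply, map_sum]
  simp only [map_smul, cInt_ind, smul_eq_mul]
  by_cases h : i ∈ s
  · rw [if_pos h, Finset.sum_eq_single i]
    · simp
      field_simp
    · intro b _ hb
      simp [Ne.symm hb]
    · intro h'; exact absurd h h'
  · rw [if_neg h]
    refine Finset.sum_eq_zero fun b hb => ?_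
    have : i ≠ b := fun e => h (e ▸ hb)
    simp [this]

theorem Ex_Ex (n : ℕ) (s s' : Finset ℤ) (x : (Lp ℝ p (volume : Measure ℝ))) : Ex p n s (Ex p n s' x) = Ex p n (s ∩ s') x := by
  rw [Ex_apply (s := s), Ex_apply (s := s ∩ s')]
  simp only [cInt_Ex]
  rw [← Finset.filter_mem_eq_inter, Finset.sum_filter]
  refine Finset.sum_congr rfl fun j _ => ?_
  by_cases h : j ∈ s' <;> simp [h]

theorem Ex_ind (n : ℕ) (s : Finset ℤ) (j : ℤ) (hj : j ∈ s) : Ex p n s (ind p n j) = ind p n j := by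
  rw [Ex_apply]
  simp only [cInt_ind]
  rw [Finset.sum_eq_single j]
  · simp
  · intro b _ hb
    simp [hb]
  · intro h; exact absurd hj h

/-- index ranges -/
noncomputable def inner (μ n : ℕ) : Finset ℤ := Finset.Ico (-(2 : ℤ) ^ (μ + n)) (2 ^ (μ + n))

def Bx (μ : ℕ) : Set ℝ := Ico (-(2 : ℝ) ^ μ) (2 ^ μ)

theorem Bx_meas (μ : ℕ) : MeasurableSet (Bx μ) := measurableSet_Ico

theorem cell_sub {μ n : ℕ} {j : ℤ} (h : j ∈ inner μ n) : cell n j ⊆ Bx μ := by
  intro t ht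
  have h2 : (0 : ℝ) < 2 ^ n := by positivity
  rw [inner, Finset.mem_Ico] at h
  rw [cell, mem_Ico, div_le_iff₀ h2, lt_div_iff₀ h2] at ht
  have h3 : (-(2 : ℝ) ^ (μ + n)) ≤ j := by exact_mod_cast h.1
  have h4 : ((j : ℝ) + 1) ≤ 2 ^ (μ + n) := by exact_mod_cast h.2
  rw [pow_add] at h3 h4
  constructor
  · nlinarith
  · nlinarith

theorem cell_out {μ n : ℕ} {j : ℤ} (h : j ∉ inner μ n) : Disjoint (cell n j) (Bx μ) := by
  rw [Set.disjoint_left]
  intro t ht ht2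
  apply h
  have h2 : (0 : ℝ) < 2 ^ n := by positivity
  rw [cell, mem_Ico, div_le_iff₀ h2, lt_div_iff₀ h2] at ht
  rw [Bx, mem_Ico] at ht2
  rw [inner, Finset.mem_Ico]
  have h3 : (-(2 : ℝ) ^ (μ + n)) < (j : ℝ) + 1 := by
    rw [pow_add]
    calc -((2 : ℝ) ^ μ * 2 ^ n) = (-(2 : ℝ) ^ μ) * 2 ^ n := by ring
      _ ≤ t * 2 ^ n := by gcongr; exact ht2.1
      _ < _ := ht.2
  have h4 : (j : ℝ) < 2 ^ (μ + n) := by
    rw [pow_add]
    calc (j : ℝ) ≤ t * 2 ^ n := ht.1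
      _ < _ := by gcongr; exact ht2.2
  constructor
  · have : (-(2 : ℤ) ^ (μ + n)) < j + 1 := by exact_mod_cast h3
    omega
  · exact_mod_cast h4

/-- the full averaging operator of level `n` -/
noncomputable def Sx (p : ℝ≥0∞) [hp1 : Fact (1 ≤ p)] (n : ℕ) : ((Lp ℝ p (volume : Measure ℝ))) →L[ℝ] ((Lp ℝ p (volume : Measure ℝ))) := Ex p n (inner n n)

theorem inner_child {m : ℕ} {j : ℤ} (h : j ∈ inner m m) :
    2 * j ∈ inner (m + 1) (m + 1) ∧ 2 * j + 1 ∈ inner (m + 1) (m + 1) := by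
  rw [inner, Finset.mem_Ico] at h
  have e : (2 : ℤ) ^ (m + 1 + (m + 1)) = 4 * 2 ^ (m + m) := by
    rw [show m + 1 + (m + 1) = (m + m) + 2 by ring, pow_add]; ring
  have h0 : (0 : ℤ) < 2 ^ (m + m) := by positivity
  simp only [inner, Finset.mem_Ico, e]
  constructor <;> constructor <;> nlinarith [h.1, h.2]

theorem Sx_ind (k m : ℕ) (j : ℤ) (h : j ∈ inner m m) : Sx p (m + k) (ind p m j) = ind p m j := by
  induction k generalizing m j with
  | zero => exact Ex_ind _ _ _ h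
  | succ k ih =>
    have h1 := inner_child h
    rw [ind_split, map_add, show m + (k + 1) = (m + 1) + k by ring, ih (m + 1) _ h1.1,
      ih (m + 1) _ h1.2]

theorem cInt_Sx (k m : ℕ) (j : ℤ) (h : j ∈ inner m m) (x : (Lp ℝ p (volume : Measure ℝ))) :
    cInt p m j (Sx p (m + k) x) = cInt p m j x := by
  induction k generalizing m j with
  | zero => rw [Sx, add_zero, cInt_Ex, if_pos h]
  | succ k ih =>
    have h1 := inner_child h
    rw [cInt_split, show m + (k + 1) = (m + 1) + k by ring, ih (m + 1) _ h1.1,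
      ih (m + 1) _ h1.2, ← cInt_split]

theorem Ex_Sx {m n : ℕ} (hmn : m ≤ n) (s : Finset ℤ) (hs : s ⊆ inner m m) (x : (Lp ℝ p (volume : Measure ℝ))) :
    Ex p m s (Sx p n x) = Ex p m s x := by
  obtain ⟨k, rfl⟩ := Nat.exists_eq_add_of_le hmn
  rw [Ex_apply, Ex_apply]
  refine Finset.sum_congr rfl fun j hj => ?_
  rw [cInt_Sx k m j (hs hj)]

theorem Sx_Ex {m n : ℕ} (hmn : m ≤ n) (s : Finset ℤ) (hs : s ⊆ inner m m) (x : (Lp ℝ p (volume : Measure ℝ))) :
    Sx p n (Ex p m s x) = Ex p m s x := by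
  obtain ⟨k, rfl⟩ := Nat.exists_eq_add_of_le hmn
  rw [Ex_apply, map_sum]
  refine Finset.sum_congr rfl fun j hj => ?_
  rw [map_smul, Sx_ind k m j (hs hj)]

theorem Sx_Sx {m n : ℕ} (hmn : m ≤ n) (x : (Lp ℝ p (volume : Measure ℝ))) : Sx p m (Sx p n x) = Sx p m x :=
  Ex_Sx hmn _ (Finset.Subset.refl _) x

theorem Sx_Sx' {m n : ℕ} (hmn : m ≤ n) (x : (Lp ℝ p (volume : Measure ℝ))) : Sx p n (Sx p m x) = Sx p m x :=
  Sx_Ex hmn _ (Finset.Subset.refl _) x

end H316F
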