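import Pool.Agent.H316R4.Dyad

open scoped BigOperators Topology ENNReal
open Filter Set MeasureTheory

namespace H316F

variable {p : ℝ≥0∞} [hp1 : Fact (1 ≤ p)]


def SuppOn (A : Set ℝ) (u : ℝ → ℝ) : Prop := ∀ᵐ t, t ∉ A → u t = 0

theorem disj_sum (hp : p ≠ ⊤) {ι : Type*} (s : Finset ι) (A : ι → Set ℝ)
    (hA : ∀ i ∈ s, ∀ j ∈ s, i ≠ j → Disjoint (A i) (A j)) (u : ι → (Lp ℝ p (volume : Measure ℝ)))
    (hu : ∀ i ∈ s, SuppOn (A i) (u i)) :
    ‖∑ i ∈ s, u i‖ ^ p.toReal = ∑ i ∈ s, ‖u i‖ ^ p.toReal := by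
  classical
  have hq := q_ge (p := p) hp
  have hz0 : |(0 : ℝ)| ^ p.toReal = 0 := by rw [abs_zero]; exact Real.zero_rpow (by linarith)
  rw [norm_rpow hp]
  have h1 : ∀ i ∈ s, ‖u i‖ ^ p.toReal = ∫ t, |u i t| ^ p.toReal := fun i _ => norm_rpow hp _
  rw [Finset.sum_congr rfl h1, ← integral_finset_sum _ (fun i _ => integrable_rpow hp (u i))]
  refine integral_congr_ae ?_
  have h2 : ∀ᵐ t, ∀ i ∈ s, t ∉ A i → u i t = 0 :=
    (ae_ball_iff s.countable_toSet).2 hu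
  have h3 : (∑ i ∈ s, u i : (Lp ℝ p (volume : Measure ℝ))) =ᵐ[volume] fun t => ∑ i ∈ s, u i t := by
    have := Lp.coeFn_finsetSum s u
    filter_upwards [this] with t ht
    rw [ht]; simp
  filter_upwards [h2, h3] with t ht h3
  rw [h3]
  by_cases hex : ∃ i ∈ s, t ∈ A i
  · obtain ⟨i, hi, hti⟩ := hex
    have hz : ∀ j ∈ s, j ≠ i → u j t = 0 := by
      intro j hj hji
      apply ht j hj
      intro htj
      exact Set.disjoint_left.1 (hA j hj i hi hji) htj hti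
    rw [Finset.sum_eq_single i (fun j hj hji => hz j hj hji) (fun h => absurd hi h),
      Finset.sum_eq_single i (fun j hj hji => by rw [hz j hj hji]; exact hz0) (fun h => absurd hi h)]
  · have hz : ∀ j ∈ s, u j t = 0 := fun j hj => ht j hj fun h => hex ⟨j, hj, h⟩
    rw [Finset.sum_eq_zero hz, Finset.sum_eq_zero fun j hj => by rw [hz j hj]; exact hz0]
    exact hz0

theorem sum_setInt_le (hp : p ≠ ⊤) {ι : Type*} (s : Finset ι) (A : ι → Set ℝ)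
    (hA : ∀ i ∈ s, ∀ j ∈ s, i ≠ j → Disjoint (A i) (A j)) (hm : ∀ i ∈ s, MeasurableSet (A i))
    (x : (Lp ℝ p (volume : Measure ℝ))) : ∑ i ∈ s, ∫ t in A i, |x t| ^ p.toReal ≤ ‖x‖ ^ p.toReal := by
  rw [norm_rpow hp, ← integral_biUnion_finset s hm (fun i hi j hj hij => hA i hi j hj hij)
    (fun i _ => (integrable_rpow hp x).integrableOn)]
  exact setIntegral_le_integral (integrable_rpow hp x) (Eventually.of_forall fun t => by positivity)

theorem jensen (hp : p ≠ ⊤) (n : ℕ) (j : ℤ) (x : (Lp ℝ p (volume : Measure ℝ))) :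
    |(2 : ℝ) ^ n * cInt p n j x| ^ p.toReal * (2 ^ n)⁻¹ ≤ ∫ t in cell n j, |x t| ^ p.toReal := by
  have hq := q_ge (p := p) hp
  have h2 : (0 : ℝ) < 2 ^ n := by positivity
  have hint := integrableOn_of_fin x (cell_fin n j)
  have h1 := (convexOn_rpow hq).map_set_average_le (f := fun t => |x t|) (μ := volume) (t := cell n j)
    (Real.continuous_rpow_const (by linarith)).continuousOn isClosed_Ici
    (by rw [cell_vol]; simp) (cell_fin n j) (Eventually.of_forall fun t => (abs_nonneg _ : (0 : ℝ) ≤ |x t|))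
    hint.abs (integrable_rpow hp x).integrableOn
  rw [setAverage_eq, setAverage_eq, cell_real, inv_inv, smul_eq_mul, smul_eq_mul] at h1
  have h3 : |(2 : ℝ) ^ n * cInt p n j x| ≤ 2 ^ n * ∫ t in cell n j, |x t| := by
    rw [abs_mul, abs_of_pos h2, cInt_apply]
    gcongr
    exact abs_integral_le_integral_abs
  have h4 : |(2 : ℝ) ^ n * cInt p n j x| ^ p.toReal ≤ 2 ^ n * ∫ t in cell n j, |x t| ^ p.toReal :=
    le_trans (Real.rpow_le_rpow (abs_nonneg _) h3 (by linarith)) h1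
  calc _ ≤ (2 ^ n * ∫ t in cell n j, |x t| ^ p.toReal) * (2 ^ n)⁻¹ := by gcongr
    _ = _ := by field_simp

theorem ind_supp (n : ℕ) (j : ℤ) : SuppOn (cell n j) (ind p n j) := by
  filter_upwards [ind_coe (p := p) n j] with t ht h
  rw [ht]; simp [h]

theorem ind_norm (hp : p ≠ ⊤) (n : ℕ) (j : ℤ) : ‖ind p n j‖ ^ p.toReal = (2 ^ n)⁻¹ := by
  have hq := q_ge (p := p) hp
  rw [norm_rpow hp]
  have : ∀ᵐ t, |ind p n j t| ^ p.toReal = (cell n j).indicator (fun _ => (1 : ℝ)) t := by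
    filter_upwards [ind_coe (p := p) n j] with t ht
    rw [ht]
    by_cases h : t ∈ cell n j
    · simp [h]
    · simp [h]; exact Real.zero_rpow (by linarith)
  rw [integral_congr_ae this, integral_indicator (cell_meas n j)]
  simp [cell_real]

theorem SuppOn.smul {A : Set ℝ} {u : (Lp ℝ p (volume : Measure ℝ))} (h : SuppOn A u) (c : ℝ) : SuppOn A (c • u : (Lp ℝ p (volume : Measure ℝ))) := by
  filter_upwards [h, Lp.coeFn_smul c u] with t h1 h2 h3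
  rw [h2]; simp [h1 h3]

theorem SuppOn.mono {A B : Set ℝ} {u : ℝ → ℝ} (h : SuppOn A u) (hAB : A ⊆ B) : SuppOn B u := by
  filter_upwards [h] with t h1 h2
  exact h1 fun h3 => h2 (hAB h3)

theorem SuppOn.sum {ι : Type*} {s : Finset ι} {A : Set ℝ} {u : ι → (Lp ℝ p (volume : Measure ℝ))}
    (h : ∀ i ∈ s, SuppOn A (u i)) : SuppOn A (∑ i ∈ s, u i : (Lp ℝ p (volume : Measure ℝ))) := by
  have h2 : ∀ᵐ t, ∀ i ∈ s, t ∉ A → u i t = 0 := (ae_ball_iff s.countable_toSet).2 h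
  filter_upwards [h2, Lp.coeFn_finsetSum s u] with t h1 h3 h4
  rw [h3]
  simp only [Finset.sum_apply]
  exact Finset.sum_eq_zero fun i hi => h1 i hi h4

theorem Ex_supp (n : ℕ) (s : Finset ℤ) (A : Set ℝ) (hs : ∀ j ∈ s, cell n j ⊆ A) (x : (Lp ℝ p (volume : Measure ℝ))) :
    SuppOn A (Ex p n s x) := by
  rw [Ex_apply]
  exact SuppOn.sum fun j hj => ((ind_supp n j).smul _).mono (hs j hj)

theorem Ex_norm (hp : p ≠ ⊤) (n : ℕ) (s : Finset ℤ) (A : Set ℝ) (hA : MeasurableSet A)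
    (hs : ∀ j ∈ s, cell n j ⊆ A) (x : (Lp ℝ p (volume : Measure ℝ))) :
    ‖Ex p n s x‖ ^ p.toReal ≤ ∫ t in A, |x t| ^ p.toReal := by
  have hq := q_ge (p := p) hp
  rw [Ex_apply, disj_sum hp s (cell n) (fun i _ j _ h => cell_disj h) _
    (fun j _ => (ind_supp n j).smul _)]
  calc ∑ i ∈ s, ‖((2 : ℝ) ^ n * cInt p n i x) • ind p n i‖ ^ p.toReal
      = ∑ i ∈ s, |(2 : ℝ) ^ n * cInt p n i x| ^ p.toReal * (2 ^ n)⁻¹ := by
        refine Finset.sum_congr rfl fun i _ => ?_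
        rw [norm_smul, Real.mul_rpow (norm_nonneg _) (norm_nonneg _), ind_norm hp, Real.norm_eq_abs]
    _ ≤ ∑ i ∈ s, ∫ t in cell n i, |x t| ^ p.toReal := Finset.sum_le_sum fun i _ => jensen hp n i x
    _ = ∫ t in ⋃ i ∈ s, cell n i, |x t| ^ p.toReal := by
        rw [integral_biUnion_finset s (fun i _ => cell_meas n i)
          (fun i _ j _ hij => cell_disj hij) (fun i _ => (integrable_rpow hp x).integrableOn)]
    _ ≤ _ := by
        refine setIntegral_mono_set (integrable_rpow hp x).integrableOn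
          (Eventually.of_forall fun t => by positivity) ?_
        exact HasSubset.Subset.eventuallyLE (iUnion₂_subset hs)

theorem norm_le_of_rpow (hp : p ≠ ⊤) {a b : ℝ} (hb : 0 ≤ b) (h : a ^ p.toReal ≤ b ^ p.toReal) :
    a ≤ b := by
  have hq := q_ge (p := p) hp
  by_contra hab
  push Not at hab
  exact absurd (Real.rpow_lt_rpow hb hab (by linarith)) (not_lt.2 h)

theorem Ex_le (hp : p ≠ ⊤) (n : ℕ) (s : Finset ℤ) (x : (Lp ℝ p (volume : Measure ℝ))) : ‖Ex p n s x‖ ≤ ‖x‖ := by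
  apply norm_le_of_rpow hp (norm_nonneg _)
  have := Ex_norm hp n s univ MeasurableSet.univ (fun j _ => subset_univ _) x
  rwa [setIntegral_univ, ← norm_rpow hp] at this

theorem cInt_zero {n : ℕ} {j : ℤ} {A : Set ℝ} {x : (Lp ℝ p (volume : Measure ℝ))} (h : SuppOn A x)
    (hd : Disjoint (cell n j) A) : cInt p n j x = 0 := by
  rw [cInt_apply]
  have : ∫ t in cell n j, x t = ∫ t in cell n j, (0 : ℝ) := by
    refine setIntegral_congr_ae (cell_meas n j) ?_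
    filter_upwards [h] with t h1 h2
    exact h1 fun h3 => Set.disjoint_left.1 hd h2 h3
  rw [this]; simp

theorem Bx_mono {a b : ℕ} (h : a ≤ b) : Bx a ⊆ Bx b := by
  intro t ht
  rw [Bx, mem_Ico] at *
  have : (2 : ℝ) ^ a ≤ 2 ^ b := pow_le_pow_right₀ (by norm_num) h
  constructor <;> linarith [ht.1, ht.2]

/-- annulus indices -/
noncomputable def ann (μ μ' : ℕ) : Finset ℤ := inner μ' μ' \ inner μ μ'

def An (μ μ' : ℕ) : Set ℝ := Bx μ' \ Bx μ

theorem An_meas (μ μ' : ℕ) : MeasurableSet (An μ μ') := (Bx_meas _).diff (Bx_meas _)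

theorem ann_cell {μ μ' : ℕ} {j : ℤ} (h : j ∈ ann μ μ') : cell μ' j ⊆ An μ μ' := by
  rw [ann, Finset.mem_sdiff] at h
  intro t ht
  exact ⟨cell_sub h.1 ht, fun h2 => Set.disjoint_left.1 (cell_out h.2) ht h2⟩

noncomputable def Pj (p : ℝ≥0∞) [hp1 : Fact (1 ≤ p)] (μ μ' : ℕ) : ((Lp ℝ p (volume : Measure ℝ))) →L[ℝ] ((Lp ℝ p (volume : Measure ℝ))) :=
  Ex p μ' (ann μ μ')

theorem Pj_supp (μ μ' : ℕ) (x : (Lp ℝ p (volume : Measure ℝ))) : SuppOn (An μ μ') (Pj p μ μ' x) :=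
  Ex_supp _ _ _ (fun _ hj => ann_cell hj) x

theorem Pj_norm (hp : p ≠ ⊤) (μ μ' : ℕ) (x : (Lp ℝ p (volume : Measure ℝ))) :
    ‖Pj p μ μ' x‖ ^ p.toReal ≤ ∫ t in An μ μ', |x t| ^ p.toReal :=
  Ex_norm hp _ _ _ (An_meas _ _) (fun _ hj => ann_cell hj) x

theorem Pj_le (hp : p ≠ ⊤) (μ μ' : ℕ) (x : (Lp ℝ p (volume : Measure ℝ))) : ‖Pj p μ μ' x‖ ≤ ‖x‖ := Ex_le hp _ _ x

theorem Pj_idem (μ μ' : ℕ) (x : (Lp ℝ p (volume : Measure ℝ))) : Pj p μ μ' (Pj p μ μ' x) = Pj p μ μ' x := by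
  rw [Pj, Ex_Ex, Finset.inter_self]

theorem Sx_Pj_low {a μ μ' : ℕ} (h : a ≤ μ) (x : (Lp ℝ p (volume : Measure ℝ))) : Sx p a (Pj p μ μ' x) = 0 := by
  rw [Sx, Ex_apply]
  refine Finset.sum_eq_zero fun j hj => ?_
  rw [cInt_zero (Pj_supp μ μ' x), mul_zero, zero_smul]
  rw [Set.disjoint_left]
  intro t ht h2
  exact h2.2 (Bx_mono h (cell_sub hj ht))

theorem Pj_Sx_low {a μ μ' : ℕ} (h : a ≤ μ) (x : (Lp ℝ p (volume : Measure ℝ))) : Pj p μ μ' (Sx p a x) = 0 := by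
  rw [Pj, Ex_apply]
  refine Finset.sum_eq_zero fun j hj => ?_
  have hs : SuppOn (Bx a) (Sx p a x) := Ex_supp _ _ _ (fun j hj => cell_sub hj) x
  rw [cInt_zero hs, mul_zero, zero_smul]
  rw [Set.disjoint_left]
  intro t ht h2
  exact (ann_cell hj ht).2 (Bx_mono h h2)

theorem Sx_Pj_high {a μ μ' : ℕ} (h : μ' ≤ a) (x : (Lp ℝ p (volume : Measure ℝ))) : Sx p a (Pj p μ μ' x) = Pj p μ μ' x :=
  Sx_Ex h _ Finset.sdiff_subset x

theorem Pj_Sx_high {a μ μ' : ℕ} (h : μ' ≤ a) (x : (Lp ℝ p (volume : Measure ℝ))) : Pj p μ μ' (Sx p a x) = Pj p μ μ' x :=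
  Ex_Sx h _ Finset.sdiff_subset x

theorem Pj_Pj_disj {μ μ' ν ν' : ℕ} (h : μ' ≤ ν) (x : (Lp ℝ p (volume : Measure ℝ))) : Pj p μ μ' (Pj p ν ν' x) = 0 := by
  rw [Pj, Ex_apply]
  refine Finset.sum_eq_zero fun j hj => ?_
  rw [cInt_zero (Pj_supp ν ν' x), mul_zero, zero_smul]
  rw [Set.disjoint_left]
  intro t ht h2
  exact h2.2 (Bx_mono h (ann_cell hj ht).1)

theorem Pj_Pj_disj' {μ μ' ν ν' : ℕ} (h : μ' ≤ ν) (x : (Lp ℝ p (volume : Measure ℝ))) : Pj p ν ν' (Pj p μ μ' x) = 0 := by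
  rw [Pj, Ex_apply]
  refine Finset.sum_eq_zero fun j hj => ?_
  rw [cInt_zero (Pj_supp μ μ' x), mul_zero, zero_smul]
  rw [Set.disjoint_left]
  intro t ht h2
  exact (ann_cell hj ht).2 (Bx_mono h h2.1)

end H316F
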