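import Mathlib

open scoped BigOperators Topology ENNReal
open Filter Set MeasureTheory

namespace H316F

variable {p : ℝ≥0∞} [hp1 : Fact (1 ≤ p)]

/-- the translation `f ↦ f(· - a)` on `L_p(ℝ)` -/
noncomputable def Tr (𝕜 : Type*) [RCLike 𝕜] (p : ℝ≥0∞) [Fact (1 ≤ p)] (a : ℝ) :
    Lp 𝕜 p (volume : Measure ℝ) →ₗᵢ[𝕜] Lp 𝕜 p (volume : Measure ℝ) :=
  Lp.compMeasurePreservingₗᵢ 𝕜 (fun x : ℝ => x - a) (measurePreserving_sub_right volume a)

variable {𝕜 : Type*} [RCLike 𝕜]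

theorem Tr_coe (a : ℝ) (f : Lp 𝕜 p (volume : Measure ℝ)) :
    Tr 𝕜 p a f =ᵐ[volume] fun t => f (t - a) :=
  Lp.coeFn_compMeasurePreserving f (measurePreserving_sub_right volume a)

theorem Tr_toLp (a : ℝ) (g : ℝ → 𝕜) (hg : MemLp g p volume) (hg' : MemLp (fun t => g (t - a)) p volume) :
    Tr 𝕜 p a (hg.toLp g) = hg'.toLp (fun t => g (t - a)) := by
  show Lp.compMeasurePreserving (fun x : ℝ => x - a) (measurePreserving_sub_right volume a)
    (hg.toLp g) = _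
  rw [Lp.toLp_compMeasurePreserving]
  rfl

theorem Tr_cont (hp : p ≠ ⊤) (f : Lp 𝕜 p (volume : Measure ℝ)) : Continuous fun a : ℝ => Tr 𝕜 p a f := by
  have h1 : Continuous fun a : ℝ => (⟨fun x : ℝ => x - a, by fun_prop⟩ : C(ℝ, ℝ)) := by
    have h2 : Continuous fun q : ℝ × ℝ => q.2 - q.1 := by fun_prop
    exact (ContinuousMap.curry ⟨fun q : ℝ × ℝ => q.2 - q.1, h2⟩).continuous
  exact Continuous.compMeasurePreservingLp (f := fun _ : ℝ => f) continuous_const h1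
    (fun a => measurePreserving_sub_right volume a) hp

theorem Tr_add (a b : ℝ) (f : Lp 𝕜 p (volume : Measure ℝ)) :
    Tr 𝕜 p (a + b) f = Tr 𝕜 p a (Tr 𝕜 p b f) := by
  apply Lp.ext
  have h1 := (measurePreserving_sub_right (volume : Measure ℝ) a).quasiMeasurePreserving.ae
    (Tr_coe (𝕜 := 𝕜) b f)
  filter_upwards [Tr_coe (𝕜 := 𝕜) (a + b) f, Tr_coe (𝕜 := 𝕜) a (Tr 𝕜 p b f), h1] with t h2 h3 h4
  rw [h2, h3, h4]
  congr 1
  ring

theorem Tr_zero (f : Lp 𝕜 p (volume : Measure ℝ)) : Tr 𝕜 p 0 f = f := by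
  apply Lp.ext
  filter_upwards [Tr_coe (𝕜 := 𝕜) 0 f] with t h2
  rw [h2, sub_zero]

end H316F
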