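import Pool.Agent.H316R4.Dyad2
import Pool.Agent.H316R4.Trans

open scoped BigOperators Topology ENNReal
open Filter Set MeasureTheory

namespace H316F

variable {p : ℝ≥0∞} [hp1 : Fact (1 ≤ p)]


theorem cell_mem_self (n : ℕ) (t : ℝ) : t ∈ cell n ⌊t * 2 ^ n⌋ := mem_cell.2 rfl

theorem Sx_tendsto_cts (hp : p ≠ ⊤) (g : ℝ → ℝ) (hg : Continuous g) (hgc : HasCompactSupport g)
    (hgm : MemLp g p volume) :
    Tendsto (fun n => Sx p n (hgm.toLp g)) atTop (𝓝 (hgm.toLp g)) := by
  have hq := q_ge (p := p) hp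
  obtain ⟨m, hm⟩ : ∃ m : ℕ, Function.support g ⊆ Bx m := by
    obtain ⟨R, hR⟩ := hgc.isCompact.isBounded.subset_closedBall (0 : ℝ)
    obtain ⟨m, hm⟩ := pow_unbounded_of_one_lt R (by norm_num : (1 : ℝ) < 2)
    refine ⟨m, fun t ht => ?_⟩
    have h1 := hR (subset_tsupport _ ht)
    rw [mem_closedBall_zero_iff, Real.norm_eq_abs, abs_le] at h1
    rw [Bx, mem_Ico]
    constructor <;> linarith
  have hgz : ∀ t, t ∉ Bx m → g t = 0 := fun t ht => by
    by_contra h
    exact ht (hm h)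
  have huc := hgc.uniformContinuous_of_continuous hg
  rw [Metric.tendsto_atTop]
  intro ε hε
  have h2m : (0 : ℝ) < 2 ^ (m + 1) := by positivity
  set ε' : ℝ := ε / 2 / (2 ^ (m + 1)) with hε'
  have hε'0 : 0 < ε' := by positivity
  obtain ⟨δ, hδ, hδ2⟩ := Metric.uniformContinuous_iff.1 huc ε' hε'0
  obtain ⟨n0, hn0⟩ := exists_pow_lt_of_lt_one hδ (by norm_num : (1 / 2 : ℝ) < 1)
  refine ⟨max n0 m, fun n hn => ?_⟩
  have hn1 : ((2 : ℝ) ^ n)⁻¹ < δ := by
    have : ((1 / 2 : ℝ)) ^ n ≤ (1 / 2) ^ n0 :=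
      pow_le_pow_of_le_one (by norm_num) (by norm_num) (le_trans (le_max_left _ _) hn)
    rw [one_div, inv_pow] at this
    exact lt_of_le_of_lt this (by simpa [one_div, inv_pow] using hn0)
  have hn2 : m ≤ n := le_trans (le_max_right _ _) hn
  set G : (Lp ℝ p (volume : Measure ℝ)) := hgm.toLp g with hG
  have hGc : G =ᵐ[volume] g := hgm.coeFn_toLp
  -- pointwise bound
  have hcell : ∀ j : ℤ, ∀ t ∈ cell n j, |(2 : ℝ) ^ n * cInt p n j G - g t| ≤ ε' := by
    intro j t ht
    have h2 : (0 : ℝ) < 2 ^ n := by positivity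
    have e1 : cInt p n j G = ∫ s in cell n j, g s := by
      rw [cInt_apply]
      exact setIntegral_congr_ae (cell_meas n j) (hGc.mono fun s hs _ => hs)
    have hgi : IntegrableOn g (cell n j) := (hg.integrable_of_hasCompactSupport hgc).integrableOn
    have e2 : (2 : ℝ) ^ n * cInt p n j G - g t = 2 ^ n * ∫ s in cell n j, (g s - g t) := by
      rw [integral_sub hgi (integrableOn_const (cell_fin n j)), e1, setIntegral_const, cell_real, smul_eq_mul]
      field_simp
    have e3 : ‖∫ s in cell n j, (g s - g t)‖ ≤ ε' * volume.real (cell n j) := by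
      refine norm_setIntegral_le_of_norm_le_const (lt_top_iff_ne_top.2 (cell_fin n j)) ?_
      intro s hs
      have hd : dist s t < δ := by
        rw [cell, mem_Ico] at hs ht
        have e4 : ((j : ℝ) + 1) / 2 ^ n = j / 2 ^ n + (2 ^ n)⁻¹ := by rw [add_div, one_div]
        rw [e4] at hs ht
        rw [Real.dist_eq, abs_lt]
        constructor <;> linarith [hs.1, hs.2, ht.1, ht.2]
      exact le_of_lt (by simpa [Real.dist_eq] using hδ2 hd)
    rw [e2, abs_mul, abs_of_pos h2]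
    rw [Real.norm_eq_abs, cell_real] at e3
    calc (2 : ℝ) ^ n * |∫ s in cell n j, (g s - g t)| ≤ 2 ^ n * (ε' * (2 ^ n)⁻¹) := by gcongr
      _ = ε' := by field_simp
  have hpt : ∀ᵐ t, |(Sx p n G - G : (Lp ℝ p (volume : Measure ℝ))) t| ≤ (Bx m).indicator (fun _ => ε') t := by
    have h1 : ∀ᵐ t, ∀ j ∈ inner n n, ind p n j t = (cell n j).indicator (fun _ => (1 : ℝ)) t :=
      (ae_ball_iff (inner n n).countable_toSet).2 fun j _ => ind_coe n j
    have h2 : ∀ᵐ t, ∀ j ∈ inner n n, (((2 : ℝ) ^ n * cInt p n j G) • ind p n j : (Lp ℝ p (volume : Measure ℝ))) t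
        = ((2 : ℝ) ^ n * cInt p n j G) * ind p n j t :=
      (ae_ball_iff (inner n n).countable_toSet).2 fun j _ => by
        filter_upwards [Lp.coeFn_smul ((2 : ℝ) ^ n * cInt p n j G) (ind p n j)] with t ht
        rw [ht]; simp
    filter_upwards [h1, h2, hGc, Lp.coeFn_sub (Sx p n G) G,
      Lp.coeFn_fun_finsetSum (inner n n) (fun j => ((2 : ℝ) ^ n * cInt p n j G) • ind p n j)]
      with t h1 h2 h3 h4 h5
    have h6 : (Sx p n G : (Lp ℝ p (volume : Measure ℝ))) t = ∑ j ∈ inner n n, ((2 : ℝ) ^ n * cInt p n j G) *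
        (cell n j).indicator (fun _ => (1 : ℝ)) t := by
      rw [Sx, Ex_apply, h5]
      exact Finset.sum_congr rfl fun j hj => by rw [h2 j hj, h1 j hj]
    rw [h4, Pi.sub_apply, h3, h6]
    by_cases htn : ⌊t * 2 ^ n⌋ ∈ inner n n
    · rw [Finset.sum_eq_single ⌊t * 2 ^ n⌋]
      · rw [indicator_of_mem (cell_mem_self n t), mul_one]
        by_cases htm : t ∈ Bx m
        · rw [indicator_of_mem htm]
          exact hcell _ t (cell_mem_self n t)
        · rw [indicator_of_notMem htm, hgz t htm]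
          have hout : ⌊t * 2 ^ n⌋ ∉ inner m n := fun h => htm (cell_sub h (cell_mem_self n t))
          have : cInt p n ⌊t * 2 ^ n⌋ G = 0 := by
            refine cInt_zero (A := Bx m) ?_ (cell_out hout)
            filter_upwards [hGc] with s hs hs2
            rw [hs, hgz s hs2]
          rw [this]; simp
      · intro j _ hj
        rw [indicator_of_notMem, mul_zero]
        intro h
        exact hj (mem_cell.1 h).symm
      · intro h; exact absurd htn h
    · have hz : ∀ j ∈ inner n n, ((2 : ℝ) ^ n * cInt p n j G) *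
        (cell n j).indicator (fun _ => (1 : ℝ)) t = 0 := by
        intro j hj
        rw [indicator_of_notMem, mul_zero]
        intro h
        exact htn ((mem_cell.1 h) ▸ hj)
      rw [Finset.sum_eq_zero hz]
      have htm : t ∉ Bx m := by
        intro h
        have h7 := cell_out htn
        exact Set.disjoint_left.1 h7 (cell_mem_self n t) (Bx_mono hn2 h)
      rw [indicator_of_notMem htm, hgz t htm]; simp
  -- norm bound
  have hnorm : ‖Sx p n G - G‖ ≤ ε' * 2 ^ (m + 1) := by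
    apply norm_le_of_rpow hp (by positivity)
    rw [norm_rpow hp]
    have h1 : ∫ t, |(Sx p n G - G : (Lp ℝ p (volume : Measure ℝ))) t| ^ p.toReal ≤
        ∫ t, (Bx m).indicator (fun _ => ε' ^ p.toReal) t := by
      refine integral_mono_ae (integrable_rpow hp _) ?_ ?_
      · refine (integrable_indicator_iff (Bx_meas m)).2 (integrableOn_const ?_)
        rw [Bx, Real.volume_Ico]; exact ENNReal.ofReal_ne_top
      · filter_upwards [hpt] with t ht
        by_cases h : t ∈ Bx m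
        · rw [indicator_of_mem h] at ht ⊢
          exact Real.rpow_le_rpow (abs_nonneg _) ht (by linarith)
        · rw [indicator_of_notMem h] at ht ⊢
          have h0 : |(Sx p n G - G : (Lp ℝ p (volume : Measure ℝ))) t| = 0 := le_antisymm ht (abs_nonneg _)
          rw [h0, Real.zero_rpow (by linarith)]
    refine h1.trans ?_
    rw [integral_indicator (Bx_meas m), setIntegral_const, smul_eq_mul, Measure.real, Bx,
      Real.volume_Ico, ENNReal.toReal_ofReal (by have := pow_pos (by norm_num : (0 : ℝ) < 2) m; linarith), Real.mul_rpow hε'0.le (by positivity)]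
    have h3 : (2 : ℝ) ^ m - -2 ^ m = 2 ^ (m + 1) := by rw [pow_succ]; ring
    rw [h3]
    have h4 : (2 : ℝ) ^ (m + 1) ≤ ((2 : ℝ) ^ (m + 1)) ^ p.toReal := by
      calc (2 : ℝ) ^ (m + 1) = ((2 : ℝ) ^ (m + 1)) ^ (1 : ℝ) := (Real.rpow_one _).symm
        _ ≤ _ := Real.rpow_le_rpow_of_exponent_le (one_le_pow₀ (by norm_num)) hq
    have h5 : 0 ≤ ε' ^ p.toReal := by positivity
    nlinarith
  rw [dist_eq_norm]
  refine lt_of_le_of_lt hnorm ?_
  rw [hε']
  field_simp
  linarith

theorem Sx_tendsto (hp : p ≠ ⊤) (x : (Lp ℝ p (volume : Measure ℝ))) : Tendsto (fun n => Sx p n x) atTop (𝓝 x) := by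
  rw [Metric.tendsto_atTop]
  intro ε hε
  have hε3 : ENNReal.ofReal (ε / 4) ≠ 0 := by
    rw [Ne, ENNReal.ofReal_eq_zero]; push Not; positivity
  obtain ⟨g, hgc, hg2, hg, hgm⟩ := (Lp.memLp x).exists_hasCompactSupport_eLpNorm_sub_le hp hε3
  have hxg : ‖x - hgm.toLp g‖ ≤ ε / 4 := by
    have h1 : ‖x - hgm.toLp g‖ = (eLpNorm (fun t => x t - g t) p volume).toReal := by
      rw [Lp.norm_def]
      congr 1
      refine eLpNorm_congr_ae ?_
      filter_upwards [Lp.coeFn_sub x (hgm.toLp g), hgm.coeFn_toLp] with t h1 h2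
      rw [h1, Pi.sub_apply, h2]
    rw [h1]
    refine ENNReal.toReal_le_of_le_ofReal (by positivity) ?_
    exact hg2
  obtain ⟨N, hN⟩ := Metric.tendsto_atTop.1 (Sx_tendsto_cts hp g hg hgc hgm) (ε / 4) (by positivity)
  refine ⟨N, fun n hn => ?_⟩
  have h2 := hN n hn
  rw [dist_eq_norm] at h2 ⊢
  have h3 : ‖Sx p n (x - hgm.toLp g)‖ ≤ ε / 4 := (Ex_le hp _ _ _).trans hxg
  have h4 : Sx p n x - x = Sx p n (x - hgm.toLp g) + (Sx p n (hgm.toLp g) - hgm.toLp g)
      - (x - hgm.toLp g) := by rw [map_sub]; abel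
  rw [h4]
  calc _ ≤ ‖Sx p n (x - hgm.toLp g)‖ + ‖Sx p n (hgm.toLp g) - hgm.toLp g‖ + ‖x - hgm.toLp g‖ :=
        (norm_sub_le _ _).trans (by gcongr; exact norm_add_le _ _)
    _ < ε := by linarith

theorem inner_mono {μ n : ℕ} (h : μ ≤ n) : inner μ n ⊆ inner n n := by
  intro j hj
  rw [inner, Finset.mem_Ico] at *
  have : (2 : ℤ) ^ (μ + n) ≤ 2 ^ (n + n) := pow_le_pow_right₀ (by norm_num) (by omega)
  constructor <;> linarith [hj.1, hj.2]

theorem Pj_eq {μ n : ℕ} (h : μ ≤ n) (x : (Lp ℝ p (volume : Measure ℝ))) : Pj p μ n x = Sx p n x - Ex p n (inner μ n) x := by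
  rw [Pj, Sx, Ex_apply, Ex_apply, Ex_apply, ann, eq_sub_iff_add_eq,
    Finset.sum_sdiff (inner_mono h)]

theorem ann_approx (hp : p ≠ ⊤) (g : (Lp ℝ p (volume : Measure ℝ))) (μ : ℕ) (τ : ℝ) (hτ : 0 < τ)
    (h : ∫ t in Bx μ, |g t| ^ p.toReal ≤ τ ^ p.toReal) :
    ∃ n0, ∀ n, n0 ≤ n → ‖Pj p μ n g - g‖ ≤ 2 * τ := by
  obtain ⟨N, hN⟩ := Metric.tendsto_atTop.1 (Sx_tendsto hp g) τ hτ
  refine ⟨max N μ, fun n hn => ?_⟩
  have h1 := hN n (le_trans (le_max_left _ _) hn)
  rw [dist_eq_norm] at h1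
  have h2 : ‖Ex p n (inner μ n) g‖ ≤ τ := by
    apply norm_le_of_rpow hp hτ.le
    exact (Ex_norm hp n _ (Bx μ) (Bx_meas μ) (fun j hj => cell_sub hj) g).trans h
  rw [Pj_eq (le_trans (le_max_right _ _) hn)]
  calc ‖Sx p n g - Ex p n (inner μ n) g - g‖ = ‖(Sx p n g - g) - Ex p n (inner μ n) g‖ := by
        congr 1; abel
    _ ≤ ‖Sx p n g - g‖ + ‖Ex p n (inner μ n) g‖ := norm_sub_le _ _
    _ ≤ 2 * τ := by linarith

theorem far_small (hp : p ≠ ⊤) (f : (Lp ℝ p (volume : Measure ℝ))) (μ : ℕ) (τ : ℝ) (hτ : 0 < τ) :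
    ∃ N0 : ℕ, ∀ N : ℕ, N0 ≤ N → ∫ t in Bx μ, |Tr ℝ p N f t| ^ p.toReal ≤ τ := by
  have h1 : ∀ N : ℕ, ∫ t in Bx μ, |Tr ℝ p N f t| ^ p.toReal =
      ∫ s, (Bx μ).indicator (fun _ => (1 : ℝ)) (s + N) * |f s| ^ p.toReal := by
    intro N
    rw [← integral_indicator (Bx_meas μ)]
    have h2 : ∫ t, (Bx μ).indicator (fun t => |Tr ℝ p N f t| ^ p.toReal) t =
        ∫ t, (Bx μ).indicator (fun _ => (1 : ℝ)) t * |f (t - N)| ^ p.toReal := by
      refine integral_congr_ae ?_
      filter_upwards [Tr_coe (𝕜 := ℝ) (N : ℝ) f] with t ht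
      by_cases h : t ∈ Bx μ
      · simp only [indicator_of_mem h, ht, one_mul]
      · simp [indicator_of_notMem h]
    rw [h2, ← integral_add_right_eq_self _ (N : ℝ)]
    simp
  have h2 : Tendsto (fun N : ℕ => ∫ s, (Bx μ).indicator (fun _ => (1 : ℝ)) (s + N) * |f s| ^ p.toReal)
      atTop (𝓝 (∫ _ : ℝ, (0 : ℝ))) := by
    refine tendsto_integral_of_dominated_convergence (fun s => |f s| ^ p.toReal) ?_
      (integrable_rpow hp f) ?_ ?_
    · intro N
      refine AEStronglyMeasurable.mul ?_ (integrable_rpow hp f).aestronglyMeasurable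
      have : Measurable fun s : ℝ => (Bx μ).indicator (fun _ => (1 : ℝ)) (s + N) :=
        (measurable_const.indicator (Bx_meas μ)).comp (measurable_id.add_const _)
      exact this.aestronglyMeasurable
    · intro N
      refine Eventually.of_forall fun s => ?_
      have h0 : 0 ≤ |f s| ^ p.toReal := by positivity
      rw [Real.norm_eq_abs, abs_mul, abs_of_nonneg h0]
      refine mul_le_of_le_one_left h0 ?_
      by_cases h : s + N ∈ Bx μ <;> simp [h]
    · refine Eventually.of_forall fun s => ?_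
      refine tendsto_const_nhds.congr' ?_
      obtain ⟨M, hM⟩ := exists_nat_ge (2 ^ μ - s)
      filter_upwards [eventually_ge_atTop M] with N hN
      have : s + N ∉ Bx μ := by
        rw [Bx, mem_Ico]
        push Not
        intro _
        have : (M : ℝ) ≤ N := by exact_mod_cast hN
        linarith
      rw [indicator_of_notMem this, zero_mul]
  rw [integral_zero] at h2
  obtain ⟨N0, hN0⟩ := Metric.tendsto_atTop.1 h2 τ hτ
  refine ⟨N0, fun N hN => ?_⟩
  have h3 := hN0 N hN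
  rw [Real.dist_eq, sub_zero] at h3
  rw [h1]
  exact le_of_lt (lt_of_le_of_lt (le_abs_self _) h3)

end H316F
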