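import Mathlib

open scoped BigOperators Topology
open Filter Set

namespace H316F

/-- `(E k)` is a finite-dimensional decomposition of `X`: every `E k` is finite dimensional and every
`x` has exactly one representation as a norm convergent series `∑ u k` with `u k ∈ E k`. -/
def IsFDD (𝕜 : Type*) [NontriviallyNormedField 𝕜] {X : Type*} [NormedAddCommGroup X]
    [NormedSpace 𝕜 X] (E : ℕ → Submodule 𝕜 X) : Prop :=
  (∀ k, FiniteDimensional 𝕜 (E k)) ∧
    ∀ x : X, ∃! u : ℕ → X, (∀ k, u k ∈ E k) ∧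
      Tendsto (fun n => ∑ k ∈ Finset.range n, u k) atTop (𝓝 x)

variable {X : Type*} [NormedAddCommGroup X] [NormedSpace ℝ X] [CompleteSpace X]

theorem perturb {ι : ℕ → Type} [∀ k, Fintype (ι k)] [∀ k, DecidableEq (ι k)]
    (x : ∀ k, ι k → X) (ψ : ∀ k, ι k → X →L[ℝ] ℝ) (Δ : ℕ → X →L[ℝ] X)
    (hΔ : ∀ k v, Δ k v = ∑ i, ψ k i v • x k i)
    (hbio : ∀ k i j, ψ k i (x k j) = if i = j then 1 else 0)
    (horth : ∀ j k, j ≠ k → ∀ v, Δ j (Δ k v) = 0)
    (hsum : ∀ v, Tendsto (fun n => ∑ k ∈ Finset.range n, Δ k v) atTop (𝓝 v))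
    (y : ∀ k, ι k → X) (c : ℕ → ℝ)
    (hy : ∀ k, ∑ i, ‖ψ k i‖ * ‖y k i - x k i‖ ≤ c k) (hc : Summable c) (hc1 : ∑' k, c k < 1) :
    IsFDD ℝ (fun k => Submodule.span ℝ (range (y k))) := by
  classical
  -- basic facts
  have hΔx : ∀ k j, Δ k (x k j) = x k j := by
    intro k j
    rw [hΔ]
    simp [hbio]
  have hψ0 : ∀ k k' i j, k ≠ k' → ψ k i (x k' j) = 0 := by
    intro k k' i j hkk
    have h1 : Δ k (x k' j) = 0 := by
      have := horth k k' hkk (x k' j)
      rwa [hΔx] at this
    have h2 : ψ k i (Δ k (x k' j)) = ψ k i (x k' j) := by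
      rw [hΔ]
      simp [hbio]
    rw [← h2, h1]; simp
  set K : ℕ → X →L[ℝ] X := fun k => ∑ i, (ψ k i).smulRight (y k i - x k i) with hK
  have hKn : ∀ k, ‖K k‖ ≤ c k := by
    intro k
    refine le_trans (norm_sum_le _ _) (le_trans (Finset.sum_le_sum fun i _ => ?_) (hy k))
    rw [ContinuousLinearMap.norm_smulRight_apply]
  have hKs : Summable K := Summable.of_norm_bounded hc hKn
  set Kt : X →L[ℝ] X := ∑' k, K k with hKt
  have hKtn : ‖Kt‖ < 1 := by
    refine lt_of_le_of_lt ?_ hc1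
    exact tsum_of_norm_bounded hc.hasSum hKn
  have hKtx : ∀ k j, Kt (x k j) = y k j - x k j := by
    intro k j
    have h1 : HasSum K Kt := hKs.hasSum
    have h2 : HasSum (fun m => K m (x k j)) (Kt (x k j)) :=
      h1.mapL (ContinuousLinearMap.apply ℝ X (x k j))
    have h3 : ∀ m, m ≠ k → K m (x k j) = 0 := by
      intro m hm
      simp only [hK, ContinuousLinearMap.coe_sum', Finset.sum_apply,
        ContinuousLinearMap.smulRight_apply]
      refine Finset.sum_eq_zero fun i _ => ?_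
      rw [hψ0 m k i j hm, zero_smul]
    have h4 : HasSum (fun m => K m (x k j)) (K k (x k j)) := hasSum_single k h3
    rw [h2.unique h4]
    simp only [hK, ContinuousLinearMap.coe_sum', Finset.sum_apply,
        ContinuousLinearMap.smulRight_apply, hbio]
    simp
  have hu : ‖-Kt‖ < 1 := by rwa [norm_neg]
  set U : (X →L[ℝ] X)ˣ := Units.oneSub (-Kt) hu with hU
  have hUv : (U : X →L[ℝ] X) = 1 + Kt := by
    rw [hU, Units.val_oneSub, sub_neg_eq_add]
  set V : X →L[ℝ] X := ((U⁻¹ : (X →L[ℝ] X)ˣ) : X →L[ℝ] X) with hV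
  have hUV : ∀ z, (U : X →L[ℝ] X) (V z) = z := by
    intro z
    have : (U : X →L[ℝ] X) * V = 1 := by rw [hV]; exact U.mul_inv
    have h2 := congrArg (fun A : X →L[ℝ] X => A z) this
    simpa using h2
  have hVU : ∀ z, V ((U : X →L[ℝ] X) z) = z := by
    intro z
    have : V * (U : X →L[ℝ] X) = 1 := by rw [hV]; exact U.inv_mul
    have h2 := congrArg (fun A : X →L[ℝ] X => A z) this
    simpa using h2
  have hUx : ∀ k j, (U : X →L[ℝ] X) (x k j) = y k j := by
    intro k j
    rw [hUv]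
    simp [hKtx]
  have hVy : ∀ k j, V (y k j) = x k j := by
    intro k j
    rw [← hUx, hVU]
  have hVspan : ∀ k z, z ∈ Submodule.span ℝ (range (y k)) → V z ∈ Submodule.span ℝ (range (x k)) := by
    intro k z hz
    have : Submodule.span ℝ (range (y k)) ≤
        (Submodule.span ℝ (range (x k))).comap (V : X →ₗ[ℝ] X) := by
      rw [Submodule.span_le]
      rintro _ ⟨j, rfl⟩
      simp only [SetLike.mem_coe, Submodule.mem_comap, ContinuousLinearMap.coe_coe, hVy]
      exact Submodule.subset_span ⟨j, rfl⟩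
    exact this hz
  have hUspan : ∀ k z, z ∈ Submodule.span ℝ (range (x k)) →
      (U : X →L[ℝ] X) z ∈ Submodule.span ℝ (range (y k)) := by
    intro k z hz
    have : Submodule.span ℝ (range (x k)) ≤
        (Submodule.span ℝ (range (y k))).comap ((U : X →L[ℝ] X) : X →ₗ[ℝ] X) := by
      rw [Submodule.span_le]
      rintro _ ⟨j, rfl⟩
      simp only [SetLike.mem_coe, Submodule.mem_comap, ContinuousLinearMap.coe_coe, hUx]
      exact Submodule.subset_span ⟨j, rfl⟩
    exact this hz
  have hΔmem : ∀ k z, Δ k z ∈ Submodule.span ℝ (range (x k)) := by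
    intro k z
    rw [hΔ]
    exact Submodule.sum_mem _ fun i _ => Submodule.smul_mem _ _ (Submodule.subset_span ⟨i, rfl⟩)
  have hΔspan : ∀ k z, z ∈ Submodule.span ℝ (range (x k)) → Δ k z = z := by
    intro k z hz
    have : Submodule.span ℝ (range (x k)) ≤
        LinearMap.eqLocus ((Δ k : X →L[ℝ] X) : X →ₗ[ℝ] X) LinearMap.id := by
      rw [Submodule.span_le]
      rintro _ ⟨j, rfl⟩
      simp [LinearMap.mem_eqLocus, hΔx]
    have h2 := this hz
    simpa [LinearMap.mem_eqLocus] using h2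
  have hΔspan0 : ∀ j k z, j ≠ k → z ∈ Submodule.span ℝ (range (x k)) → Δ j z = 0 := by
    intro j k z hjk hz
    rw [← hΔspan k z hz]
    exact horth j k hjk z
  refine ⟨fun k => FiniteDimensional.span_of_finite ℝ (Set.finite_range _), fun v => ?_⟩
  refine ⟨fun k => (U : X →L[ℝ] X) (Δ k (V v)), ⟨fun k => hUspan k _ (hΔmem k _), ?_⟩, ?_⟩
  · have h1 := (U : X →L[ℝ] X).continuous.continuousAt.tendsto.comp (hsum (V v))
    rw [hUV] at h1
    refine h1.congr fun n => ?_
    simp [map_sum]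
  · rintro u ⟨hu1, hu2⟩
    funext j
    have h1 := (Δ j).continuous.continuousAt.tendsto.comp (V.continuous.continuousAt.tendsto.comp hu2)
    have h2 : Tendsto ((fun z => Δ j z) ∘ (fun z => V z) ∘ fun n => ∑ k ∈ Finset.range n, u k) atTop
        (𝓝 (V (u j))) := by
      refine tendsto_const_nhds.congr' ?_
      filter_upwards [eventually_gt_atTop j] with n hn
      simp only [Function.comp_apply, map_sum]
      rw [Finset.sum_eq_single j]
      · exact (hΔspan j _ (hVspan j _ (hu1 j))).symm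
      · intro b _ hb
        exact hΔspan0 j b _ (Ne.symm hb) (hVspan b _ (hu1 b))
      · intro hj
        exact absurd (Finset.mem_range.2 hn) hj
    have h3 : Δ j (V v) = V (u j) := tendsto_nhds_unique h1 h2
    show u j = (U : X →L[ℝ] X) (Δ j (V v))
    rw [h3, hUV]

end H316F
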