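import Mathlib

open scoped BigOperators

namespace H316F

/-- the perturbation of the nodes -/
noncomputable def om (K : ℝ) (H : ℝ) (I : ℕ) (bt : ℕ → Bool) : ℝ :=
  ∑ i ∈ Finset.range I, (if bt i then 1 / (2 * K * H ^ (i + 1)) else 0)

theorem om_bound (K H : ℝ) (hK : 1 ≤ K) (hH : 1 ≤ H) (I : ℕ) (bt : ℕ → Bool) :
    |om K H I bt| ≤ I / K := by
  unfold om
  refine (Finset.abs_sum_le_sum_abs _ _).trans ?_
  have h1 : ∀ i ∈ Finset.range I, |(if bt i then 1 / (2 * K * H ^ (i + 1)) else 0)| ≤ 1 / K := by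
    intro i _
    by_cases h : bt i = true
    · rw [if_pos h, abs_of_pos (by positivity)]
      have h2 : 1 ≤ H ^ (i + 1) := one_le_pow₀ hH
      apply one_div_le_one_div_of_le (by linarith)
      nlinarith
    · rw [if_neg h, abs_zero]; positivity
  refine (Finset.sum_le_sum h1).trans (le_of_eq ?_)
  simp [div_eq_mul_inv]

theorem freq (K h : ℕ) (hK : 1 ≤ K) (hh : 1 ≤ h) (I : ℕ) (bt : ℕ → Bool) (N P : ℤ) (i : ℕ) (hi : i < I) :
    ∃ (m : ℤ) (err : ℝ), |err| ≤ Real.pi * I / (2 * h) ∧
      2 * Real.pi * ((K : ℝ) * (2 * h) ^ (i + 1)) * ((N : ℝ) + P / K + om K (2 * h) I bt) =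
        2 * Real.pi * m + (if bt i then Real.pi else 0) + err := by
  classical
  have hπ := Real.pi_pos
  have hK0 : (0 : ℝ) < K := by exact_mod_cast hK
  have hh1 : (1 : ℝ) ≤ h := by exact_mod_cast hh
  have hH : (2 : ℝ) ≤ 2 * h := by linarith
  have hH0 : (0 : ℝ) < 2 * h := by linarith
  set H : ℝ := 2 * h with hHdef
  -- each term
  have hterm : ∀ k, ∃ (m : ℤ) (err : ℝ), |err| ≤ Real.pi / H ∧
      2 * Real.pi * ((K : ℝ) * H ^ (i + 1)) * (if bt k then 1 / (2 * K * H ^ (k + 1)) else 0) =
        2 * Real.pi * m + (if k = i then (if bt i then Real.pi else 0) else 0) + err := by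
    intro k
    by_cases hb : bt k = true
    · rw [if_pos hb]
      rcases lt_trichotomy k i with hk | hk | hk
      · refine ⟨(h : ℤ) * (2 * h) ^ (i - k - 1), 0, by rw [abs_zero]; positivity, ?_⟩
        rw [if_neg hk.ne]
        have e1 : H ^ (i + 1) = H ^ (k + 1) * (H * H ^ (i - k - 1)) := by
          rw [← pow_succ', ← pow_add]; congr 1; omega
        rw [e1]
        push_cast
        rw [← hHdef]
        field_simp
        rw [hHdef]; ring
      · subst hk
        refine ⟨0, 0, by rw [abs_zero]; positivity, ?_⟩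
        rw [if_pos rfl, if_pos hb]
        push_cast
        field_simp
        ring
      · refine ⟨0, 2 * Real.pi * ((K : ℝ) * H ^ (i + 1)) * (1 / (2 * K * H ^ (k + 1))), ?_, ?_⟩
        · have e1 : H ^ (k + 1) = H ^ (i + 1) * (H * H ^ (k - i - 1)) := by
            rw [← pow_succ', ← pow_add]; congr 1; omega
          have e2 : 2 * Real.pi * ((K : ℝ) * H ^ (i + 1)) * (1 / (2 * K * H ^ (k + 1))) =
              Real.pi / (H * H ^ (k - i - 1)) := by
            rw [e1]; field_simp
          rw [e2, abs_of_pos (by positivity)]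
          have h3 : 1 ≤ H ^ (k - i - 1) := one_le_pow₀ (by linarith)
          apply div_le_div_of_nonneg_left hπ.le hH0
          nlinarith
        · rw [if_neg hk.ne']
          push_cast
          ring
    · refine ⟨0, 0, by rw [abs_zero]; positivity, ?_⟩
      rw [if_neg hb]
      by_cases hk : k = i
      · subst hk
        rw [if_pos rfl, if_neg hb]; simp
      · rw [if_neg hk]; simp
  choose m err hm1 hm2 using hterm
  refine ⟨K * (2 * h) ^ (i + 1) * N + (2 * h) ^ (i + 1) * P + ∑ k ∈ Finset.range I, m k,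
    ∑ k ∈ Finset.range I, err k, ?_, ?_⟩
  · refine (Finset.abs_sum_le_sum_abs _ _).trans ((Finset.sum_le_sum fun k _ => hm1 k).trans (le_of_eq ?_))
    simp
    ring
  · rw [mul_add, mul_add, om, Finset.mul_sum, Finset.sum_congr rfl fun k _ => hm2 k,
      Finset.sum_add_distrib, Finset.sum_add_distrib, Finset.sum_ite_eq' (Finset.range I) i,
      if_pos (Finset.mem_range.2 hi), ← Finset.mul_sum]
    push_cast
    rw [← hHdef]
    field_simp
    ring

theorem cos_shift (τ l x : ℝ) (b : Bool) (m : ℤ) (err : ℝ)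
    (h : 2 * Real.pi * τ * l = 2 * Real.pi * m + (if b then Real.pi else 0) + err) :
    |Real.cos (2 * Real.pi * τ * (x - l)) - (if b then -1 else 1) * Real.cos (2 * Real.pi * τ * x)| ≤ |err| := by
  have e1 : 2 * Real.pi * τ * (x - l) = (2 * Real.pi * τ * x - (if b then Real.pi else 0) - err) - m * (2 * Real.pi) := by
    rw [mul_sub, h]; ring
  have e2 : Real.cos (2 * Real.pi * τ * (x - l)) = (if b then -1 else 1) * Real.cos (2 * Real.pi * τ * x - err) := by
    rw [e1, Real.cos_sub_int_mul_two_pi]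
    cases b
    · simp
    · simp only [if_true]
      rw [show 2 * Real.pi * τ * x - Real.pi - err = (2 * Real.pi * τ * x - err) - Real.pi by ring,
        Real.cos_sub_pi]
      ring
  rw [e2, ← mul_sub, abs_mul]
  have h1 : |(if b then (-1 : ℝ) else 1)| = 1 := by cases b <;> norm_num
  rw [h1, one_mul]
  have h2 := Real.abs_cos_sub_cos_le (2 * Real.pi * τ * x - err) (2 * Real.pi * τ * x)
  refine h2.trans (le_of_eq ?_)
  rw [show 2 * Real.pi * τ * x - err - 2 * Real.pi * τ * x = -err by ring, abs_neg]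

end H316F
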