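import Pool.Agent.H316R4.Step2
import Pool.Agent.H316R4.Fdd

open scoped BigOperators Topology ENNReal
open Filter Set MeasureTheory

namespace H316F

theorem proj_rep {V : Type*} [NormedAddCommGroup V] [NormedSpace ℝ V] (G : V →L[ℝ] V)
    (hG : ∀ v, G (G v) = G v) (hfin : FiniteDimensional ℝ (LinearMap.range (G : V →ₗ[ℝ] V))) :
    ∃ (d : ℕ) (x : Fin d → V) (ψ : Fin d → V →L[ℝ] ℝ), (∀ v, G v = ∑ i, ψ i v • x i) ∧
      (∀ i j, ψ i (x j) = if i = j then 1 else 0) ∧ (∀ i v, ψ i (G v) = ψ i v) ∧ (∀ i, G (x i) = x i) := by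
  classical
  set W := LinearMap.range (G : V →ₗ[ℝ] V) with hW
  let b := Module.finBasis ℝ W
  have hmem : ∀ v, G v ∈ W := fun v => ⟨v, rfl⟩
  let G' : V →L[ℝ] W := G.codRestrict W hmem
  have hGx : ∀ w : W, G (w : V) = w := by
    rintro ⟨_, v, rfl⟩
    exact hG v
  refine ⟨_, fun i => (b i : V), fun i => (LinearMap.toContinuousLinearMap (b.coord i)) ∘L G', ?_, ?_, ?_, ?_⟩
  · intro v
    have h1 := b.sum_repr (G' v)
    have h2 := congrArg (Subtype.val) h1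
    rw [Submodule.coe_sum] at h2
    have h3 : ((G' v : W) : V) = G v := rfl
    rw [← h3, ← h2]
    rfl
  · intro i j
    have h1 : G' (b j : V) = b j := Subtype.ext (hGx (b j))
    show b.coord i (G' (b j : V)) = _
    rw [h1, Module.Basis.coord_apply, Module.Basis.repr_self, Finsupp.single_apply]
    simp only [eq_comm]
  · intro i v
    show b.coord i (G' (G v)) = b.coord i (G' v)
    have : G' (G v) = G' v := Subtype.ext (hG v)
    rw [this]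
  · intro i
    exact hGx (b i)

variable {p : ℝ≥0∞} [hp1 : Fact (1 ≤ p)]


theorem fin_rank_sum {V ι : Type*} [NormedAddCommGroup V] [NormedSpace ℝ V] (s : Finset ι)
    (ψ : ι → V →L[ℝ] ℝ) (x : ι → V) :
    FiniteDimensional ℝ (LinearMap.range ((∑ i ∈ s, (ψ i).smulRight (x i) : V →L[ℝ] V) : V →ₗ[ℝ] V)) := by
  classical
  have h1 : LinearMap.range ((∑ i ∈ s, (ψ i).smulRight (x i) : V →L[ℝ] V) : V →ₗ[ℝ] V) ≤
      Submodule.span ℝ (s.image x : Set V) := by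
    rintro _ ⟨v, rfl⟩
    have : ((∑ i ∈ s, (ψ i).smulRight (x i) : V →L[ℝ] V) : V →ₗ[ℝ] V) v = ∑ i ∈ s, ψ i v • x i := by
      simp
    rw [this]
    exact Submodule.sum_mem _ fun i hi => Submodule.smul_mem _ _
      (Submodule.subset_span (by simp only [Finset.coe_image]; exact ⟨i, hi, rfl⟩))
  haveI : FiniteDimensional ℝ (Submodule.span ℝ (s.image x : Set V)) :=
    FiniteDimensional.span_of_finite ℝ (Finset.finite_toSet _)
  exact Submodule.finiteDimensional_of_le h1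

/-- state of the construction -/
structure St (p : ℝ≥0∞) [Fact (1 ≤ p)] where
  f : (Lp ℝ p (volume : Measure ℝ))
  good : GoodF f
  a : ℕ
  π : ((Lp ℝ p (volume : Measure ℝ))) →L[ℝ] ((Lp ℝ p (volume : Measure ℝ)))
  fin : FiniteDimensional ℝ (LinearMap.range (π : ((Lp ℝ p (volume : Measure ℝ))) →ₗ[ℝ] ((Lp ℝ p (volume : Measure ℝ)))))
  idem : ∀ v, π (π v) = π v
  s1 : ∀ v, Sx p a (π v) = π v
  s2 : ∀ v, π (Sx p a v) = π v
  tol : ℝ
  tpos : 0 < tol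

noncomputable def St.eps (s : St p) (k : ℕ) : ℝ := min (s.tol / 2) ((1 / 2) ^ (k + 3))

theorem St.eps_pos (s : St p) (k : ℕ) : 0 < s.eps k := lt_min (by have := s.tpos; positivity) (by positivity)

/-- data produced at a stage -/
structure Dat (s : St p) (k : ℕ) where
  d : ℕ
  x : Fin d → (Lp ℝ p (volume : Measure ℝ))
  ψ : Fin d → ((Lp ℝ p (volume : Measure ℝ))) →L[ℝ] ℝ
  r1 : ∀ v, Sx p s.a v - s.π v = ∑ i, ψ i v • x i
  r2 : ∀ i j, ψ i (x j) = if i = j then 1 else 0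
  r3 : ∀ i v, ψ i (Sx p s.a v - s.π v) = ψ i v
  r4 : ∀ i, Sx p s.a (x i) - s.π (x i) = x i
  o : StepOut p s.f s.a d x ψ (s.eps k)

theorem dat_nonempty (h1p : 1 < p) (hp : p ≠ ⊤) (s : St p) (k : ℕ) : Nonempty (Dat s k) := by
  have hfin : FiniteDimensional ℝ (LinearMap.range ((Sx p s.a - s.π : ((Lp ℝ p (volume : Measure ℝ))) →L[ℝ] ((Lp ℝ p (volume : Measure ℝ)))) : ((Lp ℝ p (volume : Measure ℝ))) →ₗ[ℝ] ((Lp ℝ p (volume : Measure ℝ))))) := by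
    haveI h1 : FiniteDimensional ℝ (LinearMap.range ((Sx p s.a : ((Lp ℝ p (volume : Measure ℝ))) →L[ℝ] ((Lp ℝ p (volume : Measure ℝ)))) : ((Lp ℝ p (volume : Measure ℝ))) →ₗ[ℝ] ((Lp ℝ p (volume : Measure ℝ))))) :=
      fin_rank_sum _ _ _
    haveI h2 := s.fin
    have h3 : LinearMap.range ((Sx p s.a - s.π : ((Lp ℝ p (volume : Measure ℝ))) →L[ℝ] ((Lp ℝ p (volume : Measure ℝ)))) : ((Lp ℝ p (volume : Measure ℝ))) →ₗ[ℝ] ((Lp ℝ p (volume : Measure ℝ)))) ≤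
        LinearMap.range ((Sx p s.a : ((Lp ℝ p (volume : Measure ℝ))) →L[ℝ] ((Lp ℝ p (volume : Measure ℝ)))) : ((Lp ℝ p (volume : Measure ℝ))) →ₗ[ℝ] ((Lp ℝ p (volume : Measure ℝ)))) ⊔
        LinearMap.range (s.π : ((Lp ℝ p (volume : Measure ℝ))) →ₗ[ℝ] ((Lp ℝ p (volume : Measure ℝ)))) := by
      rintro _ ⟨v, rfl⟩
      have : ((Sx p s.a - s.π : ((Lp ℝ p (volume : Measure ℝ))) →L[ℝ] ((Lp ℝ p (volume : Measure ℝ)))) : ((Lp ℝ p (volume : Measure ℝ))) →ₗ[ℝ] ((Lp ℝ p (volume : Measure ℝ)))) v = Sx p s.a v - s.π v := rfl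
      rw [this]
      exact Submodule.sub_mem _ (Submodule.mem_sup_left ⟨v, rfl⟩) (Submodule.mem_sup_right ⟨v, rfl⟩)
    exact Submodule.finiteDimensional_of_le h3
  obtain ⟨d, x, ψ, h1, h2, h3, h4⟩ := proj_rep (Sx p s.a - s.π) (fun v => by
    simp only [ContinuousLinearMap.sub_apply, map_sub, s.s1, s.s2, s.idem, Sx_Sx le_rfl]
    abel) hfin
  obtain ⟨o⟩ := step h1p hp s.good s.a d x ψ (s.eps k) (s.eps_pos k)
  exact ⟨⟨d, x, ψ, h1, h2, h3, h4, o⟩⟩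

variable {s : St p} {k : ℕ}

/-- the rank-one sum of far away functions -/
noncomputable def Dat.P (D : Dat s k) : ((Lp ℝ p (volume : Measure ℝ))) →L[ℝ] ((Lp ℝ p (volume : Measure ℝ))) :=
  ∑ i ∈ Finset.range (D.o.I + 1), (D.o.A.ψ i).smulRight (D.o.A.e i)

theorem Dat.P_apply (D : Dat s k) (v : (Lp ℝ p (volume : Measure ℝ))) :
    D.P v = ∑ i ∈ Finset.range (D.o.I + 1), D.o.A.ψ i v • D.o.A.e i := by
  simp [Dat.P]

theorem Dat.P_norm (D : Dat s k) (v : (Lp ℝ p (volume : Measure ℝ))) : ‖D.P v‖ ≤ ‖v‖ := by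
  rw [D.P_apply]; exact D.o.A.bd v

theorem Dat.P_P (D : Dat s k) (v : (Lp ℝ p (volume : Measure ℝ))) : D.P (D.P v) = D.P v := by
  rw [D.P_apply (D.P v)]
  have h1 : ∀ i ∈ Finset.range (D.o.I + 1), D.o.A.ψ i (D.P v) • D.o.A.e i = D.o.A.ψ i v • D.o.A.e i := by
    intro i hi
    rw [D.P_apply, map_sum]
    simp only [map_smul, smul_eq_mul]
    rw [Finset.sum_congr rfl fun j hj => by
      rw [D.o.A.bio i (Finset.mem_range.1 hi) j (Finset.mem_range.1 hj)]]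
    simp only [mul_ite, mul_one, mul_zero, Finset.sum_ite_eq, if_pos hi]
  rw [Finset.sum_congr rfl h1, ← D.P_apply]

theorem Dat.S_P_low (D : Dat s k) {a : ℕ} (ha : a ≤ s.a) (v : (Lp ℝ p (volume : Measure ℝ))) : Sx p a (D.P v) = 0 := by
  rw [D.P_apply, map_sum]
  refine Finset.sum_eq_zero fun i hi => ?_
  rw [map_smul, D.o.A.elow i (Finset.mem_range.1 hi) a ha, smul_zero]

theorem Dat.P_S_low (D : Dat s k) {a : ℕ} (ha : a ≤ s.a) (v : (Lp ℝ p (volume : Measure ℝ))) : D.P (Sx p a v) = 0 := by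
  rw [D.P_apply]
  refine Finset.sum_eq_zero fun i hi => ?_
  rw [D.o.A.ψlow i (Finset.mem_range.1 hi) a ha, zero_smul]

theorem Dat.S_P_high (D : Dat s k) {a : ℕ} (ha : D.o.hi ≤ a) (v : (Lp ℝ p (volume : Measure ℝ))) : Sx p a (D.P v) = D.P v := by
  rw [D.P_apply, map_sum]
  refine Finset.sum_congr rfl fun i hi => ?_
  rw [map_smul, D.o.A.ehigh i (Finset.mem_range.1 hi) a ha]

theorem Dat.P_S_high (D : Dat s k) {a : ℕ} (ha : D.o.hi ≤ a) (v : (Lp ℝ p (volume : Measure ℝ))) : D.P (Sx p a v) = D.P v := by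
  rw [D.P_apply, D.P_apply]
  refine Finset.sum_congr rfl fun i hi => ?_
  rw [D.o.A.ψhigh i (Finset.mem_range.1 hi) a ha]

/-- index type of the block -/
abbrev Dat.ι (D : Dat s k) : Type := (Fin D.d ⊕ Unit) ⊕ Fin D.o.I

noncomputable def Dat.xx (D : Dat s k) : D.ι → (Lp ℝ p (volume : Measure ℝ)) :=
  Sum.elim (Sum.elim D.x (fun _ => D.o.A.e 0)) (fun i : Fin D.o.I => D.o.A.e (i + 1))

noncomputable def Dat.Ψ (D : Dat s k) : D.ι → ((Lp ℝ p (volume : Measure ℝ))) →L[ℝ] ℝ :=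
  Sum.elim (Sum.elim D.ψ (fun _ => D.o.A.ψ 0)) (fun i : Fin D.o.I => D.o.A.ψ (i + 1))

noncomputable def Dat.Lam (D : Dat s k) : ℝ := ∑ i, ‖D.Ψ i‖ * ∑ j, |D.o.C i j|

theorem Dat.Lam_nonneg (D : Dat s k) : 0 ≤ D.Lam :=
  Finset.sum_nonneg fun _ _ => mul_nonneg (norm_nonneg _) (Finset.sum_nonneg fun _ _ => abs_nonneg _)

/-- next state -/
noncomputable def Dat.next (D : Dat s k) : St p where
  f := D.o.f'
  good := D.o.good
  a := D.o.hi
  π := Sx p s.a + D.P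
  fin := by
    haveI h1 : FiniteDimensional ℝ (LinearMap.range ((Sx p s.a : ((Lp ℝ p (volume : Measure ℝ))) →L[ℝ] ((Lp ℝ p (volume : Measure ℝ)))) : ((Lp ℝ p (volume : Measure ℝ))) →ₗ[ℝ] ((Lp ℝ p (volume : Measure ℝ))))) :=
      fin_rank_sum _ _ _
    haveI h2 : FiniteDimensional ℝ (LinearMap.range ((D.P : ((Lp ℝ p (volume : Measure ℝ))) →L[ℝ] ((Lp ℝ p (volume : Measure ℝ)))) : ((Lp ℝ p (volume : Measure ℝ))) →ₗ[ℝ] ((Lp ℝ p (volume : Measure ℝ))))) :=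
      fin_rank_sum _ _ _
    have h3 : LinearMap.range ((Sx p s.a + D.P : ((Lp ℝ p (volume : Measure ℝ))) →L[ℝ] ((Lp ℝ p (volume : Measure ℝ)))) : ((Lp ℝ p (volume : Measure ℝ))) →ₗ[ℝ] ((Lp ℝ p (volume : Measure ℝ)))) ≤
        LinearMap.range ((Sx p s.a : ((Lp ℝ p (volume : Measure ℝ))) →L[ℝ] ((Lp ℝ p (volume : Measure ℝ)))) : ((Lp ℝ p (volume : Measure ℝ))) →ₗ[ℝ] ((Lp ℝ p (volume : Measure ℝ)))) ⊔
        LinearMap.range ((D.P : ((Lp ℝ p (volume : Measure ℝ))) →L[ℝ] ((Lp ℝ p (volume : Measure ℝ)))) : ((Lp ℝ p (volume : Measure ℝ))) →ₗ[ℝ] ((Lp ℝ p (volume : Measure ℝ)))) := by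
      rintro _ ⟨v, rfl⟩
      have : ((Sx p s.a + D.P : ((Lp ℝ p (volume : Measure ℝ))) →L[ℝ] ((Lp ℝ p (volume : Measure ℝ)))) : ((Lp ℝ p (volume : Measure ℝ))) →ₗ[ℝ] ((Lp ℝ p (volume : Measure ℝ)))) v = Sx p s.a v + D.P v := rfl
      rw [this]
      exact Submodule.add_mem _ (Submodule.mem_sup_left ⟨v, rfl⟩) (Submodule.mem_sup_right ⟨v, rfl⟩)
    exact Submodule.finiteDimensional_of_le h3
  idem := fun v => by
    simp only [ContinuousLinearMap.add_apply, map_add, D.P_P, D.S_P_low le_rfl, D.P_S_low le_rfl,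
      Sx_Sx le_rfl]
    abel
  s1 := fun v => by
    simp only [ContinuousLinearMap.add_apply, map_add, D.S_P_high le_rfl, Sx_Sx' D.o.hlt.le]
  s2 := fun v => by
    simp only [ContinuousLinearMap.add_apply, D.P_S_high le_rfl, Sx_Sx D.o.hlt.le]
  tol := min (s.tol / 2) ((1 / 2) ^ (k + 3) / (D.Lam + 1))
  tpos := lt_min (by have := s.tpos; positivity) (by have := D.Lam_nonneg; positivity)

theorem Dat.bio (D : Dat s k) (i j : D.ι) : D.Ψ i (D.xx j) = if i = j then 1 else 0 := by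
  have hxe : ∀ r n, n < D.o.I + 1 → D.ψ r (D.o.A.e n) = 0 := by
    intro r n hn
    rw [← D.r3 r, D.o.A.elow n hn s.a le_rfl]
    have h1 : s.π (D.o.A.e n) = 0 := by
      rw [← s.s2, D.o.A.elow n hn s.a le_rfl, map_zero]
    rw [h1, sub_zero, map_zero]
  have hex : ∀ n r, n < D.o.I + 1 → D.o.A.ψ n (D.x r) = 0 := by
    intro n r hn
    have h1 : Sx p s.a (D.x r) = D.x r := by
      have h2 := D.r4 r
      rw [← h2, map_sub, s.s1, Sx_Sx le_rfl]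
    rw [← h1]
    exact D.o.A.ψlow n hn s.a le_rfl _
  rcases i with ((i | i) | i) <;> rcases j with ((j | j) | j)
  · show D.ψ i (D.x j) = _
    rw [D.r2]; simp
  · show D.ψ i (D.o.A.e 0) = _
    rw [hxe i 0 (by omega)]; simp
  · show D.ψ i (D.o.A.e (j + 1)) = _
    rw [hxe i _ (by omega)]; simp
  · show D.o.A.ψ 0 (D.x j) = _
    rw [hex 0 j (by omega)]; simp
  · show D.o.A.ψ 0 (D.o.A.e 0) = _
    rw [D.o.A.bio 0 (by omega) 0 (by omega)]; simp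
  · show D.o.A.ψ 0 (D.o.A.e (j + 1)) = _
    rw [D.o.A.bio 0 (by omega) _ (by omega)]; simp
  · show D.o.A.ψ (i + 1) (D.x j) = _
    rw [hex _ j (by omega)]; simp
  · show D.o.A.ψ (i + 1) (D.o.A.e 0) = _
    rw [D.o.A.bio _ (by omega) 0 (by omega)]; simp
  · show D.o.A.ψ (i + 1) (D.o.A.e (j + 1)) = _
    rw [D.o.A.bio _ (by omega) _ (by omega)]
    by_cases h : i = j
    · subst h; simp
    · have h2 : (i : ℕ) ≠ j := fun e => h (Fin.ext e)
      simp [h, h2]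

theorem Dat.delta (D : Dat s k) (v : (Lp ℝ p (volume : Measure ℝ))) :
    D.next.π v - s.π v = ∑ i, D.Ψ i v • D.xx i := by
  rw [Fintype.sum_sum_type, Fintype.sum_sum_type]
  have h1 : ∑ i : Fin D.d, D.Ψ (Sum.inl (Sum.inl i)) v • D.xx (Sum.inl (Sum.inl i)) = Sx p s.a v - s.π v :=
    (D.r1 v).symm
  have h2 : D.P v = D.o.A.ψ 0 v • D.o.A.e 0 + ∑ i : Fin D.o.I, D.o.A.ψ (i + 1) v • D.o.A.e (i + 1) := by
    rw [D.P_apply, Finset.sum_range_succ', add_comm, Finset.sum_range]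
  have h3 : D.next.π v = Sx p s.a v + D.P v := rfl
  have h4 : ∑ i : Unit, D.Ψ (Sum.inl (Sum.inr i)) v • D.xx (Sum.inl (Sum.inr i)) = D.o.A.ψ 0 v • D.o.A.e 0 := by
    rw [Finset.univ_unique, Finset.sum_singleton]
    rfl
  have h5 : ∑ i : Fin D.o.I, D.Ψ (Sum.inr i) v • D.xx (Sum.inr i) =
      ∑ i : Fin D.o.I, D.o.A.ψ (i + 1) v • D.o.A.e (i + 1) := rfl
  rw [h1, h3, h2, h4, h5]
  abel

end H316F
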