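import Pool.Agent.H316R4.Main

open scoped BigOperators Topology ENNReal
open Filter Set MeasureTheory

namespace H316F

variable {p : ℝ≥0∞} [hp1 : Fact (1 ≤ p)]


noncomputable def st0 (hp : p ≠ ⊤) : St p where
  f := nw (p := p) hp one_pos 0
  good := goodF_nw hp one_pos 0
  a := 0
  π := 0
  fin := by
    have h : LinearMap.range ((0 : ((Lp ℝ p (volume : Measure ℝ))) →L[ℝ] ((Lp ℝ p (volume : Measure ℝ)))) : ((Lp ℝ p (volume : Measure ℝ))) →ₗ[ℝ] ((Lp ℝ p (volume : Measure ℝ)))) = ⊥ := by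
      rw [LinearMap.range_eq_bot]; rfl
    rw [h]
    infer_instance
  idem := fun v => rfl
  s1 := fun v => by simp
  s2 := fun v => rfl
  tol := 1
  tpos := one_pos

noncomputable def dat (h1p : 1 < p) (hp : p ≠ ⊤) (s : St p) (k : ℕ) : Dat s k :=
  Classical.choice (dat_nonempty h1p hp s k)

noncomputable def sq (h1p : 1 < p) (hp : p ≠ ⊤) : ℕ → St p
  | 0 => st0 hp
  | k + 1 => (dat h1p hp (sq h1p hp k) k).next

variable (h1p : 1 < p) (hp : p ≠ ⊤)

noncomputable def DD (k : ℕ) : Dat (sq h1p hp k) k := dat h1p hp (sq h1p hp k) k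

theorem sq_succ (k : ℕ) : sq h1p hp (k + 1) = (DD h1p hp k).next := rfl

theorem sq_a (k : ℕ) : (sq h1p hp (k + 1)).a = (DD h1p hp k).o.hi := rfl

theorem a_lt (k : ℕ) : (sq h1p hp k).a < (sq h1p hp (k + 1)).a := (DD h1p hp k).o.hlt

theorem a_mono : StrictMono fun k => (sq h1p hp k).a := strictMono_nat_of_lt_succ (a_lt h1p hp)

theorem π_succ (k : ℕ) (v : (Lp ℝ p (volume : Measure ℝ))) :
    (sq h1p hp (k + 1)).π v = Sx p (sq h1p hp k).a v + (DD h1p hp k).P v := rfl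

theorem π_low {j k : ℕ} (h : j ≤ k) (v : (Lp ℝ p (volume : Measure ℝ))) :
    (sq h1p hp j).π ((sq h1p hp (k + 1)).π v) = (sq h1p hp j).π v := by
  have ha : (sq h1p hp j).a ≤ (sq h1p hp k).a := (a_mono h1p hp).monotone h
  rw [π_succ, map_add, ← (sq h1p hp j).s2 ((DD h1p hp k).P v), (DD h1p hp k).S_P_low ha, map_zero,
    add_zero, ← (sq h1p hp j).s2, Sx_Sx ha, (sq h1p hp j).s2]

theorem π_high {j k : ℕ} (h : j ≤ k) (v : (Lp ℝ p (volume : Measure ℝ))) :
    (sq h1p hp (k + 1)).π ((sq h1p hp j).π v) = (sq h1p hp j).π v := by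
  have ha : (sq h1p hp j).a ≤ (sq h1p hp k).a := (a_mono h1p hp).monotone h
  rw [π_succ, ← (sq h1p hp j).s1 v, Sx_Sx' ha, (DD h1p hp k).P_S_low ha, add_zero]

theorem π_le {j k : ℕ} (h : j ≤ k) (v : (Lp ℝ p (volume : Measure ℝ))) :
    (sq h1p hp j).π ((sq h1p hp k).π v) = (sq h1p hp j).π v := by
  rcases h.eq_or_lt with rfl | h
  · exact (sq h1p hp j).idem v
  · obtain ⟨k, rfl⟩ : ∃ m, k = m + 1 := ⟨k - 1, by omega⟩
    exact π_low h1p hp (by omega) v

theorem π_le' {j k : ℕ} (h : j ≤ k) (v : (Lp ℝ p (volume : Measure ℝ))) :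
    (sq h1p hp k).π ((sq h1p hp j).π v) = (sq h1p hp j).π v := by
  rcases h.eq_or_lt with rfl | h
  · exact (sq h1p hp j).idem v
  · obtain ⟨k, rfl⟩ : ∃ m, k = m + 1 := ⟨k - 1, by omega⟩
    exact π_high h1p hp (by omega) v

noncomputable def Dl (k : ℕ) : ((Lp ℝ p (volume : Measure ℝ))) →L[ℝ] ((Lp ℝ p (volume : Measure ℝ))) := (sq h1p hp (k + 1)).π - (sq h1p hp k).π

theorem Dl_apply (k : ℕ) (v : (Lp ℝ p (volume : Measure ℝ))) : Dl h1p hp k v = (sq h1p hp (k + 1)).π v - (sq h1p hp k).π v := rfl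

theorem Dl_orth (j k : ℕ) (h : j ≠ k) (v : (Lp ℝ p (volume : Measure ℝ))) : Dl h1p hp j (Dl h1p hp k v) = 0 := by
  simp only [Dl_apply, map_sub]
  rcases lt_or_gt_of_ne h with h | h
  · rw [π_le h1p hp (show j + 1 ≤ k + 1 by omega), π_le h1p hp (show j + 1 ≤ k by omega),
      π_le h1p hp (show j ≤ k + 1 by omega), π_le h1p hp (show j ≤ k by omega)]
    abel
  · rw [π_le' h1p hp (show k + 1 ≤ j + 1 by omega), π_le' h1p hp (show k + 1 ≤ j by omega),
      π_le' h1p hp (show k ≤ j + 1 by omega), π_le' h1p hp (show k ≤ j by omega)]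
    abel

theorem Dl_sum (n : ℕ) (v : (Lp ℝ p (volume : Measure ℝ))) : ∑ k ∈ Finset.range n, Dl h1p hp k v = (sq h1p hp n).π v := by
  simp only [Dl_apply]
  rw [Finset.sum_range_sub (fun k => (sq h1p hp k).π v)]
  have : (sq h1p hp 0).π v = 0 := rfl
  rw [this, sub_zero]

theorem π_tendsto (v : (Lp ℝ p (volume : Measure ℝ))) : Tendsto (fun n => (sq h1p hp n).π v) atTop (𝓝 v) := by
  rw [← tendsto_add_atTop_iff_nat 1]
  have h1 : Tendsto (fun n => Sx p (sq h1p hp n).a v) atTop (𝓝 v) :=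
    (Sx_tendsto hp v).comp (a_mono h1p hp).tendsto_atTop
  have h2 : Tendsto (fun n => ‖v - Sx p (sq h1p hp n).a v‖) atTop (𝓝 0) := by
    have := (tendsto_const_nhds (x := v)).sub h1
    rw [sub_self] at this
    simpa using this.norm
  have h3 : Tendsto (fun n => (DD h1p hp n).P v) atTop (𝓝 0) := by
    refine squeeze_zero_norm (fun n => ?_) h2
    have h4 : (DD h1p hp n).P v = (DD h1p hp n).P (v - Sx p (sq h1p hp n).a v) := by
      rw [map_sub, (DD h1p hp n).P_S_low le_rfl, sub_zero]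
    rw [h4]
    exact (DD h1p hp n).P_norm _
  have h5 := h1.add h3
  rw [add_zero] at h5
  exact h5

theorem Dl_tendsto (v : (Lp ℝ p (volume : Measure ℝ))) :
    Tendsto (fun n => ∑ k ∈ Finset.range n, Dl h1p hp k v) atTop (𝓝 v) := by
  simp only [Dl_sum]
  exact π_tendsto h1p hp v

theorem tol_half (k : ℕ) : (sq h1p hp (k + 1)).tol ≤ (sq h1p hp k).tol / 2 := min_le_left _ _

theorem tol_geom (k n : ℕ) : (sq h1p hp (k + n)).tol ≤ (sq h1p hp k).tol / 2 ^ n := by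
  induction n with
  | zero => simp
  | succ n ih =>
    have h1 := tol_half h1p hp (k + n)
    have h2 : (sq h1p hp (k + (n + 1))).tol = (sq h1p hp (k + n + 1)).tol := rfl
    rw [h2]
    calc _ ≤ (sq h1p hp (k + n)).tol / 2 := h1
      _ ≤ ((sq h1p hp k).tol / 2 ^ n) / 2 := by linarith
      _ = _ := by rw [pow_succ]; ring

theorem f_dist (k n : ℕ) : dist ((sq h1p hp (k + n)).f) ((sq h1p hp (k + (n + 1))).f) ≤
    (sq h1p hp k).tol / 2 / 2 ^ n := by
  have h1 : ‖(sq h1p hp (k + n + 1)).f - (sq h1p hp (k + n)).f‖ ≤ (sq h1p hp (k + n)).eps (k + n) :=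
    (DD h1p hp (k + n)).o.close
  have h2 : (sq h1p hp (k + n)).eps (k + n) ≤ (sq h1p hp (k + n)).tol / 2 := min_le_left _ _
  have h3 := tol_geom h1p hp k n
  rw [dist_comm, dist_eq_norm]
  calc _ ≤ (sq h1p hp (k + n)).tol / 2 := h1.trans h2
    _ ≤ ((sq h1p hp k).tol / 2 ^ n) / 2 := by linarith
    _ = _ := by ring

theorem f_lim : ∃ f : (Lp ℝ p (volume : Measure ℝ)), Tendsto (fun k => (sq h1p hp k).f) atTop (𝓝 f) := by
  have h1 : CauchySeq (fun k => (sq h1p hp k).f) := by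
    refine cauchySeq_of_le_geometric_two (C := (sq h1p hp 0).tol) fun n => ?_
    have := f_dist h1p hp 0 n
    simpa using this
  exact cauchySeq_tendsto_of_complete h1

noncomputable def flim : (Lp ℝ p (volume : Measure ℝ)) := (f_lim h1p hp).choose

theorem flim_spec : Tendsto (fun k => (sq h1p hp k).f) atTop (𝓝 (flim h1p hp)) :=
  (f_lim h1p hp).choose_spec

theorem flim_dist (k : ℕ) : ‖flim h1p hp - (sq h1p hp k).f‖ ≤ (sq h1p hp k).tol := by
  have h1 := dist_le_of_le_geometric_two_of_tendsto₀ (f := fun n => (sq h1p hp (k + n)).f)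
    (C := (sq h1p hp k).tol) (fun n => f_dist h1p hp k n) (a := flim h1p hp) (by
      have := (tendsto_add_atTop_iff_nat (f := fun k => (sq h1p hp k).f) k).2 (flim_spec h1p hp)
      simpa only [add_comm k] using this)
  rw [dist_comm, dist_eq_norm] at h1
  exact h1

noncomputable def yy (k : ℕ) : (DD h1p hp k).ι → (Lp ℝ p (volume : Measure ℝ)) :=
  fun i => ∑ j, (DD h1p hp k).o.C i j • Tr ℝ p ((DD h1p hp k).o.l j) (flim h1p hp)

theorem yy_err (k : ℕ) : ∑ i, ‖(DD h1p hp k).Ψ i‖ * ‖yy h1p hp k i - (DD h1p hp k).xx i‖ ≤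
    (1 / 2 : ℝ) ^ (k + 2) := by
  set D := DD h1p hp k with hD
  have h0 : ∑ i, ‖D.Ψ i‖ * ‖(∑ j, D.o.C i j • Tr ℝ p (D.o.l j) D.o.f') - D.xx i‖ ≤ (sq h1p hp k).eps k := D.o.err
  have h1 : ∀ i, ‖yy h1p hp k i - D.xx i‖ ≤ (∑ j, |D.o.C i j|) * (sq h1p hp (k + 1)).tol +
      ‖(∑ j, D.o.C i j • Tr ℝ p (D.o.l j) D.o.f') - D.xx i‖ := by
    intro i
    have h2 : yy h1p hp k i - D.xx i = (∑ j, D.o.C i j • Tr ℝ p (D.o.l j) (flim h1p hp - D.o.f')) +
        ((∑ j, D.o.C i j • Tr ℝ p (D.o.l j) D.o.f') - D.xx i) := by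
      simp only [yy, map_sub, smul_sub, Finset.sum_sub_distrib, ← hD]
      abel
    rw [h2]
    refine (norm_add_le _ _).trans (add_le_add ?_ le_rfl)
    refine (norm_sum_le _ _).trans ?_
    rw [Finset.sum_mul]
    refine Finset.sum_le_sum fun j _ => ?_
    rw [norm_smul, Real.norm_eq_abs, LinearIsometry.norm_map]
    exact mul_le_mul_of_nonneg_left (flim_dist h1p hp (k + 1)) (abs_nonneg _)
  have h3 : (sq h1p hp (k + 1)).tol ≤ (1 / 2) ^ (k + 3) / (D.Lam + 1) := min_le_right _ _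
  have h4 : (sq h1p hp k).eps k ≤ (1 / 2) ^ (k + 3) := min_le_right _ _
  have hL := D.Lam_nonneg
  have h5 : D.Lam * (sq h1p hp (k + 1)).tol ≤ (1 / 2) ^ (k + 3) := by
    calc _ ≤ D.Lam * ((1 / 2) ^ (k + 3) / (D.Lam + 1)) := mul_le_mul_of_nonneg_left h3 hL
      _ = (D.Lam / (D.Lam + 1)) * (1 / 2) ^ (k + 3) := by ring
      _ ≤ 1 * (1 / 2) ^ (k + 3) := by
        refine mul_le_mul_of_nonneg_right ?_ (by positivity)
        rw [div_le_one (by linarith)]; linarith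
      _ = _ := one_mul _
  calc ∑ i, ‖D.Ψ i‖ * ‖yy h1p hp k i - D.xx i‖
      ≤ ∑ i, (‖D.Ψ i‖ * (∑ j, |D.o.C i j|) * (sq h1p hp (k + 1)).tol +
        ‖D.Ψ i‖ * ‖(∑ j, D.o.C i j • Tr ℝ p (D.o.l j) D.o.f') - D.xx i‖) := by
        refine Finset.sum_le_sum fun i _ => ?_
        rw [mul_assoc, ← mul_add]
        exact mul_le_mul_of_nonneg_left (h1 i) (norm_nonneg _)
    _ = D.Lam * (sq h1p hp (k + 1)).tol +
        ∑ i, ‖D.Ψ i‖ * ‖(∑ j, D.o.C i j • Tr ℝ p (D.o.l j) D.o.f') - D.xx i‖ := by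
        rw [Finset.sum_add_distrib, Dat.Lam, Finset.sum_mul]
    _ ≤ (1 / 2) ^ (k + 3) + (1 / 2) ^ (k + 3) := add_le_add h5 (h0.trans h4)
    _ = _ := by rw [show k + 3 = (k + 2) + 1 by ring, pow_succ]; ring

theorem main_fdd : IsFDD ℝ (fun k => Submodule.span ℝ (range fun j : (DD h1p hp k).ι =>
    Tr ℝ p ((DD h1p hp k).o.l j) (flim h1p hp))) := by
  classical
  have h1 := perturb (ι := fun k => (DD h1p hp k).ι) (fun k => (DD h1p hp k).xx)
    (fun k => (DD h1p hp k).Ψ) (Dl h1p hp) (fun k v => (DD h1p hp k).delta v)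
    (fun k i j => (DD h1p hp k).bio i j) (fun j k h v => Dl_orth h1p hp j k h v)
    (Dl_tendsto h1p hp) (yy h1p hp) (fun k => (1 / 2 : ℝ) ^ (k + 2)) (yy_err h1p hp)
    ((summable_nat_add_iff 2).2 summable_geometric_two) (by
      have h2 : ∑' k : ℕ, (1 / 2 : ℝ) ^ (k + 2) = 1 / 2 := by
        simp only [pow_add]
        rw [tsum_mul_right, tsum_geometric_two]
        norm_num
      rw [h2]; norm_num)
  have h3 : ∀ k, Submodule.span ℝ (range (yy h1p hp k)) = Submodule.span ℝ (range fun j : (DD h1p hp k).ι =>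
      Tr ℝ p ((DD h1p hp k).o.l j) (flim h1p hp)) := fun k => (DD h1p hp k).o.hspan _
  simp only [h3] at h1
  exact h1

/-- concatenation of finite lists -/
theorem concat (ι : ℕ → Type) [∀ k, Fintype (ι k)] [∀ k, Nonempty (ι k)] (l : ∀ k, ι k → ℝ) :
    ∃ (lam : ℕ → ℝ) (n : ℕ → ℕ), n 0 = 0 ∧ StrictMono n ∧
      ∀ k, {t : ℝ | ∃ i, n k ≤ i ∧ i < n (k + 1) ∧ lam i = t} = range (l k) := by
  classical
  set m : ℕ → ℕ := fun k => Fintype.card (ι k) with hm
  have hm0 : ∀ k, 0 < m k := fun k => Fintype.card_pos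
  set n : ℕ → ℕ := fun k => ∑ i ∈ Finset.range k, m i with hn
  have hn1 : ∀ k, n (k + 1) = n k + m k := fun k => Finset.sum_range_succ _ _
  have hmono : StrictMono n := strictMono_nat_of_lt_succ fun k => by rw [hn1]; have := hm0 k; omega
  have hn0 : n 0 = 0 := by simp [hn]
  have hex : ∀ t, ∃ k, n k ≤ t ∧ t < n (k + 1) := by
    intro t
    have h1 : ∃ k, t < n (k + 1) := ⟨t, lt_of_lt_of_le (Nat.lt_succ_self t) (hmono.id_le _)⟩
    refine ⟨Nat.find h1, ?_, Nat.find_spec h1⟩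
    by_contra h
    push Not at h
    rcases Nat.eq_zero_or_pos (Nat.find h1) with h0 | h0
    · rw [h0, hn0] at h; omega
    · obtain ⟨r, hr⟩ : ∃ r, Nat.find h1 = r + 1 := ⟨Nat.find h1 - 1, by omega⟩
      exact Nat.find_min h1 (m := r) (by omega) (by rw [hr] at h; exact h)
  choose κ hκ1 hκ2 using hex
  have huniq : ∀ k t, n k ≤ t → t < n (k + 1) → κ t = k := by
    intro k t h1 h2
    have h3 : κ t < k + 1 := hmono.lt_iff_lt.1 (lt_of_le_of_lt (hκ1 t) h2)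
    have h4 : k < κ t + 1 := hmono.lt_iff_lt.1 (lt_of_le_of_lt h1 (hκ2 t))
    omega
  have hlt : ∀ t, t - n (κ t) < Fintype.card (ι (κ t)) := by
    intro t
    have h1 := hκ1 t
    have h2 := hκ2 t
    rw [hn1] at h2
    have h3 : m (κ t) = Fintype.card (ι (κ t)) := rfl
    omega
  refine ⟨fun t => l (κ t) ((Fintype.equivFin (ι (κ t))).symm ⟨t - n (κ t), hlt t⟩), n, hn0, hmono, ?_⟩
  intro k
  ext t
  constructor
  · rintro ⟨i, h1, h2, rfl⟩
    have h3 := huniq k i h1 h2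
    subst h3
    exact ⟨_, rfl⟩
  · rintro ⟨j, rfl⟩
    have hj := (Fintype.equivFin (ι k) j).2
    set i := n k + (Fintype.equivFin (ι k) j : ℕ) with hi
    have h1 : n k ≤ i := by omega
    have h2 : i < n (k + 1) := by
      rw [hn1]
      have h3 : m k = Fintype.card (ι k) := rfl
      omega
    refine ⟨i, h1, h2, ?_⟩
    have h3 : κ i = k := huniq k i h1 h2
    have h4 : ∀ (k' : ℕ) (hk : k' = k) (h : i - n k' < Fintype.card (ι k')),
        l k' ((Fintype.equivFin (ι k')).symm ⟨i - n k', h⟩) = l k j := by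
      rintro k' rfl h
      congr 1
      rw [Equiv.symm_apply_eq]
      ext
      simp [hi]
    exact h4 _ h3 _

include h1p hp in
theorem main_real : ∃ (f : (Lp ℝ p (volume : Measure ℝ))) (lam : ℕ → ℝ) (n : ℕ → ℕ), n 0 = 0 ∧ StrictMono n ∧
    IsFDD ℝ (fun k => Submodule.span ℝ {g : (Lp ℝ p (volume : Measure ℝ)) | ∃ i, n k ≤ i ∧ i < n (k + 1) ∧ g = Tr ℝ p (lam i) f}) := by
  obtain ⟨lam, n, h0, h1, h2⟩ := concat (fun k => (DD h1p hp k).ι) (fun k => (DD h1p hp k).o.l)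
  refine ⟨flim h1p hp, lam, n, h0, h1, ?_⟩
  have h3 := main_fdd h1p hp
  have h4 : ∀ k, {g : (Lp ℝ p (volume : Measure ℝ)) | ∃ i, n k ≤ i ∧ i < n (k + 1) ∧ g = Tr ℝ p (lam i) (flim h1p hp)} =
      range fun j : (DD h1p hp k).ι => Tr ℝ p ((DD h1p hp k).o.l j) (flim h1p hp) := by
    intro k
    have h5 := h2 k
    ext g
    constructor
    · rintro ⟨i, hi1, hi2, rfl⟩
      have h6 : lam i ∈ range (DD h1p hp k).o.l := by rw [← h5]; exact ⟨i, hi1, hi2, rfl⟩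
      obtain ⟨j, hj⟩ := h6
      exact ⟨j, by simp only [hj]⟩
    · rintro ⟨j, rfl⟩
      have h6 : (DD h1p hp k).o.l j ∈ {t : ℝ | ∃ i, n k ≤ i ∧ i < n (k + 1) ∧ lam i = t} := by
        rw [h5]; exact ⟨j, rfl⟩
      obtain ⟨i, hi1, hi2, hi3⟩ := h6
      exact ⟨i, hi1, hi2, by rw [hi3]⟩
  simp only [h4]
  exact h3

end H316F
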