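import Pool.Agent.H316R4.Unc

open scoped BigOperators Topology ENNReal
open Filter Set MeasureTheory

namespace H316F

variable {p : ℝ≥0∞} [hp1 : Fact (1 ≤ p)]

theorem step_norm (hp : p ≠ ⊤) (N : ℕ) (s : Finset ℤ) (c : ℤ → ℝ) :
    ‖∑ j ∈ s, c j • ind p N j‖ ^ p.toReal = ∑ j ∈ s, |c j| ^ p.toReal * (2 ^ N)⁻¹ := by
  rw [disj_sum hp s (fun j => cell N j) (fun i _ j _ h => cell_disj h) _
    (fun j _ => (ind_supp N j).smul _)]
  refine Finset.sum_congr rfl fun j _ => ?_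
  rw [norm_smul, Real.mul_rpow (norm_nonneg _) (norm_nonneg _), ind_norm hp, Real.norm_eq_abs]

theorem TF_step (F : Finset ℕ) (x : Lp ℝ p (volume : Measure ℝ)) :
    ∃ (N : ℕ) (s : Finset ℤ) (c : ℤ → ℝ), TF p F x = ∑ j ∈ s, c j • ind p N j := by
  obtain ⟨N, hN⟩ := F.exists_nat_subset_range
  have h1 : Sx p N (TF p F x) = TF p F x := by
    rw [TF_apply, map_sum]
    refine Finset.sum_congr rfl fun n hn => ?_
    have h2 := Finset.mem_range.1 (hN hn)
    rw [map_sub, Sx_Sx' (by omega), Sx_Sx' (by omega)]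
  rw [← h1, Sx, Ex_apply]
  exact ⟨N, _, _, rfl⟩

theorem TF_lt (hp : p ≠ ⊤) (h1 : 1 < p.toReal) (h2 : p.toReal < 2) : ∃ C : ℝ, 0 ≤ C ∧
    ∀ (F : Finset ℕ) (x : Lp ℝ p (volume : Measure ℝ)), ‖TF p F x‖ ≤ C * ‖x‖ := by
  set q : ℝ≥0∞ := (1 - p⁻¹)⁻¹ with hq
  haveI : Fact (1 ≤ q) := by constructor; simp [hq]
  haveI : ENNReal.HolderConjugate p q := ENNReal.HolderConjugate.inv_one_sub_inv' hp1.out
  have hpq : p.toReal.HolderConjugate q.toReal := ENNReal.HolderConjugate.toReal h1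
  have hP1 : 0 < p.toReal - 1 := by linarith
  have hQ : q.toReal = p.toReal / (p.toReal - 1) := hpq.conjugate_eq
  have hq2 : 2 < q.toReal := by
    rw [hQ, lt_div_iff₀ hP1]; linarith
  have hqt : q ≠ ⊤ := by
    intro h
    rw [h] at hq2
    simp at hq2
    linarith
  obtain ⟨C, hC, hCF⟩ := TF_gt (p := q) hqt hq2
  set B : (Lp ℝ p (volume : Measure ℝ)) →L[ℝ] (Lp ℝ q (volume : Measure ℝ)) →L[ℝ] ℝ :=
    (ContinuousLinearMap.mul ℝ ℝ).lpPairing volume p q with hB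
  have hB1 : ∀ n j y, B (ind p n j) y = cInt q n j y := by
    intro n j y
    rw [hB, ContinuousLinearMap.lpPairing_eq_integral, cInt_apply, ← integral_indicator (cell_meas n j)]
    refine integral_congr_ae ?_
    filter_upwards [ind_coe (p := p) n j] with t ht
    rw [ht]
    by_cases h : t ∈ cell n j
    · simp [h]
    · simp [h]
  have hB2 : ∀ n j x, B x (ind q n j) = cInt p n j x := by
    intro n j x
    rw [hB, ContinuousLinearMap.lpPairing_eq_integral, cInt_apply, ← integral_indicator (cell_meas n j)]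
    refine integral_congr_ae ?_
    filter_upwards [ind_coe (p := q) n j] with t ht
    rw [ht]
    by_cases h : t ∈ cell n j
    · simp [h]
    · simp [h]
  have hBs : ∀ (s : Finset ℤ) (c : ℤ → ℝ) (u : ℤ → Lp ℝ p (volume : Measure ℝ)) y,
      B (∑ j ∈ s, c j • u j) y = ∑ j ∈ s, c j * B (u j) y := by
    intro s c u y
    rw [← ContinuousLinearMap.flip_apply, map_sum]
    simp
  have hBt : ∀ (s : Finset ℤ) (c : ℤ → ℝ) (u : ℤ → Lp ℝ q (volume : Measure ℝ)) x,
      B x (∑ j ∈ s, c j • u j) = ∑ j ∈ s, c j * B x (u j) := by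
    intro s c u x
    rw [map_sum]
    simp
  have hS : ∀ n x y, B (Sx p n x) y = B x (Sx q n y) := by
    intro n x y
    rw [Sx, Sx, Ex_apply, Ex_apply, hBs, hBt]
    refine Finset.sum_congr rfl fun j _ => ?_
    rw [hB1, hB2]
    ring
  have hT : ∀ F x y, B (TF p F x) y = B x (TF q F y) := by
    intro F x y
    rw [TF_apply, TF_apply, map_sum, map_sum]
    simp only [ContinuousLinearMap.coe_sum', Finset.sum_apply]
    refine Finset.sum_congr rfl fun n _ => ?_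
    rw [map_sub, map_sub, ← hS, ← hS]
    rfl
  refine ⟨‖B‖ * C, by positivity, fun F x => ?_⟩
  obtain ⟨N, s, c, hz⟩ := TF_step F x
  set P := p.toReal with hP
  set Q := q.toReal with hQ'
  set d : ℤ → ℝ := fun j => if 0 ≤ c j then |c j| ^ (P - 1) else -|c j| ^ (P - 1) with hd
  have hd1 : ∀ j, |d j| = |c j| ^ (P - 1) := by
    intro j
    have : 0 ≤ |c j| ^ (P - 1) := by positivity
    simp only [hd]
    split_ifs
    · exact abs_of_nonneg this
    · rw [abs_neg]; exact abs_of_nonneg this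
  have hcp : ∀ j, |c j| * |c j| ^ (P - 1) = |c j| ^ P := by
    intro j
    rcases (abs_nonneg (c j)).eq_or_lt with h | h
    · rw [← h, Real.zero_rpow hP1.ne', Real.zero_rpow (by linarith)]; simp
    · rw [← Real.rpow_one_add' h.le (by linarith)]
      congr 1; ring
  have hd2 : ∀ j, c j * d j = |c j| ^ P := by
    intro j
    rw [← hcp j]
    simp only [hd]
    split_ifs with h
    · rw [abs_of_nonneg h]
    · rw [abs_of_neg (not_le.1 h)]; ring
  have hd3 : ∀ j, |d j| ^ Q = |c j| ^ P := by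
    intro j
    rw [hd1, ← Real.rpow_mul (abs_nonneg _)]
    congr 1
    rw [hQ]; field_simp
  set y : Lp ℝ q (volume : Measure ℝ) := ∑ j ∈ s, d j • ind q N j with hy
  set z : Lp ℝ p (volume : Measure ℝ) := TF p F x with hzz
  have hzn : ‖z‖ ^ P = ∑ j ∈ s, |c j| ^ P * (2 ^ N)⁻¹ := by rw [hz, step_norm hp]
  have hyn : ‖y‖ ^ Q = ‖z‖ ^ P := by
    rw [hzn, hy, step_norm hqt]
    exact Finset.sum_congr rfl fun j _ => by rw [hd3]
  have hBz : B z y = ‖z‖ ^ P := by
    rw [hzn, hz, hBs]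
    refine Finset.sum_congr rfl fun j hj => ?_
    rw [hB1, hy, map_sum]
    simp only [map_smul, cInt_ind, smul_eq_mul, mul_ite, mul_zero]
    rw [Finset.sum_ite_eq, if_pos hj, ← hd2]
    ring
  have hPQ : P / Q = P - 1 := by
    rw [hQ]; field_simp
  have hyn' : ‖y‖ = ‖z‖ ^ (P - 1) := by
    have hQ0 : 0 < Q := by linarith
    have h3 : ‖y‖ = (‖y‖ ^ Q) ^ (1 / Q) := by
      rw [← Real.rpow_mul (norm_nonneg _), mul_one_div_cancel hQ0.ne', Real.rpow_one]
    rw [h3, hyn, ← Real.rpow_mul (norm_nonneg _), mul_one_div, hPQ]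
  have hmain : ‖z‖ ^ P ≤ ‖B‖ * ‖x‖ * (C * ‖z‖ ^ (P - 1)) := by
    rw [← hBz, hzz, hT, ← hzz, ← hyn']
    calc B x (TF q F y) ≤ ‖B x (TF q F y)‖ := Real.le_norm_self _
      _ ≤ ‖B‖ * ‖x‖ * ‖TF q F y‖ := B.le_opNorm₂ _ _
      _ ≤ _ := mul_le_mul_of_nonneg_left (hCF F y) (by positivity)
  rcases (norm_nonneg z).eq_or_lt with h0 | h0
  · rw [← h0]; positivity
  · have h3 : ‖z‖ ^ P = ‖z‖ * ‖z‖ ^ (P - 1) := by
      rw [← Real.rpow_one_add' h0.le (by linarith)]
      congr 1; ring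
    have h4 : 0 < ‖z‖ ^ (P - 1) := by positivity
    rw [h3] at hmain
    refine le_of_mul_le_mul_right ?_ h4
    calc _ ≤ ‖B‖ * ‖x‖ * (C * ‖z‖ ^ (P - 1)) := hmain
      _ = _ := by ring

/-- all exponents -/
theorem TF_all (hp : p ≠ ⊤) (h1p : 1 < p) : ∃ C : ℝ, 0 ≤ C ∧
    ∀ (F : Finset ℕ) (x : Lp ℝ p (volume : Measure ℝ)), ‖TF p F x‖ ≤ C * ‖x‖ := by
  have h1 : 1 < p.toReal := by
    have := (ENNReal.toReal_lt_toReal (by norm_num) hp).2 h1p
    simpa using this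
  rcases lt_trichotomy p.toReal 2 with h | h | h
  · exact TF_lt hp h1 h
  · have h2 : p = 2 := by
      rw [← ENNReal.ofReal_toReal hp, h]; norm_num
    subst h2
    exact ⟨1, zero_le_one, fun F x => by rw [one_mul]; exact TF_two F x⟩
  · exact TF_gt hp h

/-- block version -/
theorem TF_block (hp : p ≠ ⊤) (h1p : 1 < p) : ∃ C : ℝ, 0 ≤ C ∧
    ∀ (a : ℕ → ℕ), StrictMono a → ∀ (F : Finset ℕ) (x : Lp ℝ p (volume : Measure ℝ)),
      ‖∑ k ∈ F, (Sx p (a (k + 1)) x - Sx p (a k) x)‖ ≤ C * ‖x‖ := by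
  classical
  obtain ⟨C, hC, h⟩ := TF_all hp h1p
  refine ⟨C, hC, fun a ha F x => ?_⟩
  have h2 := h (F.biUnion fun k => Finset.Ico (a k) (a (k + 1))) x
  have hdisj : (F : Set ℕ).PairwiseDisjoint fun k => Finset.Ico (a k) (a (k + 1)) := by
    intro i _ j _ hij
    rw [Function.onFun, Finset.disjoint_left]
    intro t ht1 ht2
    rw [Finset.mem_Ico] at ht1 ht2
    rcases lt_or_gt_of_ne hij with h | h
    · have := ha.monotone (Nat.succ_le_of_lt h)
      have h3 : a (i + 1) ≤ a j := this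
      omega
    · have h3 : a (j + 1) ≤ a i := ha.monotone (Nat.succ_le_of_lt h)
      omega
  rw [TF_apply, Finset.sum_biUnion hdisj] at h2
  have h3 : ∀ k, ∑ n ∈ Finset.Ico (a k) (a (k + 1)), (Sx p (n + 1) x - Sx p n x) =
      Sx p (a (k + 1)) x - Sx p (a k) x := fun k =>
    Finset.sum_Ico_sub (fun n => Sx p n x) (ha.monotone (Nat.le_succ k))
  simp only [h3] at h2
  exact h2

end H316F
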