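import Pool.Agent.H316R4.Cplx
import Pool.Agent.H316R4.Fdd2
import Pool.Agent.H316R4.Unc2

open scoped BigOperators Topology ENNReal
open Filter Set MeasureTheory

namespace H316F

variable {p : ℝ≥0∞} [hp1 : Fact (1 ≤ p)]

theorem Dat.P_supp {s : St p} {k : ℕ} (D : Dat s k) (v : Lp ℝ p (volume : Measure ℝ)) :
    SuppOn (An s.a D.o.hi) (D.P v) := by
  rw [D.P_apply]
  exact SuppOn.sum fun i hi => (D.o.A.supp i (Finset.mem_range.1 hi)).smul _

theorem Dat.P_norm' {s : St p} {k : ℕ} (D : Dat s k) (v : Lp ℝ p (volume : Measure ℝ)) :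
    ‖D.P v‖ ^ p.toReal ≤ ∫ t in An s.a D.o.hi, |v t| ^ p.toReal := by
  rw [D.P_apply]
  exact D.o.A.bd' v

variable (h1p : 1 < p) (hp : p ≠ ⊤)

theorem P_sum (F : Finset ℕ) (v : Lp ℝ p (volume : Measure ℝ)) :
    ‖∑ k ∈ F, (DD h1p hp k).P v‖ ≤ ‖v‖ := by
  apply norm_le_of_rpow hp (norm_nonneg _)
  have hd : ∀ i ∈ F, ∀ j ∈ F, i ≠ j → Disjoint (An (sq h1p hp i).a (sq h1p hp (i + 1)).a)
      (An (sq h1p hp j).a (sq h1p hp (j + 1)).a) := fun i _ j _ h =>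
    An_disj (fun k => (sq h1p hp k).a) (a_mono h1p hp).monotone h
  rw [disj_sum hp F (fun k => An (sq h1p hp k).a (sq h1p hp (k + 1)).a) hd _
    (fun k _ => (DD h1p hp k).P_supp v)]
  exact (Finset.sum_le_sum fun k _ => (DD h1p hp k).P_norm' v).trans
    (sum_setInt_le hp F (fun k => An (sq h1p hp k).a (sq h1p hp (k + 1)).a) hd
      (fun _ _ => An_meas _ _) v)

theorem sum_shift {M : Type*} [AddCommMonoid M] (F : Finset ℕ) (h : ℕ → M) :
    ∃ F' : Finset ℕ, ∑ k ∈ F, h k = (if 0 ∈ F then h 0 else 0) + ∑ k ∈ F', h (k + 1) ∧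
      ∀ k, k ∈ F' ↔ k + 1 ∈ F := by
  classical
  obtain ⟨N, hN⟩ := F.exists_nat_subset_range
  refine ⟨(Finset.range N).filter fun k => k + 1 ∈ F, ?_, ?_⟩
  · have h1 : ∑ k ∈ F, h k = ∑ k ∈ Finset.range (N + 1), if k ∈ F then h k else 0 := by
      rw [← Finset.sum_filter]
      refine Finset.sum_congr ?_ fun _ _ => rfl
      ext k
      simp only [Finset.mem_filter, Finset.mem_range]
      constructor
      · intro hk
        exact ⟨by have := Finset.mem_range.1 (hN hk); omega, hk⟩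
      · exact fun hk => hk.2
    rw [h1, Finset.sum_range_succ', add_comm, Finset.sum_filter]
  · intro k
    simp only [Finset.mem_filter, Finset.mem_range]
    constructor
    · exact fun hk => hk.2
    · intro hk
      exact ⟨by have := Finset.mem_range.1 (hN hk); omega, hk⟩

theorem Dl_bdd : ∃ C : ℝ, ∀ (F : Finset ℕ) (v : Lp ℝ p (volume : Measure ℝ)),
    ‖∑ k ∈ F, Dl h1p hp k v‖ ≤ C * ‖v‖ := by
  obtain ⟨C, hC, hb⟩ := TF_block (p := p) hp h1p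
  refine ⟨3 + C, fun F v => ?_⟩
  obtain ⟨F', hF', -⟩ := sum_shift F fun k => Dl h1p hp k v
  have h0 : Dl h1p hp 0 v = Sx p (sq h1p hp 0).a v + (DD h1p hp 0).P v := by
    rw [Dl_apply, π_succ]
    have : (sq h1p hp 0).π v = 0 := rfl
    rw [this, sub_zero]
  have h1 : ∀ k, Dl h1p hp (k + 1) v =
      (Sx p (sq h1p hp (k + 1)).a v - Sx p (sq h1p hp k).a v) + (DD h1p hp (k + 1)).P v -
        (DD h1p hp k).P v := by
    intro k
    rw [Dl_apply, π_succ, π_succ]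
    abel
  have hS0 : ‖Sx p (sq h1p hp 0).a v‖ ≤ ‖v‖ := Ex_le hp _ _ v
  have hn := norm_nonneg v
  have h2 : ‖∑ k ∈ F', (Sx p (sq h1p hp (k + 1)).a v - Sx p (sq h1p hp k).a v)‖ ≤ C * ‖v‖ :=
    hb (fun k => (sq h1p hp k).a) (a_mono h1p hp) F' v
  have h4 : ‖∑ k ∈ F', (DD h1p hp k).P v‖ ≤ ‖v‖ := P_sum h1p hp F' v
  have h5 : ‖∑ k ∈ F, (DD h1p hp k).P v‖ ≤ ‖v‖ := P_sum h1p hp F v
  obtain ⟨F'', hF'', hmem''⟩ := sum_shift F fun k => (DD h1p hp k).P v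
  obtain ⟨F3, hF3, hmem3⟩ := sum_shift F fun k => Dl h1p hp k v
  have hFF : F'' = F3 := by ext k; rw [hmem'', hmem3]
  subst hFF
  have h2 : ‖∑ k ∈ F'', (Sx p (sq h1p hp (k + 1)).a v - Sx p (sq h1p hp k).a v)‖ ≤ C * ‖v‖ :=
    hb (fun k => (sq h1p hp k).a) (a_mono h1p hp) F'' v
  have h4 : ‖∑ k ∈ F'', (DD h1p hp k).P v‖ ≤ ‖v‖ := P_sum h1p hp F'' v
  have key : ∑ k ∈ F, Dl h1p hp k v = (if 0 ∈ F then Sx p (sq h1p hp 0).a v else 0) +
      ∑ k ∈ F'', (Sx p (sq h1p hp (k + 1)).a v - Sx p (sq h1p hp k).a v) +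
      ∑ k ∈ F, (DD h1p hp k).P v - ∑ k ∈ F'', (DD h1p hp k).P v := by
    rw [hF3, hF'']
    simp only [h1]
    rw [Finset.sum_sub_distrib, Finset.sum_add_distrib, h0]
    split_ifs
    · abel
    · abel
  rw [key]
  have h6 : ‖(if 0 ∈ F then Sx p (sq h1p hp 0).a v else 0)‖ ≤ ‖v‖ := by
    split_ifs
    · exact hS0
    · simp
  calc _ ≤ ‖(if 0 ∈ F then Sx p (sq h1p hp 0).a v else 0) +
      ∑ k ∈ F'', (Sx p (sq h1p hp (k + 1)).a v - Sx p (sq h1p hp k).a v) +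
      ∑ k ∈ F, (DD h1p hp k).P v‖ + ‖∑ k ∈ F'', (DD h1p hp k).P v‖ := norm_sub_le _ _
    _ ≤ (‖(if 0 ∈ F then Sx p (sq h1p hp 0).a v else 0)‖ +
      ‖∑ k ∈ F'', (Sx p (sq h1p hp (k + 1)).a v - Sx p (sq h1p hp k).a v)‖ +
      ‖∑ k ∈ F, (DD h1p hp k).P v‖) + ‖∑ k ∈ F'', (DD h1p hp k).P v‖ := by
        gcongr
        exact norm_add₃_le
    _ ≤ _ := by linarith

theorem Dl_Dl (k : ℕ) (v : Lp ℝ p (volume : Measure ℝ)) : Dl h1p hp k (Dl h1p hp k v) = Dl h1p hp k v := by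
  simp only [Dl_apply, map_sub]
  rw [π_le h1p hp (le_refl (k + 1)), π_le h1p hp (Nat.le_succ k), π_le' h1p hp (Nat.le_succ k),
    π_le h1p hp (le_refl k)]
  abel

theorem Dl_hasSum (v : Lp ℝ p (volume : Measure ℝ)) : HasSum (fun k => Dl h1p hp k v) v := by
  obtain ⟨C, hC⟩ := Dl_bdd h1p hp
  exact Pool.Agent.H296R4.hasSum_of_bdd (Dl h1p hp) C hC (Dl_Dl h1p hp)
    (fun j k x h => Dl_orth h1p hp j k h x) (Dl_tendsto h1p hp) v

theorem main_ufdd : IsUncFDD ℝ (fun k => Submodule.span ℝ (range fun j : (DD h1p hp k).ι =>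
    Tr ℝ p ((DD h1p hp k).o.l j) (flim h1p hp))) := by
  classical
  have h1 := perturbU (ι := fun k => (DD h1p hp k).ι) (fun k => (DD h1p hp k).xx)
    (fun k => (DD h1p hp k).Ψ) (Dl h1p hp) (fun k v => (DD h1p hp k).delta v)
    (fun k i j => (DD h1p hp k).bio i j) (fun j k h v => Dl_orth h1p hp j k h v)
    (Dl_hasSum h1p hp) (yy h1p hp) (fun k => (1 / 2 : ℝ) ^ (k + 2)) (yy_err h1p hp)
    ((summable_nat_add_iff 2).2 summable_geometric_two) (by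
      have h2 : ∑' k : ℕ, (1 / 2 : ℝ) ^ (k + 2) = 1 / 2 := by
        simp only [pow_add]
        rw [tsum_mul_right, tsum_geometric_two]
        norm_num
      rw [h2]; norm_num)
  have h3 : ∀ k, Submodule.span ℝ (range (yy h1p hp k)) = Submodule.span ℝ (range fun j : (DD h1p hp k).ι =>
      Tr ℝ p ((DD h1p hp k).o.l j) (flim h1p hp)) := fun k => (DD h1p hp k).o.hspan _
  simp only [h3] at h1
  exact h1

include h1p hp in
theorem main_realU : ∃ (f : Lp ℝ p (volume : Measure ℝ)) (lam : ℕ → ℝ) (n : ℕ → ℕ),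
    n 0 = 0 ∧ StrictMono n ∧ IsUncFDD ℝ (blk ℝ p f lam n) := by
  obtain ⟨lam, n, h0, h1, h2⟩ := concat (fun k => (DD h1p hp k).ι) (fun k => (DD h1p hp k).o.l)
  refine ⟨flim h1p hp, lam, n, h0, h1, ?_⟩
  have h3 := main_ufdd h1p hp
  have h4 : blk ℝ p (flim h1p hp) lam n = fun k => Submodule.span ℝ (range fun j : (DD h1p hp k).ι =>
      Tr ℝ p ((DD h1p hp k).o.l j) (flim h1p hp)) := by
    funext k
    have h5 := h2 k
    unfold blk
    congr 1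
    ext g
    constructor
    · rintro ⟨i, hi1, hi2, rfl⟩
      have h6 : lam i ∈ range (DD h1p hp k).o.l := by rw [← h5]; exact ⟨i, hi1, hi2, rfl⟩
      obtain ⟨j, hj⟩ := h6
      exact ⟨j, by simp only [hj]⟩
    · rintro ⟨j, rfl⟩
      have h6 : (DD h1p hp k).o.l j ∈ {t : ℝ | ∃ i, n k ≤ i ∧ i < n (k + 1) ∧ lam i = t} := by
        rw [h5]; exact ⟨j, rfl⟩
      obtain ⟨i, hi1, hi2, hi3⟩ := h6
      exact ⟨i, hi1, hi2, by rw [hi3]⟩
  rw [h4]
  exact h3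

theorem cplx_ufdd (G : ℕ → Set (Lp ℝ p (volume : Measure ℝ))) (hfin : ∀ k, (G k).Finite)
    (hG : IsUncFDD ℝ fun k => Submodule.span ℝ (G k)) :
    IsUncFDD ℂ fun k => Submodule.span ℂ (toC '' (G k)) := by
  refine ⟨cplx_fdd G hfin hG.1, fun x u hu hux => ?_⟩
  have h1 : HasSum (fun k => reP (u k)) (reP x) := hG.2 _ _ (fun k => (span_CR _ (hu k)).1) (by
    have := (reP.continuous.tendsto _).comp hux
    refine this.congr fun n => ?_
    simp)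
  have h2 : HasSum (fun k => imP (u k)) (imP x) := hG.2 _ _ (fun k => (span_CR _ (hu k)).2) (by
    have := (imP.continuous.tendsto _).comp hux
    refine this.congr fun n => ?_
    simp)
  have h3 : HasSum (fun k => toC (reP (u k))) (toC (reP x)) := toC.hasSum h1
  have h4 : HasSum (fun k => toC (imP (u k))) (toC (imP x)) := toC.hasSum h2
  have h5 := h3.add (h4.const_smul Complex.I)
  simp only [decomp] at h5
  exact h5

theorem main_bothU (h1p : 1 < p) (hp : p ≠ ⊤) : ∃ (f : Lp ℝ p (volume : Measure ℝ)) (lam : ℕ → ℝ)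
    (n : ℕ → ℕ), n 0 = 0 ∧ StrictMono n ∧
    IsUncFDD ℝ (blk ℝ p f lam n) ∧ IsUncFDD ℂ (blk ℂ p (toC f) lam n) := by
  obtain ⟨f, lam, n, h0, h1, h2⟩ := main_realU h1p hp
  refine ⟨f, lam, n, h0, h1, h2, ?_⟩
  have h3 := cplx_ufdd (fun k => {g : Lp ℝ p (volume : Measure ℝ) | ∃ i, n k ≤ i ∧ i < n (k + 1) ∧ g = Tr ℝ p (lam i) f})
    (fun k => by
      refine ((Set.finite_lt_nat (n (k + 1))).image fun i => Tr ℝ p (lam i) f).subset ?_
      rintro _ ⟨i, hi1, hi2, rfl⟩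
      exact ⟨i, hi2, rfl⟩) h2
  have h4 : ∀ k, toC '' {g : Lp ℝ p (volume : Measure ℝ) | ∃ i, n k ≤ i ∧ i < n (k + 1) ∧ g = Tr ℝ p (lam i) f} =
      {g : Lp ℂ p (volume : Measure ℝ) | ∃ i, n k ≤ i ∧ i < n (k + 1) ∧ g = Tr ℂ p (lam i) (toC f)} := by
    intro k
    ext g
    constructor
    · rintro ⟨_, ⟨i, hi1, hi2, rfl⟩, rfl⟩
      exact ⟨i, hi1, hi2, toC_Tr _ _⟩
    · rintro ⟨i, hi1, hi2, rfl⟩
      exact ⟨_, ⟨i, hi1, hi2, rfl⟩, toC_Tr _ _⟩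
  simp only [h4] at h3
  exact h3

end H316F
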