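import Pool.Agent.H316R4.Annuli
import Pool.Agent.H316R4.Approx2
import Pool.Agent.H316R4.Freq

open scoped BigOperators Topology ENNReal
open Filter Set MeasureTheory

namespace H316F

variable {p : ℝ≥0∞} [hp1 : Fact (1 ≤ p)]


theorem nw_ne (hp : p ≠ ⊤) {b : ℝ} (hb : 0 < b) (τ : ℝ) :
    ((2 : ℝ)⁻¹ ^ rr p * cq p) ^ (1 / p.toReal) ≤ ‖nw (p := p) hp hb τ‖ := by
  have hq := q_ge (p := p) hp
  have hcq : 0 ≤ cq p := Real.sqrt_nonneg _
  apply norm_le_of_rpow hp (norm_nonneg _)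
  rw [← Real.rpow_mul (by positivity), one_div, inv_mul_cancel₀ (by linarith), Real.rpow_one]
  exact nw_low hp hb τ

theorem cq_pos (hp : p ≠ ⊤) : 0 < cq p := by
  have hq := q_ge (p := p) hp
  exact Real.sqrt_pos.2 (by positivity)

theorem lo_pos (hp : p ≠ ⊤) : 0 < ((2 : ℝ)⁻¹ ^ rr p * cq p) ^ (1 / p.toReal) := by
  have := cq_pos (p := p) hp
  positivity

theorem GoodF.ne_zero (h1p : 1 < p) (hp : p ≠ ⊤) {f : (Lp ℝ p (volume : Measure ℝ))} (hf : GoodF f) : f ≠ 0 := by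
  intro h0
  have h1 : nw (p := p) hp one_pos 0 ≠ 0 := by
    intro h
    have h2 := nw_ne (p := p) hp one_pos 0
    rw [h, norm_zero] at h2
    exact absurd h2 (not_le.2 (lo_pos hp))
  obtain ⟨g, hg1, hg2⟩ := exists_dual_vector ℝ _ (norm_ne_zero_iff.2 h1)
  have h3 := hf.cyc h1p hp g 0 (fun a => by rw [h0]; simp)
  rw [h3] at hg1
  simp at hg1

theorem GoodF.add_sum {f : (Lp ℝ p (volume : Measure ℝ))} (hf : GoodF f) (g : ℕ → (Lp ℝ p (volume : Measure ℝ))) (hg : ∀ i, GoodF (g i)) (n : ℕ) :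
    GoodF (f + ∑ i ∈ Finset.range n, g i) := by
  induction n with
  | zero => simpa using hf
  | succ n ih =>
    rw [Finset.sum_range_succ, ← add_assoc]
    exact ih.add (hg n)

/-- the output of one step -/
structure StepOut (p : ℝ≥0∞) [Fact (1 ≤ p)] (f : (Lp ℝ p (volume : Measure ℝ))) (a d : ℕ) (x : Fin d → (Lp ℝ p (volume : Measure ℝ)))
    (ψ : Fin d → ((Lp ℝ p (volume : Measure ℝ))) →L[ℝ] ℝ) (ε : ℝ) where
  f' : (Lp ℝ p (volume : Measure ℝ))
  good : GoodF f'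
  close : ‖f' - f‖ ≤ ε
  hi : ℕ
  hlt : a < hi
  I : ℕ
  A : Ann p a hi (I + 1)
  l : ((Fin d ⊕ Unit) ⊕ Fin I) → ℝ
  C : ((Fin d ⊕ Unit) ⊕ Fin I) → ((Fin d ⊕ Unit) ⊕ Fin I) → ℝ
  hspan : ∀ v : ((Fin d ⊕ Unit) ⊕ Fin I) → (Lp ℝ p (volume : Measure ℝ)),
    Submodule.span ℝ (range fun i => ∑ j, C i j • v j) = Submodule.span ℝ (range v)
  err : ∑ i, ‖(Sum.elim (Sum.elim ψ (fun _ => A.ψ 0)) (fun i : Fin I => A.ψ (i + 1)) :
      ((Fin d ⊕ Unit) ⊕ Fin I) → ((Lp ℝ p (volume : Measure ℝ))) →L[ℝ] ℝ) i‖ *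
    ‖(∑ j, C i j • Tr ℝ p (l j) f') -
      (Sum.elim (Sum.elim x (fun _ => A.e 0)) (fun i : Fin I => A.e (i + 1)) :
      ((Fin d ⊕ Unit) ⊕ Fin I) → (Lp ℝ p (volume : Measure ℝ))) i‖ ≤ ε

theorem span_lemma {V : Type*} [AddCommGroup V] [Module ℝ V] {κ ι : Type*} [Fintype κ] [DecidableEq κ]
    [Fintype ι] (π : ι ≃ (κ → Bool)) (coef : ι → ℝ) (hc : ∀ i, coef i ≠ 0) (v : ι → V) :
    Submodule.span ℝ (range fun i => ∑ j, (coef i * ws (π i) (π j)) • v j) =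
      Submodule.span ℝ (range v) := by
  apply le_antisymm
  · rw [Submodule.span_le]
    rintro _ ⟨i, rfl⟩
    exact Submodule.sum_mem _ fun j _ => Submodule.smul_mem _ _ (Submodule.subset_span ⟨j, rfl⟩)
  · rw [Submodule.span_le]
    rintro _ ⟨j, rfl⟩
    have h1 := ws_inv (fun s => v (π.symm s)) (π j)
    rw [π.symm_apply_apply] at h1
    have h2 : (2 : ℝ) ^ Fintype.card κ ≠ 0 := by positivity
    have h3 : v j = ((2 : ℝ) ^ Fintype.card κ)⁻¹ • ∑ S, ws S (π j) • ∑ j', ws S j' • v (π.symm j') := by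
      rw [h1, smul_smul, inv_mul_cancel₀ h2, one_smul]
    rw [h3]
    refine Submodule.smul_mem _ _ (Submodule.sum_mem _ fun S _ => Submodule.smul_mem _ _ ?_)
    have h4 : ∑ j', ws S j' • v (π.symm j') =
        (coef (π.symm S))⁻¹ • ∑ i, (coef (π.symm S) * ws (π (π.symm S)) (π i)) • v i := by
      rw [Finset.smul_sum, ← Equiv.sum_comp π (fun j' => ws S j' • v (π.symm j'))]
      refine Finset.sum_congr rfl fun i _ => ?_
      rw [π.symm_apply_apply, π.apply_symm_apply, smul_smul, ← mul_assoc, inv_mul_cancel₀ (hc _), one_mul]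
    rw [h4]
    exact Submodule.smul_mem _ _ (Submodule.subset_span ⟨π.symm S, rfl⟩)

/-- the row estimate -/
theorem row {E J : Type*} [NormedAddCommGroup E] [NormedSpace ℝ E] [Fintype J] (I : ℕ) (w : J → ℝ)
    (v : J → E) (Tφ : J → ℕ → E) (φ : ℕ → E) (s : ℕ → J → ℝ) (η θ : ℝ) (hη : 0 ≤ η)
    (hD : ∀ j, ∀ i < I, ‖Tφ j i - s i j • φ i‖ ≤ θ) :
    ‖∑ j, w j • (v j + η • ∑ i ∈ Finset.range I, Tφ j i) -
      (∑ j, w j • v j + η • ∑ i ∈ Finset.range I, (∑ j, w j * s i j) • φ i)‖ ≤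
      η * (∑ j, |w j|) * I * θ := by
  have e1 : ∑ j, w j • (v j + η • ∑ i ∈ Finset.range I, Tφ j i) -
      (∑ j, w j • v j + η • ∑ i ∈ Finset.range I, (∑ j, w j * s i j) • φ i) =
      η • ∑ j, w j • ∑ i ∈ Finset.range I, (Tφ j i - s i j • φ i) := by
    simp only [smul_add, Finset.sum_add_distrib, add_sub_add_left_eq_sub]
    have e2 : ∑ j, w j • η • ∑ i ∈ Finset.range I, Tφ j i = η • ∑ j, w j • ∑ i ∈ Finset.range I, Tφ j i := by
      rw [Finset.smul_sum]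
      exact Finset.sum_congr rfl fun j _ => smul_comm _ _ _
    have e3 : ∑ i ∈ Finset.range I, (∑ j, w j * s i j) • φ i = ∑ j, w j • ∑ i ∈ Finset.range I, s i j • φ i := by
      simp only [Finset.smul_sum, smul_smul, Finset.sum_smul]
      exact Finset.sum_comm
    rw [e2, e3, ← smul_sub, ← Finset.sum_sub_distrib]
    congr 1
    refine Finset.sum_congr rfl fun j _ => ?_
    rw [← smul_sub, ← Finset.sum_sub_distrib]
  rw [e1, norm_smul, Real.norm_of_nonneg hη, mul_assoc, mul_assoc]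
  refine mul_le_mul_of_nonneg_left ?_ hη
  refine (norm_sum_le _ _).trans ?_
  rw [Finset.sum_mul]
  refine Finset.sum_le_sum fun j _ => ?_
  rw [norm_smul, Real.norm_eq_abs]
  refine mul_le_mul_of_nonneg_left ?_ (abs_nonneg _)
  refine (norm_sum_le _ _).trans ?_
  refine (Finset.sum_le_sum fun i hi => hD j i (Finset.mem_range.1 hi)).trans (le_of_eq ?_)
  simp

end H316F
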