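import Pool.Agent.H316R4.Step

open scoped BigOperators Topology ENNReal
open Filter Set MeasureTheory

namespace H316F

variable {p : ℝ≥0∞} [hp1 : Fact (1 ≤ p)]


theorem step (h1p : 1 < p) (hp : p ≠ ⊤) {f : (Lp ℝ p (volume : Measure ℝ))} (hf : GoodF f) (a d : ℕ) (x : Fin d → (Lp ℝ p (volume : Measure ℝ)))
    (ψ : Fin d → ((Lp ℝ p (volume : Measure ℝ))) →L[ℝ] ℝ) (ε : ℝ) (hε : 0 < ε) : Nonempty (StepOut p f a d x ψ ε) := by
  classical
  have hq := q_ge (p := p) hp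
  have hq0 : 0 < p.toReal := by linarith
  have hf0 : 0 < ‖f‖ := norm_pos_iff.2 (hf.ne_zero h1p hp)
  set lo : ℝ := ((2 : ℝ)⁻¹ ^ rr p * cq p) ^ (1 / p.toReal) with hlo
  have hlo0 : 0 < lo := lo_pos hp
  set up : ℝ := (cq p) ^ (1 / p.toReal) with hup
  have hup0 : 0 < up := by have := cq_pos (p := p) hp; positivity
  set Kψ : ℝ := ∑ r, ‖ψ r‖ with hKψ
  have hKψ0 : 0 ≤ Kψ := Finset.sum_nonneg fun _ _ => norm_nonneg _
  set εh : ℝ := ε / 3 / (Kψ + 1) with hεh
  have hεh0 : 0 < εh := by positivity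
  set εg : ℝ := ε / 3 * (‖f‖ / 2) with hεg
  have hεg0 : 0 < εg := by positivity
  -- choice of N
  set tg : ℝ := min (‖f‖ / 2) (εg / 3) with htg
  have htg0 : 0 < tg := lt_min (by positivity) (by positivity)
  obtain ⟨N, hN⟩ := far_small hp f a ((tg / 2) ^ p.toReal) (by positivity)
  have hN' := hN N le_rfl
  obtain ⟨n0, hn0⟩ := ann_approx hp (Tr ℝ p N f) a (tg / 2) (by positivity) hN'
  set μ1 := max n0 (a + 1) with hμ1
  have hg1 : ‖Pj p a μ1 (Tr ℝ p N f) - Tr ℝ p N f‖ ≤ tg := by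
    have := hn0 μ1 (le_max_left _ _); linarith
  -- the approximation
  obtain ⟨a0, happ⟩ := approx h1p hp hf N d x (εh / 3) (by positivity)
  -- Walsh set-up
  let enc : (Fin a0 → Bool) ≃ Fin (2 ^ a0) := Fintype.equivFinOfCardEq (by simp)
  let eJ : ((Fin a0 ⊕ Fin d) → Bool) ≃ Fin (2 ^ a0) × (Fin d → Bool) :=
    (Equiv.sumArrowEquivProdArrow _ _ _).trans (Equiv.prodCongr enc (Equiv.refl _))
  have heJ : ∀ j r, (eJ j).2 r = j (Sum.inr r) := fun j r => rfl
  let σ : Fin d → ((Fin a0 ⊕ Fin d) → Bool) := fun r k => decide (k = Sum.inr r)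
  have hσ : ∀ r j, ws (σ r) j = sgn r (eJ j).2 := by
    intro r j
    show ws (fun k => decide (k = Sum.inr r)) j = _
    rw [ws_single, sgn, heJ]
  let τ0 : Fin d ⊕ Unit → ((Fin a0 ⊕ Fin d) → Bool) := Sum.elim σ (fun _ _ => false)
  have hτ0 : Function.Injective τ0 := by
    rintro (r | u) (r' | u') h
    · have h1 := congrFun h (Sum.inr r)
      have h2 : decide ((Sum.inr r : Fin a0 ⊕ Fin d) = Sum.inr r) = decide ((Sum.inr r : Fin a0 ⊕ Fin d) = Sum.inr r') := h1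
      simp at h2
      rw [h2]
    · have h1 := congrFun h (Sum.inr r)
      have h2 : decide ((Sum.inr r : Fin a0 ⊕ Fin d) = Sum.inr r) = false := h1
      simp at h2
    · have h1 := congrFun h (Sum.inr r')
      have h2 : false = decide ((Sum.inr r' : Fin a0 ⊕ Fin d) = Sum.inr r') := h1
      simp at h2
    · rfl
  obtain ⟨I, π, hπ⟩ := ext_equiv τ0 hτ0
  set M : ℝ := (2 : ℝ) ^ Fintype.card (Fin a0 ⊕ Fin d) with hM
  have hM0 : 0 < M := by positivity
  have hcard : ∀ c : ℝ, ∑ _j : (Fin a0 ⊕ Fin d) → Bool, c = M * c := by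
    intro c
    simp [hM]
  have hI1 : (0 : ℝ) < (I : ℝ) + 1 := by positivity
  set εw : ℝ := ε / 3 * (lo / 2) / (I + 1) with hεw
  have hεw0 : 0 < εw := by positivity
  set η : ℝ := min 1 (ε / ((I + 1) * (up + 1))) with hη
  have hη0 : 0 < η := lt_min one_pos (by positivity)
  have hη1 : η ≤ 1 := min_le_left _ _
  have hη2 : η * (I * up) ≤ ε := by
    calc η * (I * up) ≤ (ε / ((I + 1) * (up + 1))) * ((I + 1) * (up + 1)) := by
          gcongr
          · exact min_le_right _ _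
          · linarith
          · linarith
      _ = ε := by field_simp
  set tδ : ℝ := min (εg / 3) (η * (εw / 3)) with htδ
  have htδ0 : 0 < tδ := lt_min (by positivity) (by positivity)
  obtain ⟨δ0, hδ0, hcont⟩ : ∃ δ0 : ℝ, 0 < δ0 ∧ ∀ z : ℝ, |z| ≤ δ0 →
      ‖Tr ℝ p (N + z) f - Tr ℝ p N f‖ ≤ tδ := by
    have h1 := (Tr_cont (𝕜 := ℝ) hp f).tendsto (N : ℝ)
    obtain ⟨δ, hδ, h2⟩ := Metric.tendsto_nhds_nhds.1 h1 tδ htδ0
    refine ⟨δ / 2, by positivity, fun z hz => ?_⟩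
    have h3 : dist ((N : ℝ) + z) N < δ := by
      rw [Real.dist_eq, add_sub_cancel_left]; linarith
    have h4 := h2 h3
    rw [dist_eq_norm] at h4
    exact h4.le
  obtain ⟨P, R, hR, hP, hPR⟩ := happ (δ0 / 2) (by positivity)
  -- continuity at the nodes
  set t1 : ℝ := εh / 3 / (R * M) with ht1
  have ht10 : 0 < t1 := by positivity
  obtain ⟨ρ, hρ, hρ2⟩ : ∃ ρ : ℝ, 0 < ρ ∧ ∀ z : ℝ, |z| ≤ ρ → ∀ j,
      ‖Tr ℝ p (N + P j + z) f - Tr ℝ p (N + P j) f‖ ≤ t1 := by
    have h1 : ∀ᶠ z in 𝓝 (0 : ℝ), ∀ j, ‖Tr ℝ p (N + P j + z) f - Tr ℝ p (N + P j) f‖ < t1 := by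
      rw [eventually_all]
      intro j
      have h2 : Continuous fun z : ℝ => Tr ℝ p (N + P j + z) f :=
        (Tr_cont (𝕜 := ℝ) hp f).comp (continuous_const.add continuous_id)
      have h3 := h2.tendsto 0
      rw [add_zero] at h3
      have h4 := Metric.tendsto_nhds.1 h3 t1 ht10
      simpa [dist_eq_norm] using h4
    obtain ⟨ρ, hρ, h2⟩ := Metric.eventually_nhds_iff.1 h1
    refine ⟨ρ / 2, by positivity, fun z hz j => (h2 ?_ j).le⟩
    rw [dist_zero_right, Real.norm_eq_abs]; linarith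
  -- K
  set ρ' : ℝ := min ρ (δ0 / 2) with hρ'
  have hρ'0 : 0 < ρ' := lt_min hρ (by positivity)
  obtain ⟨K, hK⟩ := exists_nat_ge (((I : ℝ) + 1) / ρ')
  have hKpos : (0 : ℝ) < K := lt_of_lt_of_le (by positivity) hK
  have hK1 : 1 ≤ K := by
    have : 0 < K := by exact_mod_cast hKpos
    omega
  have hK1' : (1 : ℝ) ≤ K := by exact_mod_cast hK1
  have hKρ : ((I : ℝ) + 1) / K ≤ ρ' := by
    rw [div_le_iff₀ hρ'0] at hK
    rw [div_le_iff₀ hKpos]
    linarith
  -- θ
  set θ : ℝ := min (εh / 3) (min (εg / 3) (εw / 3)) / ((R * M + 1) * (I + 1)) with hθ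
  have hθ0 : 0 < θ := by
    have : 0 < min (εh / 3) (min (εg / 3) (εw / 3)) := lt_min (by positivity) (lt_min (by positivity) (by positivity))
    positivity
  have hθe : θ * ((R * M + 1) * (I + 1)) = min (εh / 3) (min (εg / 3) (εw / 3)) := by
    rw [hθ]; field_simp
  have hθh : η * (R * M) * I * θ ≤ εh / 3 := by
    have h1 : η * (R * M) * I * θ ≤ θ * ((R * M + 1) * (I + 1)) := by
      calc η * (R * M) * I * θ ≤ 1 * (R * M + 1) * (I + 1) * θ := by gcongr <;> linarith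
        _ = _ := by ring
    rw [hθe] at h1
    exact h1.trans (min_le_left _ _)
  have hθ1 : (I : ℝ) * θ ≤ min (εg / 3) (εw / 3) := by
    have h1 : (I : ℝ) * θ ≤ θ * ((R * M + 1) * (I + 1)) := by
      have : 0 < R * M := by positivity
      calc (I : ℝ) * θ ≤ (R * M + 1) * (I + 1) * θ := by
            gcongr
            nlinarith [Nat.cast_nonneg (α := ℝ) I]
        _ = _ := by ring
    rw [hθe] at h1
    exact h1.trans (min_le_right _ _)
  -- h
  obtain ⟨h, hh⟩ := exists_nat_ge (Real.pi * I * up / θ + 1)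
  have hπp := Real.pi_pos
  have hh1' : (1 : ℝ) ≤ h := by
    have : 0 ≤ Real.pi * I * up / θ := by positivity
    linarith
  have hh1 : 1 ≤ h := by exact_mod_cast hh1'
  have hhθ : Real.pi * I / (2 * h) * up ≤ θ / 2 := by
    have h1 : Real.pi * I * up / θ ≤ h := by linarith
    rw [div_le_iff₀ hθ0] at h1
    rw [div_mul_eq_mul_div, div_le_iff₀ (by positivity)]
    linarith
  -- bits, nodes, frequencies
  let bt : ((Fin a0 ⊕ Fin d) → Bool) → ℕ → Bool := fun j i =>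
    if hi : i < I then decide (ws (π (Sum.inr ⟨i, hi⟩)) j = -1) else false
  let s : ℕ → ((Fin a0 ⊕ Fin d) → Bool) → ℝ := fun i j => if bt j i then -1 else 1
  have hs : ∀ (i : Fin I) j, s i j = ws (π (Sum.inr i)) j := by
    intro i j
    show (if bt j i then (-1 : ℝ) else 1) = _
    have h1 : bt j i = decide (ws (π (Sum.inr i)) j = -1) := by
      show (if hi : (i : ℕ) < I then decide (ws (π (Sum.inr ⟨i, hi⟩)) j = -1) else false) = _
      rw [dif_pos i.2]
    rw [h1]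
    rcases ws_pm (π (Sum.inr i)) j with h2 | h2
    · rw [h2]; norm_num
    · rw [h2]; norm_num
  let Pz : ((Fin a0 ⊕ Fin d) → Bool) → ℤ := fun j => round (K * P (eJ j))
  let lam : ((Fin a0 ⊕ Fin d) → Bool) → ℝ := fun j =>
    ((N : ℤ) : ℝ) + (Pz j : ℝ) / K + om K (2 * h) I (bt j)
  have hlam : ∀ j, |lam j - (N + P (eJ j))| ≤ ρ' := by
    intro j
    have h1 : |(Pz j : ℝ) / K - P (eJ j)| ≤ 1 / K := by
      have h2 := abs_sub_round (K * P (eJ j))
      have h3 : (Pz j : ℝ) / K - P (eJ j) = -((K * P (eJ j) - (Pz j : ℝ)) / K) := by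
        field_simp; ring
      rw [h3, abs_neg, abs_div, abs_of_pos hKpos]
      gcongr
      exact h2.trans (by norm_num)
    have h2 := om_bound (K : ℝ) (2 * h) hK1' (by linarith) I (bt j)
    have h3 : lam j - (N + P (eJ j)) = ((Pz j : ℝ) / K - P (eJ j)) + om K (2 * h) I (bt j) := by
      show ((N : ℤ) : ℝ) + (Pz j : ℝ) / K + om K (2 * h) I (bt j) - (N + P (eJ j)) = _
      push_cast
      ring
    rw [h3]
    calc _ ≤ |(Pz j : ℝ) / K - P (eJ j)| + |om K (2 * h) I (bt j)| := abs_add_le _ _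
      _ ≤ 1 / K + I / K := add_le_add h1 h2
      _ = ((I : ℝ) + 1) / K := by ring
      _ ≤ ρ' := hKρ
  let τ : ℕ → ℝ := fun i => (K : ℝ) * (2 * h) ^ (i + 1)
  -- windows
  set Λ : ℝ := ∑ j, |lam j| with hΛ
  have hΛ0 : 0 ≤ Λ := Finset.sum_nonneg fun _ _ => abs_nonneg _
  obtain ⟨b0, hb0, hgam⟩ := gam_small (p := p) hp Λ hΛ0 (θ / 2) (by positivity)
  set tw : ℝ := min (lo / 2) (εw / 3) with htw
  have htw0 : 0 < tw := lt_min (by positivity) (by positivity)
  obtain ⟨b, μ', hμ'0, hμ's, hbb, hwin⟩ := windows (p := p) hp τ b0 tw hb0 htw0 μ1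
  let φ : ℕ → (Lp ℝ p (volume : Measure ℝ)) := fun i => nw (p := p) hp (b i).2 (τ i)
  have hφlo : ∀ i, lo ≤ ‖φ i‖ := fun i => nw_ne hp (b i).2 (τ i)
  have hφup : ∀ i, ‖φ i‖ ≤ up := fun i =>
    norm_eq_of_rpow hp (cq_pos hp).le (nw_up hp (b i).2 (τ i))
  have hD : ∀ j, ∀ i < I, ‖Tr ℝ p (lam j) (φ i) - s i j • φ i‖ ≤ θ := by
    intro j i hi
    obtain ⟨m, err, he1, he2⟩ := freq K h hK1 hh1 I (bt j) N (Pz j) i hi
    have h1 : ∀ y, |Real.cos (2 * Real.pi * τ i * (y - lam j)) - s i j * Real.cos (2 * Real.pi * τ i * y)| ≤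
        Real.pi * I / (2 * h) := by
      intro y
      exact (cos_shift (τ i) (lam j) y (bt j i) m err he2).trans he1
    have h2 := nw_trans hp (b i).2 (τ i) (lam j) (s i j) _ h1
    have h3 : |lam j| ≤ Λ := Finset.single_le_sum (f := fun j => |lam j|) (fun _ _ => abs_nonneg _) (Finset.mem_univ j)
    have h4 := hgam (b i) (b i).2 (hbb i) (lam j) h3
    calc _ ≤ _ := h2
      _ ≤ θ / 2 + θ / 2 := add_le_add h4 hhθ
      _ = θ := by ring
  -- annuli
  let μ : ℕ → ℕ := fun n => Nat.casesOn n a μ'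
  have hμm : Monotone μ := by
    refine monotone_nat_of_le_succ fun n => ?_
    cases n with
    | zero =>
      show a ≤ μ' 0
      rw [hμ'0, hμ1]
      exact (Nat.le_succ a).trans (le_max_right _ _)
    | succ n => exact hμ's.monotone (Nat.le_succ n)
  let G : ℕ → (Lp ℝ p (volume : Measure ℝ)) := fun n => Nat.casesOn n (Tr ℝ p N f) φ
  have hTN : ‖Tr ℝ p N f‖ = ‖f‖ := LinearIsometry.norm_map _ _
  have hg0 : ‖f‖ / 2 ≤ ‖Pj p (μ 0) (μ 1) (G 0)‖ := by
    have e1 : Pj p (μ 0) (μ 1) (G 0) = Pj p a μ1 (Tr ℝ p N f) := by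
      show Pj p a (μ' 0) (Tr ℝ p N f) = _
      rw [hμ'0]
    rw [e1]
    have h1 : ‖Tr ℝ p N f‖ ≤ ‖Pj p a μ1 (Tr ℝ p N f)‖ + ‖Pj p a μ1 (Tr ℝ p N f) - Tr ℝ p N f‖ := by
      have := norm_sub_le (Pj p a μ1 (Tr ℝ p N f)) (Pj p a μ1 (Tr ℝ p N f) - Tr ℝ p N f)
      simpa using this
    have h2 := min_le_left (‖f‖ / 2) (εg / 3)
    rw [hTN] at h1
    linarith
  have hgi : ∀ i, lo / 2 ≤ ‖Pj p (μ (i + 1)) (μ (i + 1 + 1)) (G (i + 1))‖ := by
    intro i
    have h1 : ‖φ i‖ ≤ ‖Pj p (μ' i) (μ' (i + 1)) (φ i)‖ + ‖Pj p (μ' i) (μ' (i + 1)) (φ i) - φ i‖ := by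
      have := norm_sub_le (Pj p (μ' i) (μ' (i + 1)) (φ i)) (Pj p (μ' i) (μ' (i + 1)) (φ i) - φ i)
      simpa using this
    have h2 := min_le_left (lo / 2) (εw / 3)
    have h3 := hφlo i
    have h4 := hwin i
    show lo / 2 ≤ ‖Pj p (μ' i) (μ' (i + 1)) (φ i)‖
    have h5 : ‖Pj p (μ' i) (μ' (i + 1)) (φ i) - φ i‖ ≤ tw := h4
    linarith
  have hGne : ∀ i < I + 1, Pj p (μ i) (μ (i + 1)) (G i) ≠ 0 := by
    intro i _ h0
    cases i with
    | zero =>
      have h0' : Pj p (μ 0) (μ 1) (G 0) = 0 := h0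
      rw [h0', norm_zero] at hg0
      linarith
    | succ i =>
      have := hgi i
      rw [h0, norm_zero] at this
      linarith
  obtain ⟨A, hAe, hAψ⟩ := annuli hp (I + 1) μ hμm G hGne
  have hψ0 : ‖A.ψ 0‖ ≤ 2 / ‖f‖ := by
    refine (hAψ 0 (by omega)).trans ?_
    calc (‖Pj p (μ 0) (μ (0 + 1)) (G 0)‖)⁻¹ ≤ (‖f‖ / 2)⁻¹ := inv_anti₀ (by positivity) hg0
      _ = 2 / ‖f‖ := by rw [inv_div]
  have hψi : ∀ i : Fin I, ‖A.ψ (i + 1)‖ ≤ 2 / lo := by
    intro i
    refine (hAψ (i + 1) (by omega)).trans ?_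
    calc (‖Pj p (μ (i + 1)) (μ (i + 1 + 1)) (G (i + 1))‖)⁻¹ ≤ (lo / 2)⁻¹ := inv_anti₀ (by positivity) (hgi i)
      _ = 2 / lo := by rw [inv_div]
  have hae0 : ‖Tr ℝ p N f - A.e 0‖ ≤ tg := by
    rw [hAe 0, norm_sub_rev]
    show ‖Pj p a (μ' 0) (Tr ℝ p N f) - Tr ℝ p N f‖ ≤ tg
    rw [hμ'0]; exact hg1
  have haei : ∀ i : ℕ, ‖φ i - A.e (i + 1)‖ ≤ tw := by
    intro i
    rw [hAe (i + 1), norm_sub_rev]
    exact hwin i
  -- f'
  set f' : (Lp ℝ p (volume : Measure ℝ)) := f + ∑ i ∈ Finset.range I, η • φ i with hf'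
  have hf'g : GoodF f' := hf.add_sum (fun i => η • φ i) (fun i => (goodF_nw hp (b i).2 (τ i)).smul hη0) I
  have hf'c : ‖f' - f‖ ≤ ε := by
    rw [hf', add_sub_cancel_left]
    refine (norm_sum_le _ _).trans ?_
    calc ∑ i ∈ Finset.range I, ‖η • φ i‖ ≤ ∑ _i ∈ Finset.range I, η * up := by
          refine Finset.sum_le_sum fun i _ => ?_
          rw [norm_smul, Real.norm_of_nonneg hη0.le]
          gcongr
          exact hφup i
      _ = η * (I * up) := by simp; ring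
      _ ≤ ε := hη2
  have hTf' : ∀ j, Tr ℝ p (lam j) f' = Tr ℝ p (lam j) f + η • ∑ i ∈ Finset.range I, Tr ℝ p (lam j) (φ i) := by
    intro j
    rw [hf', map_add, map_sum, Finset.smul_sum]
    have e1 : ∑ i ∈ Finset.range I, Tr ℝ p (lam j) (η • φ i) = ∑ i ∈ Finset.range I, η • Tr ℝ p (lam j) (φ i) :=
      Finset.sum_congr rfl fun i _ => by rw [map_smul]
    rw [e1]
  -- rows
  have hrow : ∀ (S : (Fin a0 ⊕ Fin d) → Bool) (c : ℝ), 0 ≤ c →
      ‖∑ j, (c * ws S j) • Tr ℝ p (lam j) f' -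
        (∑ j, (c * ws S j) • Tr ℝ p (lam j) f +
          η • ∑ i : Fin I, (c * (if S = π (Sum.inr i) then M else 0)) • φ i)‖ ≤ η * (c * M) * I * θ := by
    intro S c hc
    have h1 := row I (fun j => c * ws S j) (fun j => Tr ℝ p (lam j) f) (fun j i => Tr ℝ p (lam j) (φ i)) φ s η θ
      hη0.le hD
    have h2 : ∑ j, |c * ws S j| = c * M := by
      rw [Finset.sum_congr rfl fun j _ => by rw [abs_mul, ws_abs, mul_one, abs_of_nonneg hc], hcard, mul_comm]
    rw [h2] at h1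
    have h3 : ∑ i ∈ Finset.range I, (∑ j, c * ws S j * s i j) • φ i =
        ∑ i : Fin I, (c * (if S = π (Sum.inr i) then M else 0)) • φ i := by
      rw [Finset.sum_range]
      refine Finset.sum_congr rfl fun i _ => ?_
      congr 1
      rw [← ws_orth S (π (Sum.inr i)), Finset.mul_sum]
      refine Finset.sum_congr rfl fun j _ => ?_
      rw [hs i j, mul_assoc]
    rw [h3] at h1
    simp only [hTf']
    exact h1
  have hlamN : ∀ j, ‖Tr ℝ p (lam j) f - Tr ℝ p N f‖ ≤ tδ := by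
    intro j
    have h1 := hcont (lam j - N) (by
      have h2 : lam j - N = (lam j - (N + P (eJ j))) + P (eJ j) := by ring
      rw [h2]
      have h3 := hlam j
      have h4 := hP (eJ j)
      have h5 : ρ' ≤ δ0 / 2 := min_le_right _ _
      calc _ ≤ |lam j - (N + P (eJ j))| + |P (eJ j)| := abs_add_le _ _
        _ ≤ δ0 / 2 + δ0 / 2 := add_le_add (h3.trans h5) h4
        _ = δ0 := by ring)
    rwa [add_sub_cancel] at h1
  -- row h
  have hEh : ∀ r : Fin d, ‖∑ j, (R * ws (σ r) j) • Tr ℝ p (lam j) f' - x r‖ ≤ εh := by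
    intro r
    have h1 := hrow (σ r) R hR.le
    have h2 : ∀ i : Fin I, ¬ (σ r = π (Sum.inr i)) := by
      intro i hi
      have h3 : π (Sum.inl (Sum.inl r)) = π (Sum.inr i) := by rw [hπ]; exact hi
      have := π.injective h3
      simp at this
    have h3 : ∑ i : Fin I, (R * (if σ r = π (Sum.inr i) then M else 0)) • φ i = 0 :=
      Finset.sum_eq_zero fun i _ => by rw [if_neg (h2 i), mul_zero, zero_smul]
    rw [h3, smul_zero, add_zero] at h1
    have h4 : ‖∑ j, (R * ws (σ r) j) • Tr ℝ p (lam j) f - ∑ j, (R * ws (σ r) j) • Tr ℝ p (N + P (eJ j)) f‖ ≤ εh / 3 := by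
      rw [← Finset.sum_sub_distrib]
      refine (norm_sum_le _ _).trans ?_
      have h5 : ∀ j, ‖(R * ws (σ r) j) • Tr ℝ p (lam j) f - (R * ws (σ r) j) • Tr ℝ p (N + P (eJ j)) f‖ ≤ R * t1 := by
        intro j
        rw [← smul_sub, norm_smul, Real.norm_eq_abs, abs_mul, ws_abs, mul_one, abs_of_pos hR]
        gcongr
        have h6 := hρ2 (lam j - (N + P (eJ j))) ((hlam j).trans (min_le_left _ _)) (eJ j)
        rwa [add_sub_cancel] at h6
      refine (Finset.sum_le_sum fun j _ => h5 j).trans (le_of_eq ?_)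
      rw [hcard, ht1]
      field_simp
    have h5 : ‖∑ j, (R * ws (σ r) j) • Tr ℝ p (N + P (eJ j)) f - x r‖ ≤ εh / 3 := by
      have h6 := hPR r
      have h7 : R • ∑ j : Fin (2 ^ a0) × (Fin d → Bool), sgn r j.2 • Tr ℝ p (N + P j) f =
          ∑ j, (R * ws (σ r) j) • Tr ℝ p (N + P (eJ j)) f := by
        rw [Finset.smul_sum, ← Equiv.sum_comp eJ]
        refine Finset.sum_congr rfl fun j _ => ?_
        rw [smul_smul, hσ]
      rwa [h7] at h6
    have h6 : ∑ j, (R * ws (σ r) j) • Tr ℝ p (lam j) f' - x r =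
        (∑ j, (R * ws (σ r) j) • Tr ℝ p (lam j) f' - ∑ j, (R * ws (σ r) j) • Tr ℝ p (lam j) f)
        + (∑ j, (R * ws (σ r) j) • Tr ℝ p (lam j) f - ∑ j, (R * ws (σ r) j) • Tr ℝ p (N + P (eJ j)) f)
        + (∑ j, (R * ws (σ r) j) • Tr ℝ p (N + P (eJ j)) f - x r) := by abel
    rw [h6]
    calc _ ≤ _ + _ := norm_add_le _ _
      _ ≤ (_ + _) + _ := by gcongr; exact norm_add_le _ _
      _ ≤ (εh / 3 + εh / 3) + εh / 3 := by
          gcongr
          exact h1.trans hθh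
      _ = εh := by ring
  -- row g
  have hEg : ‖∑ j, (1 / M * ws (fun _ => false) j) • Tr ℝ p (lam j) f' - A.e 0‖ ≤ εg := by
    have h1 := hrow (fun _ => false) (1 / M) (by positivity)
    have h2 : ∀ i : Fin I, ¬ ((fun _ => false) = π (Sum.inr i)) := by
      intro i hi
      have h3 : π (Sum.inl (Sum.inr ())) = π (Sum.inr i) := by rw [hπ]; exact hi
      have := π.injective h3
      simp at this
    have h3 : ∑ i : Fin I, (1 / M * (if (fun _ => false) = π (Sum.inr i) then M else 0)) • φ i = 0 :=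
      Finset.sum_eq_zero fun i _ => by rw [if_neg (h2 i), mul_zero, zero_smul]
    rw [h3, smul_zero, add_zero] at h1
    have h4 : ‖∑ j, (1 / M * ws (fun _ => false) j) • Tr ℝ p (lam j) f - Tr ℝ p N f‖ ≤ εg / 3 := by
      have h5 : Tr ℝ p N f = ∑ _j : (Fin a0 ⊕ Fin d) → Bool, (1 / M) • Tr ℝ p N f := by
        rw [← Finset.sum_smul, hcard, mul_one_div, div_self hM0.ne', one_smul]
      rw [h5, ← Finset.sum_sub_distrib]
      refine (norm_sum_le _ _).trans ?_
      have h6 : ∀ j, ‖(1 / M * ws (fun _ => false) j) • Tr ℝ p (lam j) f - (1 / M) • Tr ℝ p N f‖ ≤ 1 / M * tδ := by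
        intro j
        rw [ws_zero, mul_one, ← smul_sub, norm_smul, Real.norm_of_nonneg (by positivity)]
        gcongr
        exact hlamN j
      refine (Finset.sum_le_sum fun j _ => h6 j).trans ?_
      rw [hcard]
      have h7 : M * (1 / M * tδ) = tδ := by field_simp
      rw [h7]
      exact min_le_left _ _
    have h6 : ∑ j, (1 / M * ws (fun _ => false) j) • Tr ℝ p (lam j) f' - A.e 0 =
        (∑ j, (1 / M * ws (fun _ => false) j) • Tr ℝ p (lam j) f' - ∑ j, (1 / M * ws (fun _ => false) j) • Tr ℝ p (lam j) f)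
        + (∑ j, (1 / M * ws (fun _ => false) j) • Tr ℝ p (lam j) f - Tr ℝ p N f)
        + (Tr ℝ p N f - A.e 0) := by abel
    have h7 : η * (1 / M * M) * I * θ ≤ εg / 3 := by
      have e1 : 1 / M * M = 1 := by field_simp
      rw [e1, mul_one]
      calc η * I * θ ≤ 1 * I * θ := by gcongr
        _ = I * θ := by ring
        _ ≤ εg / 3 := hθ1.trans (min_le_left _ _)
    rw [h6]
    calc _ ≤ _ + _ := norm_add_le _ _
      _ ≤ (_ + _) + _ := by gcongr; exact norm_add_le _ _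
      _ ≤ (εg / 3 + εg / 3) + εg / 3 := by
          gcongr
          · exact h1.trans h7
          · exact hae0.trans (min_le_right _ _)
      _ = εg := by ring
  -- row w
  have hEw : ∀ i : Fin I, ‖∑ j, (1 / (M * η) * ws (π (Sum.inr i)) j) • Tr ℝ p (lam j) f' - A.e (i + 1)‖ ≤ εw := by
    intro i
    have h1 := hrow (π (Sum.inr i)) (1 / (M * η)) (by positivity)
    have h2 : η • ∑ i' : Fin I, (1 / (M * η) * (if π (Sum.inr i) = π (Sum.inr i') then M else 0)) • φ i' = φ i := by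
      rw [Finset.sum_eq_single i]
      · rw [if_pos rfl, smul_smul]
        have : η * (1 / (M * η) * M) = 1 := by field_simp
        rw [this, one_smul]
      · intro i' _ hi'
        have : ¬ (π (Sum.inr i) = π (Sum.inr i')) := by
          intro h
          have := π.injective h
          simp at this
          exact hi' this.symm
        rw [if_neg this, mul_zero, zero_smul]
      · intro h; exact absurd (Finset.mem_univ _) h
    rw [h2] at h1
    have h3 : ∑ j, ws (π (Sum.inr i)) j = 0 := by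
      have h4 := ws_orth (π (Sum.inr i)) (fun _ => false)
      rw [if_neg] at h4
      · simpa [ws_zero] using h4
      · intro hi
        have h5 : π (Sum.inl (Sum.inr ())) = π (Sum.inr i) := by rw [hπ]; exact hi.symm
        have := π.injective h5
        simp at this
    have h4 : ‖∑ j, (1 / (M * η) * ws (π (Sum.inr i)) j) • Tr ℝ p (lam j) f‖ ≤ εw / 3 := by
      have h5 : ∑ j, (1 / (M * η) * ws (π (Sum.inr i)) j) • Tr ℝ p (lam j) f =
          ∑ j, (1 / (M * η) * ws (π (Sum.inr i)) j) • (Tr ℝ p (lam j) f - Tr ℝ p N f) := by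
        simp only [smul_sub, Finset.sum_sub_distrib]
        rw [← Finset.sum_smul, ← Finset.mul_sum, h3, mul_zero, zero_smul, sub_zero]
      rw [h5]
      refine (norm_sum_le _ _).trans ?_
      have h6 : ∀ j, ‖(1 / (M * η) * ws (π (Sum.inr i)) j) • (Tr ℝ p (lam j) f - Tr ℝ p N f)‖ ≤ 1 / (M * η) * tδ := by
        intro j
        rw [norm_smul, Real.norm_eq_abs, abs_mul, ws_abs, mul_one, abs_of_nonneg (by positivity)]
        gcongr
        exact hlamN j
      refine (Finset.sum_le_sum fun j _ => h6 j).trans ?_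
      rw [hcard]
      have h7 : tδ ≤ η * (εw / 3) := min_le_right _ _
      calc M * (1 / (M * η) * tδ) = tδ / η := by field_simp
        _ ≤ (η * (εw / 3)) / η := by gcongr
        _ = εw / 3 := by field_simp
    have h5 : η * (1 / (M * η) * M) * I * θ ≤ εw / 3 := by
      have e1 : η * (1 / (M * η) * M) = 1 := by field_simp
      rw [e1, one_mul]
      exact hθ1.trans (min_le_right _ _)
    have h6 : ∑ j, (1 / (M * η) * ws (π (Sum.inr i)) j) • Tr ℝ p (lam j) f' - A.e (i + 1) =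
        (∑ j, (1 / (M * η) * ws (π (Sum.inr i)) j) • Tr ℝ p (lam j) f' -
          (∑ j, (1 / (M * η) * ws (π (Sum.inr i)) j) • Tr ℝ p (lam j) f + φ i))
        + (∑ j, (1 / (M * η) * ws (π (Sum.inr i)) j) • Tr ℝ p (lam j) f)
        + (φ i - A.e (i + 1)) := by abel
    rw [h6]
    calc _ ≤ _ + _ := norm_add_le _ _
      _ ≤ (_ + _) + _ := by gcongr; exact norm_add_le _ _
      _ ≤ (εw / 3 + εw / 3) + εw / 3 := by
          gcongr
          · exact h1.trans h5
          · exact (haei i).trans (min_le_right _ _)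
      _ = εw := by ring
  -- assemble
  let coef : ((Fin d ⊕ Unit) ⊕ Fin I) → ℝ :=
    Sum.elim (Sum.elim (fun _ => R) (fun _ => 1 / M)) (fun _ => 1 / (M * η))
  have hcoef : ∀ i, coef i ≠ 0 := by
    rintro ((r | u) | i)
    · exact hR.ne'
    · show 1 / M ≠ 0
      positivity
    · show 1 / (M * η) ≠ 0
      positivity
  have hlt : a < μ (I + 1) := by
    show a < μ' I
    have h1 : μ' 0 ≤ μ' I := hμ's.monotone (Nat.zero_le _)
    rw [hμ'0] at h1
    have h2 : a + 1 ≤ μ1 := le_max_right _ _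
    omega
  have hsumC : ∀ i, ∑ j, (coef i * ws (π i) (π j)) • Tr ℝ p (lam (π j)) f' =
      ∑ j, (coef i * ws (π i) j) • Tr ℝ p (lam j) f' := fun i =>
    Equiv.sum_comp π (fun j => (coef i * ws (π i) j) • Tr ℝ p (lam j) f')
  refine ⟨⟨f', hf'g, hf'c, μ (I + 1), hlt, I, A, fun j => lam (π j), fun i j => coef i * ws (π i) (π j),
    fun v => span_lemma π coef hcoef v, ?_⟩⟩
  simp only [hsumC]
  rw [Fintype.sum_sum_type, Fintype.sum_sum_type]
  simp only [Sum.elim_inl, Sum.elim_inr]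
  have hp1' : ∀ r : Fin d, π (Sum.inl (Sum.inl r)) = σ r := fun r => hπ (Sum.inl r)
  have hp2' : ∀ u : Unit, π (Sum.inl (Sum.inr u)) = fun _ => false := fun u => hπ (Sum.inr u)
  have hS1 : ∑ r : Fin d, ‖ψ r‖ * ‖∑ j, (coef (Sum.inl (Sum.inl r)) * ws (π (Sum.inl (Sum.inl r))) j) •
      Tr ℝ p (lam j) f' - x r‖ ≤ ε / 3 := by
    calc _ ≤ ∑ r : Fin d, ‖ψ r‖ * εh := by
          refine Finset.sum_le_sum fun r _ => ?_
          rw [hp1']
          exact mul_le_mul_of_nonneg_left (hEh r) (norm_nonneg _)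
      _ = Kψ * εh := by rw [← Finset.sum_mul]
      _ ≤ (Kψ + 1) * εh := by gcongr; linarith
      _ = ε / 3 := by rw [hεh]; field_simp
  have hS2 : ∑ u : Unit, ‖A.ψ 0‖ * ‖∑ j, (coef (Sum.inl (Sum.inr u)) * ws (π (Sum.inl (Sum.inr u))) j) •
      Tr ℝ p (lam j) f' - A.e 0‖ ≤ ε / 3 := by
    rw [Fintype.sum_unique]
    rw [hp2']
    calc _ ≤ (2 / ‖f‖) * εg := mul_le_mul hψ0 hEg (norm_nonneg _) (by positivity)
      _ = ε / 3 := by rw [hεg]; field_simp
  have hS3 : ∑ i : Fin I, ‖A.ψ (i + 1)‖ * ‖∑ j, (coef (Sum.inr i) * ws (π (Sum.inr i)) j) •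
      Tr ℝ p (lam j) f' - A.e (i + 1)‖ ≤ ε / 3 := by
    calc _ ≤ ∑ _i : Fin I, (2 / lo) * εw := by
          refine Finset.sum_le_sum fun i _ => ?_
          exact mul_le_mul (hψi i) (hEw i) (norm_nonneg _) (by positivity)
      _ = I * ((2 / lo) * εw) := by simp
      _ ≤ (I + 1) * ((2 / lo) * εw) := by gcongr; linarith
      _ = ε / 3 := by rw [hεw]; field_simp
  calc _ ≤ (ε / 3 + ε / 3) + ε / 3 := add_le_add (add_le_add hS1 hS2) hS3
    _ = ε := by ring

end H316F
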