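import Pool.Agent.H316R4.Dyad3
import Pool.Agent.H296R4.Bell2

open scoped BigOperators Topology ENNReal
open Filter Set MeasureTheory

namespace H316F

variable {p : ℝ≥0∞} [hp1 : Fact (1 ≤ p)]

/-- sums of differences of the averaging projections -/
noncomputable def TF (p : ℝ≥0∞) [Fact (1 ≤ p)] (F : Finset ℕ) :
    (Lp ℝ p (volume : Measure ℝ)) →L[ℝ] (Lp ℝ p (volume : Measure ℝ)) :=
  ∑ n ∈ F, (Sx p (n + 1) - Sx p n)

theorem TF_apply (F : Finset ℕ) (x : Lp ℝ p (volume : Measure ℝ)) :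
    TF p F x = ∑ n ∈ F, (Sx p (n + 1) x - Sx p n x) := by
  simp [TF]

theorem pr_eq (hp : p ≠ ⊤) (n : ℕ) (x : Lp ℝ p (volume : Measure ℝ)) :
    Pool.Agent.H296R4.pr ℝ p hp n x = Sx p n x := by
  rw [Pool.Agent.H296R4.pr_apply, Sx, Ex_apply]
  refine Finset.sum_congr rfl fun j _ => ?_
  rw [Pool.Agent.H296R4.avg_def, cInt_apply]
  rfl

theorem TF_gt (hp : p ≠ ⊤) (h2 : 2 < p.toReal) : ∃ C : ℝ, 0 ≤ C ∧
    ∀ (F : Finset ℕ) (x : Lp ℝ p (volume : Measure ℝ)), ‖TF p F x‖ ≤ C * ‖x‖ := by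
  obtain ⟨C, hC, h⟩ := Pool.Agent.H296R4.unc_Lp (𝕜 := ℝ) (p := p) hp h2
  refine ⟨C, hC, fun F x => ?_⟩
  have := h F x
  simp only [pr_eq] at this
  rw [TF_apply]
  exact this

/-- product of two differences -/
theorem diff_mul (m n : ℕ) (x : Lp ℝ p (volume : Measure ℝ)) :
    Sx p (m + 1) (Sx p (n + 1) x - Sx p n x) - Sx p m (Sx p (n + 1) x - Sx p n x) =
      if m = n then Sx p (n + 1) x - Sx p n x else 0 := by
  simp only [map_sub]
  rcases lt_trichotomy m n with h | h | h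
  · rw [if_neg h.ne, Sx_Sx (show m + 1 ≤ n + 1 by omega), Sx_Sx (show m + 1 ≤ n by omega),
      Sx_Sx (show m ≤ n + 1 by omega), Sx_Sx (show m ≤ n by omega)]
    abel
  · subst h
    rw [if_pos rfl, Sx_Sx le_rfl, Sx_Sx' (show m ≤ m + 1 by omega), Sx_Sx (show m ≤ m + 1 by omega),
      Sx_Sx le_rfl]
    abel
  · rw [if_neg h.ne', Sx_Sx' (show n + 1 ≤ m + 1 by omega), Sx_Sx' (show n ≤ m + 1 by omega),
      Sx_Sx' (show n + 1 ≤ m by omega), Sx_Sx' (show n ≤ m by omega)]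
    abel

theorem TF_TF (F : Finset ℕ) (x : Lp ℝ p (volume : Measure ℝ)) : TF p F (TF p F x) = TF p F x := by
  rw [TF_apply F (TF p F x), TF_apply]
  refine Finset.sum_congr rfl fun m hm => ?_
  simp only [map_sum]
  rw [← Finset.sum_sub_distrib]
  simp only [diff_mul]
  rw [Finset.sum_ite_eq, if_pos hm]

/-- the case `p = 2` -/
theorem TF_two (F : Finset ℕ) (x : Lp ℝ 2 (volume : Measure ℝ)) : ‖TF 2 F x‖ ≤ ‖x‖ := by
  have hind : ∀ (n : ℕ) (j : ℤ) (y : Lp ℝ 2 (volume : Measure ℝ)), Inner.inner ℝ (ind 2 n j) y = cInt 2 n j y := by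
    intro n j y
    rw [cInt_apply]
    exact L2.inner_indicatorConstLp_one (cell_meas n j) (cell_fin n j) y
  have hS : ∀ (n : ℕ) (u v : Lp ℝ 2 (volume : Measure ℝ)), Inner.inner ℝ (Sx 2 n u) v = Inner.inner ℝ u (Sx 2 n v) := by
    intro n u v
    rw [Sx, Ex_apply, Ex_apply, sum_inner, inner_sum]
    refine Finset.sum_congr rfl fun j _ => ?_
    rw [real_inner_smul_left, real_inner_smul_right, hind, real_inner_comm, hind]
    ring
  have hT : ∀ u v : Lp ℝ 2 (volume : Measure ℝ), Inner.inner ℝ (TF 2 F u) v = Inner.inner ℝ u (TF 2 F v) := by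
    intro u v
    rw [TF_apply, TF_apply, sum_inner, inner_sum]
    refine Finset.sum_congr rfl fun n _ => ?_
    rw [inner_sub_left, inner_sub_right, hS, hS]
  have h1 : ‖TF 2 F x‖ * ‖TF 2 F x‖ ≤ ‖x‖ * ‖TF 2 F x‖ := by
    calc ‖TF 2 F x‖ * ‖TF 2 F x‖ = Inner.inner ℝ (TF 2 F x) (TF 2 F x) := (real_inner_self_eq_norm_mul_norm _).symm
      _ = Inner.inner ℝ x (TF 2 F (TF 2 F x)) := hT _ _
      _ = Inner.inner ℝ x (TF 2 F x) := by rw [TF_TF]
      _ ≤ ‖x‖ * ‖TF 2 F x‖ := real_inner_le_norm _ _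
  by_cases h0 : ‖TF 2 F x‖ = 0
  · rw [h0]; exact norm_nonneg _
  · exact le_of_mul_le_mul_right h1 (lt_of_le_of_ne (norm_nonneg _) (Ne.symm h0))

end H316F
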