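import Pool.Agent.H316R4.Cyc3

open scoped BigOperators Topology ENNReal FourierTransform ContDiff
open Filter Set MeasureTheory

namespace H316F

/-- Gaussian window -/
noncomputable def gw (b τ x : ℝ) : ℝ := Real.exp (-Real.pi * b * x ^ 2) * Real.cos (2 * Real.pi * τ * x)

theorem gw_cont (b τ : ℝ) : Continuous (gw b τ) := by unfold gw; fun_prop

theorem abs_gw_le (b τ x : ℝ) : |gw b τ x| ≤ Real.exp (-Real.pi * b * x ^ 2) := by
  rw [gw, abs_mul, abs_of_pos (Real.exp_pos _)]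
  exact mul_le_of_le_one_right (Real.exp_pos _).le (Real.abs_cos_le_one _)

theorem exp_tail (u : ℝ) (m : ℕ) :
    |Real.exp u - ∑ n ∈ Finset.range m, u ^ n / n.factorial| ≤ (1 / 2) ^ m * Real.exp (2 * |u|) := by
  have hs : ∀ v : ℝ, HasSum (fun n : ℕ => v ^ n / (n.factorial : ℝ)) (Real.exp v) := by
    intro v
    rw [Real.exp_eq_exp_ℝ]
    exact NormedSpace.expSeries_div_hasSum_exp v
  have h1 : Real.exp u - ∑ n ∈ Finset.range m, u ^ n / n.factorial =
      ∑' n : ℕ, u ^ (n + m) / ((n + m).factorial : ℝ) := by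
    rw [← (hs u).tsum_eq, ← (hs u).summable.sum_add_tsum_nat_add m]
    ring
  have hs2 : Summable fun n : ℕ => (2 * |u|) ^ (n + m) / ((n + m).factorial : ℝ) :=
    (summable_nat_add_iff (f := fun n : ℕ => (2 * |u|) ^ n / (n.factorial : ℝ)) m).2 (hs (2 * |u|)).summable
  have h2 : ∀ n : ℕ, ‖u ^ (n + m) / ((n + m).factorial : ℝ)‖ ≤
      (1 / 2) ^ m * ((2 * |u|) ^ (n + m) / ((n + m).factorial : ℝ)) := by
    intro n
    rw [norm_div, norm_pow, Real.norm_eq_abs, Real.norm_of_nonneg (by positivity : (0 : ℝ) ≤ (n + m).factorial),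
      ← mul_div_assoc]
    gcongr
    rw [mul_pow, pow_add 2 n m, ← mul_assoc]
    have : (1 / 2 : ℝ) ^ m * (2 ^ n * 2 ^ m) = 2 ^ n := by
      rw [one_div, inv_pow]; field_simp
    rw [this]
    have h3 : (1 : ℝ) ≤ 2 ^ n := one_le_pow₀ (by norm_num)
    have h4 : 0 ≤ |u| ^ (n + m) := by positivity
    nlinarith
  rw [h1, ← Real.norm_eq_abs]
  refine (tsum_of_norm_bounded (hs2.mul_left ((1 / 2 : ℝ) ^ m)).hasSum h2).trans ?_
  rw [tsum_mul_left]
  gcongr
  rw [← (hs (2 * |u|)).tsum_eq, ← (hs (2 * |u|)).summable.sum_add_tsum_nat_add m]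
  have : 0 ≤ ∑ n ∈ Finset.range m, (2 * |u|) ^ n / (n.factorial : ℝ) :=
    Finset.sum_nonneg fun n _ => by positivity
  linarith

variable {p : ℝ≥0∞} [hp1 : Fact (1 ≤ p)]


theorem norm_toLp_le {f g : ℝ → ℝ} (hf : MemLp f p volume) (hg : MemLp g p volume) (c : ℝ) (hc : 0 ≤ c)
    (h : ∀ x, |f x| ≤ c * |g x|) : ‖hf.toLp f‖ ≤ c * ‖hg.toLp g‖ := by
  have h1 : ‖hf.toLp f‖ ≤ ‖c • hg.toLp g‖ := by
    apply Lp.norm_le_norm_of_ae_le
    filter_upwards [hf.coeFn_toLp, hg.coeFn_toLp, Lp.coeFn_smul c (hg.toLp g)] with t h1 h2 h3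
    rw [h1, h3, Pi.smul_apply, h2, norm_smul, Real.norm_eq_abs, Real.norm_eq_abs, Real.norm_eq_abs,
      abs_of_nonneg hc]
    exact h t
  rwa [norm_smul, Real.norm_of_nonneg hc] at h1

/-- the exponential curve -/
theorem exp_hasSum (β : ℝ) (G : ℝ → ℝ) (hGm : AEStronglyMeasurable G volume)
    (hG : ∀ c : ℝ, MemLp (fun x => G x * Real.exp (c * |x|)) p volume) :
    ∀ hE : ∀ z : ℝ, MemLp (fun x => G x * Real.exp (β * x * z)) p volume,
    ∀ hT : ∀ n : ℕ, MemLp (fun x => G x * ((β * x) ^ n / n.factorial)) p volume,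
    ∀ z : ℝ, HasSum (fun n => z ^ n • (hT n).toLp _) ((hE z).toLp _) := by
  intro hE hT z
  set D : ℝ → ℝ := fun x => G x * Real.exp (2 * (|β| * |z|) * |x|) with hD
  have hDm : MemLp D p volume := hG _
  have e0 : ∀ x : ℝ, 2 * |β * x * z| = 2 * (|β| * |z|) * |x| := by
    intro x; rw [abs_mul, abs_mul]; ring
  have hsum : Summable (fun n => z ^ n • (hT n).toLp _ : ℕ → (Lp ℝ p (volume : Measure ℝ))) := by
    refine Summable.of_norm_bounded (g := fun n : ℕ => (1 / 2 : ℝ) ^ n * ‖hDm.toLp D‖)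
      ((summable_geometric_of_lt_one (by norm_num) (by norm_num)).mul_right _) ?_
    intro n
    have hz : MemLp (fun x => z ^ n * (G x * ((β * x) ^ n / n.factorial))) p volume :=
      (hT n).const_mul _
    have e1 : z ^ n • (hT n).toLp _ = hz.toLp _ := by
      rw [← MemLp.toLp_const_smul]; rfl
    rw [e1]
    apply norm_toLp_le hz hDm _ (by positivity)
    intro x
    have h1 : (2 * |β * x * z|) ^ n / (n.factorial : ℝ) ≤ Real.exp (2 * |β * x * z|) :=
      Real.pow_div_factorial_le_exp _ (by positivity) n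
    rw [hD]
    simp only
    rw [← e0 x, abs_mul (G x), abs_of_pos (Real.exp_pos _), abs_mul, abs_mul (G x)]
    have h2 : |z ^ n| * (|G x| * |(β * x) ^ n / (n.factorial : ℝ)|) =
        (1 / 2) ^ n * (|G x| * ((2 * |β * x * z|) ^ n / (n.factorial : ℝ))) := by
      rw [abs_div, abs_pow, abs_pow, abs_of_nonneg (by positivity : (0 : ℝ) ≤ n.factorial), mul_pow 2,
        abs_mul (β * x) z, mul_pow, one_div, inv_pow]
      field_simp
    rw [h2]
    gcongr
  refine (hsum.hasSum_iff_tendsto_nat).2 ?_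
  rw [tendsto_iff_norm_sub_tendsto_zero]
  have hb : ∀ m : ℕ, ‖(∑ n ∈ Finset.range m, z ^ n • (hT n).toLp _ : (Lp ℝ p (volume : Measure ℝ))) - (hE z).toLp _‖ ≤
      (1 / 2) ^ m * ‖hDm.toLp D‖ := by
    intro m
    have hm : MemLp (fun x => G x * (∑ n ∈ Finset.range m, (β * x * z) ^ n / n.factorial)
        - G x * Real.exp (β * x * z)) p volume := by
      refine MemLp.sub ?_ (hE z)
      have : (fun x => G x * (∑ n ∈ Finset.range m, (β * x * z) ^ n / n.factorial)) =
          fun x => ∑ n ∈ Finset.range m, z ^ n * (G x * ((β * x) ^ n / n.factorial)) := by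
        funext x
        rw [Finset.mul_sum]
        refine Finset.sum_congr rfl fun n _ => ?_
        rw [mul_pow]; ring
      rw [this]
      exact memLp_finsetSum _ fun n _ => (hT n).const_mul _
    have e1 : (∑ n ∈ Finset.range m, z ^ n • (hT n).toLp _ : (Lp ℝ p (volume : Measure ℝ))) - (hE z).toLp _ = hm.toLp _ := by
      apply Lp.ext
      have h1 : ∀ᵐ x, ∀ n ∈ Finset.range m, (z ^ n • (hT n).toLp _ : (Lp ℝ p (volume : Measure ℝ))) x
          = z ^ n * (G x * ((β * x) ^ n / n.factorial)) :=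
        (ae_ball_iff (Finset.range m).countable_toSet).2 fun n _ => by
          filter_upwards [Lp.coeFn_smul (z ^ n) ((hT n).toLp _ : (Lp ℝ p (volume : Measure ℝ))), (hT n).coeFn_toLp] with x h1 h2
          rw [h1, Pi.smul_apply, h2, smul_eq_mul]
      filter_upwards [h1, Lp.coeFn_sub (∑ n ∈ Finset.range m, z ^ n • (hT n).toLp _ : (Lp ℝ p (volume : Measure ℝ))) ((hE z).toLp _),
        Lp.coeFn_fun_finsetSum (Finset.range m) (fun n => (z ^ n • (hT n).toLp _ : (Lp ℝ p (volume : Measure ℝ)))),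
        (hE z).coeFn_toLp, hm.coeFn_toLp] with x h1 h2 h3 h4 h5
      rw [h2, h5, Pi.sub_apply, h3, h4, Finset.mul_sum]
      congr 1
      refine Finset.sum_congr rfl fun n hn => ?_
      rw [h1 n hn, mul_pow]; ring
    rw [e1]
    apply norm_toLp_le hm hDm _ (by positivity)
    intro x
    rw [← mul_sub, abs_mul, abs_sub_comm, hD]
    simp only
    rw [abs_mul (G x), abs_of_pos (Real.exp_pos _), ← e0 x]
    have h3 := exp_tail (β * x * z) m
    calc |G x| * |Real.exp (β * x * z) - ∑ n ∈ Finset.range m, (β * x * z) ^ n / n.factorial|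
        ≤ |G x| * ((1 / 2) ^ m * Real.exp (2 * |β * x * z|)) := by gcongr
      _ = _ := by ring
  have hlim : Tendsto (fun m : ℕ => (1 / 2 : ℝ) ^ m * ‖hDm.toLp D‖) atTop (𝓝 0) := by
    have := (tendsto_pow_atTop_nhds_zero_of_lt_one (by norm_num : (0 : ℝ) ≤ 1 / 2) (by norm_num)).mul_const
      ‖hDm.toLp D‖
    simpa using this
  exact squeeze_zero (fun _ => norm_nonneg _) hb hlim

end H316F
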