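import Pool.Agent.H316R4.Win

open scoped BigOperators Topology ENNReal FourierTransform ContDiff
open Filter Set MeasureTheory

namespace H316F

variable {p : ℝ≥0∞} [hp1 : Fact (1 ≤ p)]


theorem p_ne_zero : p ≠ 0 := fun h => by have := hp1.out; rw [h] at this; simp at this

theorem gauss_memLp (hp : p ≠ ⊤) {β : ℝ} (hβ : 0 < β) : MemLp (fun x : ℝ => Real.exp (-β * x ^ 2)) p volume := by
  have hq := q_ge (p := p) hp
  have hc : Continuous fun x : ℝ => Real.exp (-β * x ^ 2) := by fun_prop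
  refine (integrable_norm_rpow_iff hc.aestronglyMeasurable p_ne_zero hp).1 ?_
  have : (fun x : ℝ => ‖Real.exp (-β * x ^ 2)‖ ^ p.toReal) = fun x => Real.exp (-(β * p.toReal) * x ^ 2) := by
    funext x
    rw [Real.norm_of_nonneg (Real.exp_pos _).le, ← Real.exp_mul]
    congr 1; ring
  rw [this]
  exact integrable_exp_neg_mul_sq (by positivity)

theorem gauss_exp_memLp (hp : p ≠ ⊤) {β : ℝ} (hβ : 0 < β) (G : ℝ → ℝ) (hGm : Measurable G) (c : ℝ)
    (hG : ∀ x, |G x| ≤ Real.exp (-β * x ^ 2 + c * |x|)) : MemLp G p volume := by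
  have h1 := (gauss_memLp (p := p) hp (by positivity : 0 < β / 2)).const_mul (Real.exp (c ^ 2 / (2 * β)))
  refine h1.mono hGm.aestronglyMeasurable (Eventually.of_forall fun x => ?_)
  rw [Real.norm_eq_abs, Real.norm_of_nonneg (by positivity), ← Real.exp_add]
  refine (hG x).trans (Real.exp_le_exp.2 ?_)
  have h2 : x ^ 2 = |x| ^ 2 := (sq_abs x).symm
  rw [h2]
  have h3 : 0 ≤ (β * |x| - c) ^ 2 / (2 * β) := by positivity
  have h4 : (β * |x| - c) ^ 2 / (2 * β) = β / 2 * |x| ^ 2 - c * |x| + c ^ 2 / (2 * β) := by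
    field_simp; ring
  linarith

theorem curve_memLp {G : ℝ → ℝ} (hGm : Measurable G)
    (hG : ∀ c : ℝ, MemLp (fun x => G x * Real.exp (c * |x|)) p volume) (β z : ℝ) :
    MemLp (fun x => G x * Real.exp (β * x * z)) p volume := by
  refine (hG (|β| * |z|)).mono (hGm.mul (by fun_prop)).aestronglyMeasurable (Eventually.of_forall fun x => ?_)
  rw [norm_mul, norm_mul, Real.norm_of_nonneg (Real.exp_pos _).le, Real.norm_of_nonneg (Real.exp_pos _).le]
  refine mul_le_mul_of_nonneg_left (Real.exp_le_exp.2 ?_) (norm_nonneg _)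
  calc β * x * z ≤ |β * x * z| := le_abs_self _
    _ = |β| * |z| * |x| := by rw [abs_mul, abs_mul]; ring

theorem coef_memLp {G : ℝ → ℝ} (hGm : Measurable G)
    (hG : ∀ c : ℝ, MemLp (fun x => G x * Real.exp (c * |x|)) p volume) (β : ℝ) (n : ℕ) :
    MemLp (fun x => G x * ((β * x) ^ n / n.factorial)) p volume := by
  refine (hG |β|).mono (hGm.mul (by fun_prop)).aestronglyMeasurable (Eventually.of_forall fun x => ?_)
  rw [norm_mul, norm_mul, Real.norm_of_nonneg (Real.exp_pos _).le, norm_div, norm_pow,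
    Real.norm_of_nonneg (by positivity : (0 : ℝ) ≤ n.factorial), Real.norm_eq_abs (β * x), abs_mul]
  gcongr
  exact Real.pow_div_factorial_le_exp _ (by positivity) n

theorem curve_analytic {G : ℝ → ℝ} (hGm : Measurable G)
    (hG : ∀ c : ℝ, MemLp (fun x => G x * Real.exp (c * |x|)) p volume) (β : ℝ) :
    AnalyticOnNhd ℝ (fun z => (curve_memLp hGm hG β z).toLp _ : ℝ → (Lp ℝ p (volume : Measure ℝ))) univ := by
  intro a _
  set G' : ℝ → ℝ := fun x => G x * Real.exp (β * x * a) with hG'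
  have hG'm : Measurable G' := hGm.mul (by fun_prop)
  have hG'c : ∀ c : ℝ, MemLp (fun x => G' x * Real.exp (c * |x|)) p volume := by
    intro c
    refine (hG (|β| * |a| + c)).mono (hG'm.mul (by fun_prop)).aestronglyMeasurable
      (Eventually.of_forall fun x => ?_)
    rw [hG']
    simp only
    rw [mul_assoc, ← Real.exp_add, norm_mul, norm_mul, Real.norm_of_nonneg (Real.exp_pos _).le,
      Real.norm_of_nonneg (Real.exp_pos _).le]
    gcongr
    have : β * x * a ≤ |β| * |a| * |x| := by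
      calc β * x * a ≤ |β * x * a| := le_abs_self _
        _ = |β| * |a| * |x| := by rw [abs_mul, abs_mul]; ring
    nlinarith
  have hs := exp_hasSum β G' hG'm.aestronglyMeasurable hG'c (curve_memLp hG'm hG'c β)
    (coef_memLp hG'm hG'c β)
  set P : FormalMultilinearSeries ℝ ℝ ((Lp ℝ p (volume : Measure ℝ))) :=
    fun n => ContinuousMultilinearMap.mkPiRing ℝ (Fin n) ((coef_memLp hG'm hG'c β n).toLp _) with hP
  refine ⟨P, ?_⟩
  rw [hasFPowerSeriesAt_iff]
  refine Eventually.of_forall fun z => ?_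
  have e1 : (curve_memLp hGm hG β (a + z)).toLp _ = (curve_memLp hG'm hG'c β z).toLp _ := by
    apply Lp.ext
    filter_upwards [(curve_memLp hGm hG β (a + z)).coeFn_toLp, (curve_memLp hG'm hG'c β z).coeFn_toLp]
      with x h1 h2
    rw [h1, h2, hG']
    simp only
    rw [mul_assoc (G x), ← Real.exp_add]
    congr 2; ring
  rw [e1]
  have e2 : ∀ n, P.coeff n = (coef_memLp hG'm hG'c β n).toLp _ := by
    intro n
    rw [FormalMultilinearSeries.coeff, hP]
    simp
  simp only [e2]
  exact hs z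

theorem gw_memLp (hp : p ≠ ⊤) {b : ℝ} (hb : 0 < b) (τ : ℝ) : MemLp (gw b τ) p volume := by
  refine gauss_exp_memLp hp (β := Real.pi * b) (by positivity) _ (gw_cont b τ).measurable 0 fun x => ?_
  refine (abs_gw_le b τ x).trans (le_of_eq ?_)
  congr 1; ring

theorem gw_an (hp : p ≠ ⊤) {b : ℝ} (hb : 0 < b) (τ : ℝ) :
    AnalyticOnNhd ℝ (fun a => Tr ℝ p a ((gw_memLp hp hb τ).toLp _)) univ := by
  set G1 : ℝ → ℝ := fun x => Real.exp (-Real.pi * b * x ^ 2) * Real.cos (2 * Real.pi * τ * x) with hG1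
  set G2 : ℝ → ℝ := fun x => Real.exp (-Real.pi * b * x ^ 2) * Real.sin (2 * Real.pi * τ * x) with hG2
  have hpb : 0 < Real.pi * b := by positivity
  have hm1 : Measurable G1 := by fun_prop
  have hm2 : Measurable G2 := by fun_prop
  have hb1 : ∀ c : ℝ, MemLp (fun x => G1 x * Real.exp (c * |x|)) p volume := by
    intro c
    refine gauss_exp_memLp hp hpb _ (hm1.mul (by fun_prop)) c fun x => ?_
    rw [hG1]
    simp only
    rw [abs_mul, abs_mul, abs_of_pos (Real.exp_pos _), abs_of_pos (Real.exp_pos _), Real.exp_add]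
    have := Real.abs_cos_le_one (2 * Real.pi * τ * x)
    have e : Real.exp (-(Real.pi * b) * x ^ 2) = Real.exp (-Real.pi * b * x ^ 2) := by congr 1; ring
    rw [e]
    gcongr
    exact mul_le_of_le_one_right (Real.exp_pos _).le this
  have hb2 : ∀ c : ℝ, MemLp (fun x => G2 x * Real.exp (c * |x|)) p volume := by
    intro c
    refine gauss_exp_memLp hp hpb _ (hm2.mul (by fun_prop)) c fun x => ?_
    rw [hG2]
    simp only
    rw [abs_mul, abs_mul, abs_of_pos (Real.exp_pos _), abs_of_pos (Real.exp_pos _), Real.exp_add]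
    have := Real.abs_sin_le_one (2 * Real.pi * τ * x)
    have e : Real.exp (-(Real.pi * b) * x ^ 2) = Real.exp (-Real.pi * b * x ^ 2) := by congr 1; ring
    rw [e]
    gcongr
    exact mul_le_of_le_one_right (Real.exp_pos _).le this
  have hA1 := curve_analytic hm1 hb1 (2 * Real.pi * b)
  have hA2 := curve_analytic hm2 hb2 (2 * Real.pi * b)
  have hs1 : AnalyticOnNhd ℝ (fun a : ℝ => Real.exp (-Real.pi * b * a ^ 2) * Real.cos (2 * Real.pi * τ * a)) univ := by
    intro a _; fun_prop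
  have hs2 : AnalyticOnNhd ℝ (fun a : ℝ => Real.exp (-Real.pi * b * a ^ 2) * Real.sin (2 * Real.pi * τ * a)) univ := by
    intro a _; fun_prop
  have hA := (hs1.smul hA1).add (hs2.smul hA2)
  refine hA.congr isOpen_univ ?_
  intro a _
  symm
  simp only [Pi.add_apply]
  apply Lp.ext
  have h2 := (measurePreserving_sub_right (volume : Measure ℝ) a).quasiMeasurePreserving.ae
      (gw_memLp (p := p) hp hb τ).coeFn_toLp
  filter_upwards [Tr_coe (𝕜 := ℝ) a ((gw_memLp (p := p) hp hb τ).toLp _), h2,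
    Lp.coeFn_add ((Real.exp (-Real.pi * b * a ^ 2) * Real.cos (2 * Real.pi * τ * a)) •
      (curve_memLp hm1 hb1 (2 * Real.pi * b) a).toLp _)
      ((Real.exp (-Real.pi * b * a ^ 2) * Real.sin (2 * Real.pi * τ * a)) •
      (curve_memLp hm2 hb2 (2 * Real.pi * b) a).toLp _),
    Lp.coeFn_smul (Real.exp (-Real.pi * b * a ^ 2) * Real.cos (2 * Real.pi * τ * a))
      ((curve_memLp hm1 hb1 (2 * Real.pi * b) a).toLp _),
    Lp.coeFn_smul (Real.exp (-Real.pi * b * a ^ 2) * Real.sin (2 * Real.pi * τ * a))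
      ((curve_memLp hm2 hb2 (2 * Real.pi * b) a).toLp _),
    (curve_memLp hm1 hb1 (2 * Real.pi * b) a).coeFn_toLp,
    (curve_memLp hm2 hb2 (2 * Real.pi * b) a).coeFn_toLp] with x e1 e2 e3 e4 e5 e6 e7
  rw [e3, Pi.add_apply, e4, e5, Pi.smul_apply, Pi.smul_apply, e6, e7, e1, e2, hG1, hG2, gw]
  simp only [smul_eq_mul]
  have e8 : Real.exp (-Real.pi * b * (x - a) ^ 2) = Real.exp (-Real.pi * b * a ^ 2) *
      Real.exp (-Real.pi * b * x ^ 2) * Real.exp (2 * Real.pi * b * x * a) := by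
    rw [← Real.exp_add, ← Real.exp_add]; congr 1; ring
  have e9 : Real.cos (2 * Real.pi * τ * (x - a)) = Real.cos (2 * Real.pi * τ * x) * Real.cos (2 * Real.pi * τ * a)
      + Real.sin (2 * Real.pi * τ * x) * Real.sin (2 * Real.pi * τ * a) := by
    rw [← Real.cos_sub]; congr 1; ring
  rw [e8, e9]
  ring

end H316F
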