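import Pool.Agent.H316R4.Win2

open scoped BigOperators Topology ENNReal FourierTransform ContDiff
open Filter Set MeasureTheory

namespace H316F

theorem four_int (f : ℝ → ℂ) (hf : Integrable f) (ξ : ℝ) :
    Integrable (fun v : ℝ => Complex.exp (↑(-2 * Real.pi * v * ξ) * Complex.I) • f v) := by
  simp only [smul_eq_mul]
  refine hf.bdd_mul (c := 1) (by fun_prop) (Eventually.of_forall fun v => ?_)
  rw [Complex.norm_exp_ofReal_mul_I]

theorem four_add (f g : ℝ → ℂ) (hf : Integrable f) (hg : Integrable g) (ξ : ℝ) :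
    𝓕 (fun x => f x + g x) ξ = 𝓕 f ξ + 𝓕 g ξ := by
  rw [Real.fourier_real_eq_integral_exp_smul, Real.fourier_real_eq_integral_exp_smul,
    Real.fourier_real_eq_integral_exp_smul, ← integral_add (four_int f hf ξ) (four_int g hg ξ)]
  simp only [smul_add]

theorem four_cmul (c : ℂ) (f : ℝ → ℂ) (ξ : ℝ) : 𝓕 (fun x => c * f x) ξ = c * 𝓕 f ξ := by
  rw [Real.fourier_real_eq_integral_exp_smul, Real.fourier_real_eq_integral_exp_smul,
    ← integral_const_mul]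
  refine integral_congr_ae (Eventually.of_forall fun x => ?_)
  simp only [smul_eq_mul]
  ring

noncomputable def gU (b τ ξ : ℝ) : ℝ :=
  1 / 2 * (√b)⁻¹ * (Real.exp (-Real.pi / b * (ξ - τ) ^ 2) + Real.exp (-Real.pi / b * (ξ + τ) ^ 2))

theorem gU_pos {b : ℝ} (hb : 0 < b) (τ ξ : ℝ) : 0 < gU b τ ξ := by
  unfold gU; positivity

theorem gU_smooth (b τ : ℝ) : ContDiff ℝ ∞ (gU b τ) := by
  unfold gU; fun_prop

theorem four_exp {b : ℝ} (hb : 0 < b) (τ ξ : ℝ) :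
    𝓕 (fun x : ℝ => Complex.exp (-Real.pi * b * x ^ 2 + 2 * Real.pi * (Complex.I * τ) * x)) ξ =
      (((√b)⁻¹ * Real.exp (-Real.pi / b * (ξ - τ) ^ 2) : ℝ) : ℂ) := by
  have h1 := congrFun (fourier_gaussian_pi' (b := (b : ℂ)) (by simpa using hb) (Complex.I * τ)) ξ
  rw [h1]
  have h2 : ((b : ℂ)) ^ (1 / 2 : ℂ) = ((√b : ℝ) : ℂ) := by
    rw [Real.sqrt_eq_rpow, Complex.ofReal_cpow hb.le]
    norm_num
  have h3 : (ξ : ℂ) + Complex.I * (Complex.I * τ) = ((ξ - τ : ℝ) : ℂ) := by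
    rw [← mul_assoc, Complex.I_mul_I]; push_cast; ring
  rw [h2, h3]
  push_cast
  ring

theorem gint {b : ℝ} (hb : 0 < b) (τ : ℝ) :
    Integrable (fun x : ℝ => Complex.exp (-Real.pi * b * x ^ 2 + 2 * Real.pi * (Complex.I * τ) * x)) := by
  have := integrable_cexp_quadratic' (b := ((-(Real.pi * b) : ℝ) : ℂ)) (by
    rw [Complex.ofReal_re]; have := Real.pi_pos; nlinarith [mul_pos this hb]) (2 * Real.pi * (Complex.I * τ)) 0
  refine this.congr (Eventually.of_forall fun x => ?_)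
  simp only
  congr 1
  push_cast
  ring

theorem gw_exp (b τ x : ℝ) : ((gw b τ x : ℝ) : ℂ) =
    (1 / 2 : ℂ) * (Complex.exp (-Real.pi * b * x ^ 2 + 2 * Real.pi * (Complex.I * τ) * x)
      + Complex.exp (-Real.pi * b * x ^ 2 + 2 * Real.pi * (Complex.I * ((-τ : ℝ) : ℂ)) * x)) := by
  rw [gw]
  push_cast
  rw [Complex.cos, Complex.exp_add, Complex.exp_add, ← mul_add]
  have e1 : 2 * (Real.pi : ℂ) * (Complex.I * τ) * x = 2 * Real.pi * τ * x * Complex.I := by ring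
  have e2 : 2 * (Real.pi : ℂ) * (Complex.I * -τ) * x = -(2 * Real.pi * τ * x) * Complex.I := by ring
  rw [e1, e2]
  ring

theorem gw_integrable {b : ℝ} (hb : 0 < b) (τ : ℝ) : Integrable (gw b τ) := by
  have h1 : Integrable (fun x => ((gw b τ x : ℝ) : ℂ)) := by
    have := ((gint hb τ).add (gint hb (-τ))).const_mul (1 / 2 : ℂ)
    refine this.congr (Eventually.of_forall fun x => ?_)
    simp only [Pi.add_apply]
    exact (gw_exp b τ x).symm
  have := h1.re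
  simpa using this

theorem four_gw {b : ℝ} (hb : 0 < b) (τ ξ : ℝ) :
    𝓕 (fun x => ((gw b τ x : ℝ) : ℂ)) ξ = ((gU b τ ξ : ℝ) : ℂ) := by
  have h1 : (fun x => ((gw b τ x : ℝ) : ℂ)) = fun x : ℝ =>
    (1 / 2 : ℂ) * (Complex.exp (-Real.pi * b * x ^ 2 + 2 * Real.pi * (Complex.I * τ) * x)
      + Complex.exp (-Real.pi * b * x ^ 2 + 2 * Real.pi * (Complex.I * ((-τ : ℝ) : ℂ)) * x)) := by
    funext x; exact gw_exp b τ x
  rw [h1, four_cmul, four_add _ _ (gint hb τ) (gint hb (-τ)), four_exp hb, four_exp hb, gU]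
  push_cast
  ring

variable {p : ℝ≥0∞} [hp1 : Fact (1 ≤ p)]


/-- the class of admissible functions -/
structure GoodF (f : (Lp ℝ p (volume : Measure ℝ))) : Prop where
  ex : ∃ (u U : ℝ → ℝ) (hum : MemLp u p volume), f = hum.toLp u ∧ Integrable u ∧ (∀ ξ, 0 < U ξ) ∧
    ContDiff ℝ ∞ U ∧ ∀ ξ, 𝓕 (fun x => (u x : ℂ)) ξ = U ξ
  an : AnalyticOnNhd ℝ (fun a => Tr ℝ p a f) univ

theorem goodF_gw (hp : p ≠ ⊤) {b : ℝ} (hb : 0 < b) (τ : ℝ) : GoodF ((gw_memLp (p := p) hp hb τ).toLp _) where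
  ex := ⟨gw b τ, gU b τ, gw_memLp hp hb τ, rfl, gw_integrable hb τ, gU_pos hb τ, gU_smooth b τ,
    four_gw hb τ⟩
  an := gw_an hp hb τ

theorem GoodF.add {f g : (Lp ℝ p (volume : Measure ℝ))} (hf : GoodF f) (hg : GoodF g) : GoodF (f + g) where
  ex := by
    obtain ⟨u, U, hum, hfu, hui, hU, hUs, hFu⟩ := hf.ex
    obtain ⟨v, V, hvm, hgv, hvi, hV, hVs, hFv⟩ := hg.ex
    refine ⟨fun x => u x + v x, fun ξ => U ξ + V ξ, hum.add hvm, ?_, hui.add hvi,
      fun ξ => add_pos (hU ξ) (hV ξ), hUs.add hVs, fun ξ => ?_⟩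
    · rw [hfu, hgv, ← MemLp.toLp_add]; rfl
    · have := four_add (fun x => (u x : ℂ)) (fun x => (v x : ℂ)) hui.ofReal hvi.ofReal ξ
      rw [hFu, hFv] at this
      push_cast
      exact this
  an := by
    have := hf.an.add hg.an
    refine this.congr isOpen_univ fun a _ => ?_
    simp [map_add]

theorem GoodF.smul {f : (Lp ℝ p (volume : Measure ℝ))} (hf : GoodF f) {c : ℝ} (hc : 0 < c) : GoodF (c • f) where
  ex := by
    obtain ⟨u, U, hum, hfu, hui, hU, hUs, hFu⟩ := hf.ex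
    refine ⟨fun x => c * u x, fun ξ => c * U ξ, hum.const_mul c, ?_, hui.const_mul c,
      fun ξ => mul_pos hc (hU ξ), contDiff_const.mul hUs, fun ξ => ?_⟩
    · rw [hfu, ← MemLp.toLp_const_smul]; rfl
    · have := four_cmul (c : ℂ) (fun x => (u x : ℂ)) ξ
      rw [hFu] at this
      push_cast
      exact this
  an := by
    have := (analyticOnNhd_const (v := c)).smul hf.an
    refine this.congr isOpen_univ fun a _ => ?_
    simp [map_smul]

theorem GoodF.cyc (h1p : 1 < p) (hp : p ≠ ⊤) {f : (Lp ℝ p (volume : Measure ℝ))} (hf : GoodF f) (ℓ : ((Lp ℝ p (volume : Measure ℝ))) →L[ℝ] ℝ) (C : ℝ)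
    (hℓ : ∀ a, ℓ (Tr ℝ p a f) = C) : ℓ = 0 := by
  obtain ⟨u, U, hum, hfu, hui, hU, hUs, hFu⟩ := hf.ex
  subst hfu
  exact H316F.cyc h1p hp u hui hum U hU hUs hFu ℓ C hℓ

end H316F
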