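import Pool.Agent.H316R4.Win3

open scoped BigOperators Topology ENNReal FourierTransform ContDiff
open Filter Set MeasureTheory

namespace H316F

variable {p : ℝ≥0∞} [hp1 : Fact (1 ≤ p)]


theorem norm_toLp_rpow (hp : p ≠ ⊤) {f : ℝ → ℝ} (hf : MemLp f p volume) :
    ‖hf.toLp f‖ ^ p.toReal = ∫ x, |f x| ^ p.toReal := by
  rw [norm_rpow hp]
  refine integral_congr_ae ?_
  filter_upwards [hf.coeFn_toLp] with x hx
  rw [hx]

/-- the constant `∫ exp (-π q x²)` -/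
noncomputable def cq (p : ℝ≥0∞) : ℝ := √(1 / p.toReal)

theorem int_gauss {b q : ℝ} (hb : 0 < b) (hq : 0 < q) :
    ∫ x : ℝ, Real.exp (-(Real.pi * b * q) * x ^ 2) = (√b)⁻¹ * √(1 / q) := by
  rw [integral_gaussian]
  have : Real.pi / (Real.pi * b * q) = b⁻¹ * (1 / q) := by
    have := Real.pi_pos
    field_simp
  rw [this, Real.sqrt_mul (by positivity), Real.sqrt_inv]

theorem exp_rpow' (b q x : ℝ) : Real.exp (-Real.pi * b * x ^ 2) ^ q = Real.exp (-(Real.pi * b * q) * x ^ 2) := by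
  rw [← Real.exp_mul]; congr 1; ring

theorem gw_up (hp : p ≠ ⊤) {b : ℝ} (hb : 0 < b) (τ : ℝ) :
    ‖(gw_memLp (p := p) hp hb τ).toLp _‖ ^ p.toReal ≤ (√b)⁻¹ * cq p := by
  have hq := q_ge (p := p) hp
  have hq0 : 0 < p.toReal := by linarith
  rw [norm_toLp_rpow hp, cq, ← int_gauss hb hq0]
  refine integral_mono_of_nonneg (Eventually.of_forall fun x => by positivity)
    (integrable_exp_neg_mul_sq (by positivity)) (Eventually.of_forall fun x => ?_)
  simp only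
  rw [← exp_rpow']
  exact Real.rpow_le_rpow (abs_nonneg _) (abs_gw_le b τ x) hq0.le

noncomputable def rr (p : ℝ≥0∞) : ℝ := max (p.toReal / 2) 1

theorem cos_low (hp : p ≠ ⊤) (c : ℝ) (hc : |c| ≤ 1) :
    (2 : ℝ)⁻¹ ^ rr p * (1 + rr p * (2 * c ^ 2 - 1)) ≤ |c| ^ p.toReal := by
  have hq := q_ge (p := p) hp
  have hr1 : 1 ≤ rr p := le_max_right _ _
  have hr2 : p.toReal / 2 ≤ rr p := le_max_left _ _
  have h1 : (1 : ℝ) + rr p * (2 * c ^ 2 - 1) ≤ (1 + (2 * c ^ 2 - 1)) ^ rr p :=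
    one_add_mul_self_le_rpow_one_add (by nlinarith [sq_nonneg c]) hr1
  have h2 : (1 + (2 * c ^ 2 - 1)) = 2 * c ^ 2 := by ring
  rw [h2, Real.mul_rpow (by norm_num) (sq_nonneg c)] at h1
  have h3 : (2 : ℝ)⁻¹ ^ rr p * (2 ^ rr p * (c ^ 2) ^ rr p) = (c ^ 2) ^ rr p := by
    rw [← mul_assoc, ← Real.mul_rpow (by norm_num) (by norm_num)]
    norm_num
  have h4 : (c ^ 2) ^ rr p ≤ |c| ^ p.toReal := by
    have e : |c| ^ p.toReal = (c ^ 2) ^ (p.toReal / 2) := by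
      rw [← sq_abs, ← Real.rpow_natCast |c| 2, ← Real.rpow_mul (abs_nonneg _)]
      congr 1
      push_cast; ring
    rw [e]
    rcases eq_or_ne c 0 with h0 | h0
    · subst h0
      rw [zero_pow (by norm_num), Real.zero_rpow (by linarith), Real.zero_rpow (by linarith)]
    · refine Real.rpow_le_rpow_of_exponent_ge (by positivity) ?_ hr2
      rw [← sq_abs]
      nlinarith [abs_nonneg c]
  calc _ ≤ (2 : ℝ)⁻¹ ^ rr p * (2 ^ rr p * (c ^ 2) ^ rr p) := by gcongr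
    _ = _ := h3
    _ ≤ _ := h4

theorem int_gw_nonneg {b : ℝ} (hb : 0 < b) (τ : ℝ) : 0 ≤ ∫ x, gw b τ x := by
  have h1 : 𝓕 (fun x => ((gw b τ x : ℝ) : ℂ)) 0 = ∫ x, ((gw b τ x : ℝ) : ℂ) := by
    rw [Real.fourier_eq]; simp
  rw [four_gw hb, integral_complex_ofReal] at h1
  have h2 : gU b τ 0 = ∫ x, gw b τ x := by exact_mod_cast h1
  rw [← h2]
  exact (gU_pos hb τ 0).le

theorem gw_low (hp : p ≠ ⊤) {b : ℝ} (hb : 0 < b) (τ : ℝ) :
    (2 : ℝ)⁻¹ ^ rr p * ((√b)⁻¹ * cq p) ≤ ‖(gw_memLp (p := p) hp hb τ).toLp _‖ ^ p.toReal := by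
  have hq := q_ge (p := p) hp
  have hq0 : 0 < p.toReal := by linarith
  have hr1 : 1 ≤ rr p := le_max_right _ _
  rw [norm_toLp_rpow hp, cq, ← int_gauss hb hq0]
  have hbq : 0 < b * p.toReal := by positivity
  have e1 : ∀ x : ℝ, Real.exp (-(Real.pi * b * p.toReal) * x ^ 2) * Real.cos (2 * (2 * Real.pi * τ * x))
      = gw (b * p.toReal) (2 * τ) x := by
    intro x
    rw [gw]
    congr 1 <;> congr 1 <;> ring
  have hi1 : Integrable (fun x : ℝ => Real.exp (-(Real.pi * b * p.toReal) * x ^ 2)) :=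
    integrable_exp_neg_mul_sq (by positivity)
  have hi2 : Integrable (fun x : ℝ => Real.exp (-(Real.pi * b * p.toReal) * x ^ 2) *
      Real.cos (2 * (2 * Real.pi * τ * x))) := by
    simp only [e1]
    exact gw_integrable hbq _
  have h1 : ∫ x : ℝ, ((2 : ℝ)⁻¹ ^ rr p * (Real.exp (-(Real.pi * b * p.toReal) * x ^ 2) +
      rr p * (Real.exp (-(Real.pi * b * p.toReal) * x ^ 2) * Real.cos (2 * (2 * Real.pi * τ * x))))) ≤
      ∫ x, |gw b τ x| ^ p.toReal := by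
    refine integral_mono_ae ((hi1.add (hi2.const_mul _)).const_mul _) ?_ (Eventually.of_forall fun x => ?_)
    · have := integrable_rpow hp ((gw_memLp (p := p) hp hb τ).toLp _)
      refine this.congr ?_
      filter_upwards [(gw_memLp (p := p) hp hb τ).coeFn_toLp] with x hx
      rw [hx]
    · simp only
      have h2 := cos_low (p := p) hp (Real.cos (2 * Real.pi * τ * x)) (Real.abs_cos_le_one _)
      rw [gw, abs_mul, abs_of_pos (Real.exp_pos _), Real.mul_rpow (Real.exp_pos _).le (abs_nonneg _),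
        exp_rpow', Real.cos_two_mul (2 * Real.pi * τ * x)]
      calc _ = Real.exp (-(Real.pi * b * p.toReal) * x ^ 2) * ((2 : ℝ)⁻¹ ^ rr p *
            (1 + rr p * (2 * Real.cos (2 * Real.pi * τ * x) ^ 2 - 1))) := by ring
        _ ≤ _ := by gcongr
  refine le_trans ?_ h1
  rw [integral_const_mul, integral_add hi1 (hi2.const_mul _), integral_const_mul]
  have h3 : 0 ≤ ∫ x : ℝ, Real.exp (-(Real.pi * b * p.toReal) * x ^ 2) * Real.cos (2 * (2 * Real.pi * τ * x)) := by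
    simp only [e1]
    exact int_gw_nonneg hbq _
  have h4 : (0 : ℝ) ≤ (2 : ℝ)⁻¹ ^ rr p := by positivity
  refine mul_le_mul_of_nonneg_left ?_ h4
  nlinarith

/-- normalised window -/
noncomputable def nw (hp : p ≠ ⊤) {b : ℝ} (hb : 0 < b) (τ : ℝ) : (Lp ℝ p (volume : Measure ℝ)) :=
  (b ^ (1 / (2 * p.toReal)) : ℝ) • (gw_memLp (p := p) hp hb τ).toLp _

theorem bpow (hp : p ≠ ⊤) {b : ℝ} (hb : 0 < b) : (b ^ (1 / (2 * p.toReal)) : ℝ) ^ p.toReal = √b := by
  have hq := q_ge (p := p) hp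
  rw [← Real.rpow_mul hb.le, Real.sqrt_eq_rpow]
  congr 1
  have : p.toReal ≠ 0 := by linarith
  field_simp

theorem nw_up (hp : p ≠ ⊤) {b : ℝ} (hb : 0 < b) (τ : ℝ) : ‖nw (p := p) hp hb τ‖ ^ p.toReal ≤ cq p := by
  have hsb : 0 < √b := Real.sqrt_pos.2 hb
  rw [nw, norm_smul, Real.mul_rpow (norm_nonneg _) (norm_nonneg _), Real.norm_of_nonneg (by positivity),
    bpow hp hb]
  calc √b * ‖(gw_memLp (p := p) hp hb τ).toLp _‖ ^ p.toReal ≤ √b * ((√b)⁻¹ * cq p) := by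
        gcongr; exact gw_up hp hb τ
    _ = cq p := by field_simp

theorem nw_low (hp : p ≠ ⊤) {b : ℝ} (hb : 0 < b) (τ : ℝ) :
    (2 : ℝ)⁻¹ ^ rr p * cq p ≤ ‖nw (p := p) hp hb τ‖ ^ p.toReal := by
  have hsb : 0 < √b := Real.sqrt_pos.2 hb
  rw [nw, norm_smul, Real.mul_rpow (norm_nonneg _) (norm_nonneg _), Real.norm_of_nonneg (by positivity),
    bpow hp hb]
  calc (2 : ℝ)⁻¹ ^ rr p * cq p = √b * ((2 : ℝ)⁻¹ ^ rr p * ((√b)⁻¹ * cq p)) := by field_simp
    _ ≤ √b * ‖(gw_memLp (p := p) hp hb τ).toLp _‖ ^ p.toReal := by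
        gcongr; exact gw_low hp hb τ

theorem goodF_nw (hp : p ≠ ⊤) {b : ℝ} (hb : 0 < b) (τ : ℝ) : GoodF (nw (p := p) hp hb τ) :=
  (goodF_gw hp hb τ).smul (by positivity)

theorem nw_local (hp : p ≠ ⊤) {b : ℝ} (hb : 0 < b) (τ : ℝ) (μ : ℕ) :
    ∫ t in Bx μ, |nw (p := p) hp hb τ t| ^ p.toReal ≤ √b * 2 ^ (μ + 1) := by
  have hq := q_ge (p := p) hp
  have h1 : ∫ t in Bx μ, |nw (p := p) hp hb τ t| ^ p.toReal ≤ ∫ _ in Bx μ, √b := by
    have hfin : volume (Bx μ) ≠ ⊤ := by rw [Bx, Real.volume_Ico]; exact ENNReal.ofReal_ne_top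
    refine setIntegral_mono_ae (integrable_rpow hp _).integrableOn (integrableOn_const hfin) ?_
    filter_upwards [Lp.coeFn_smul ((b ^ (1 / (2 * p.toReal)) : ℝ)) ((gw_memLp (p := p) hp hb τ).toLp _),
      (gw_memLp (p := p) hp hb τ).coeFn_toLp] with x h1 h2
    rw [nw, h1, Pi.smul_apply, h2, smul_eq_mul, abs_mul, Real.mul_rpow (abs_nonneg _) (abs_nonneg _),
      abs_of_nonneg (by positivity), bpow hp hb]
    refine mul_le_of_le_one_right (Real.sqrt_nonneg _) (Real.rpow_le_one (abs_nonneg _) ?_ (by linarith))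
    refine (abs_gw_le b τ x).trans (Real.exp_le_one_iff.2 ?_)
    have := Real.pi_pos
    have h3 : 0 ≤ Real.pi * b * x ^ 2 := by positivity
    linarith
  refine h1.trans (le_of_eq ?_)
  have h2 := pow_pos (by norm_num : (0 : ℝ) < 2) μ
  rw [setIntegral_const, smul_eq_mul, Measure.real, Bx, Real.volume_Ico,
    ENNReal.toReal_ofReal (by linarith)]
  rw [pow_succ]; ring

end H316F
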