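import Pool.Agent.H316R4.Win4

open scoped BigOperators Topology ENNReal FourierTransform ContDiff
open Filter Set MeasureTheory

namespace H316F

variable {p : ℝ≥0∞} [hp1 : Fact (1 ≤ p)]


noncomputable def gam (hp : p ≠ ⊤) : (Lp ℝ p (volume : Measure ℝ)) := (gw_memLp (p := p) hp one_pos 0).toLp _

theorem norm_eq_of_rpow (hp : p ≠ ⊤) {a b : ℝ} (hb : 0 ≤ b) (h : a ^ p.toReal ≤ b) :
    a ≤ b ^ (1 / p.toReal) := by
  have hq := q_ge (p := p) hp
  apply norm_le_of_rpow hp (by positivity)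
  rw [← Real.rpow_mul hb, one_div, inv_mul_cancel₀ (by linarith), Real.rpow_one]
  exact h

theorem nw_trans (hp : p ≠ ⊤) {b : ℝ} (hb : 0 < b) (τ l s θ : ℝ)
    (hθ : ∀ x, |Real.cos (2 * Real.pi * τ * (x - l)) - s * Real.cos (2 * Real.pi * τ * x)| ≤ θ) :
    ‖Tr ℝ p l (nw (p := p) hp hb τ) - s • nw (p := p) hp hb τ‖ ≤
      ‖Tr ℝ p (√b * l) (gam hp) - gam hp‖ + θ * (cq p) ^ (1 / p.toReal) := by
  have hq := q_ge (p := p) hp
  have hq0 : 0 < p.toReal := by linarith
  have hsb : 0 < √b := Real.sqrt_pos.2 hb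
  have hθ0 : 0 ≤ θ := (abs_nonneg _).trans (hθ 0)
  set c : ℝ := b ^ (1 / (2 * p.toReal)) with hc
  have hc0 : 0 < c := by positivity
  have hcq : c ^ p.toReal = √b := bpow hp hb
  set u1 : ℝ → ℝ := fun x => c * (Real.exp (-Real.pi * b * (x - l) ^ 2) - Real.exp (-Real.pi * b * x ^ 2)) *
    Real.cos (2 * Real.pi * τ * (x - l)) with hu1
  set u2 : ℝ → ℝ := fun x => c * Real.exp (-Real.pi * b * x ^ 2) *
    (Real.cos (2 * Real.pi * τ * (x - l)) - s * Real.cos (2 * Real.pi * τ * x)) with hu2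
  have hg := gauss_memLp (p := p) hp (by positivity : 0 < Real.pi * b)
  have hg' : MemLp (fun x : ℝ => Real.exp (-Real.pi * b * x ^ 2)) p volume := by
    refine (memLp_congr_ae (Eventually.of_forall fun x => ?_)).1 hg
    show Real.exp (-(Real.pi * b) * x ^ 2) = Real.exp (-Real.pi * b * x ^ 2)
    congr 1; ring
  have hgs : MemLp (fun x : ℝ => Real.exp (-Real.pi * b * (x - l) ^ 2)) p volume :=
    hg'.comp_measurePreserving (measurePreserving_sub_right volume l)
  have hm2 : MemLp u2 p volume := by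
    refine (hg'.const_mul (c * θ)).mono (by rw [hu2]; fun_prop) (Eventually.of_forall fun x => ?_)
    rw [hu2]
    simp only
    rw [norm_mul, norm_mul, Real.norm_of_nonneg hc0.le, norm_mul, Real.norm_of_nonneg (Real.exp_pos _).le,
      Real.norm_of_nonneg (by positivity : 0 ≤ c * θ), Real.norm_eq_abs]
    have := hθ x
    have h2 := Real.exp_pos (-Real.pi * b * x ^ 2)
    calc _ ≤ c * Real.exp (-Real.pi * b * x ^ 2) * θ := by gcongr
      _ = _ := by ring
  have hm1 : MemLp u1 p volume := by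
    refine (((hgs.sub hg').const_mul c)).mono (by rw [hu1]; fun_prop) (Eventually.of_forall fun x => ?_)
    rw [hu1]
    simp only [Pi.sub_apply]
    rw [norm_mul]
    refine mul_le_of_le_one_right (norm_nonneg _) ?_
    rw [Real.norm_eq_abs]
    exact Real.abs_cos_le_one _
  have hdec : Tr ℝ p l (nw (p := p) hp hb τ) - s • nw (p := p) hp hb τ = hm1.toLp u1 + hm2.toLp u2 := by
    apply Lp.ext
    have hnw : nw (p := p) hp hb τ =ᵐ[volume] fun x => c * gw b τ x := by
      filter_upwards [Lp.coeFn_smul c ((gw_memLp (p := p) hp hb τ).toLp _),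
        (gw_memLp (p := p) hp hb τ).coeFn_toLp] with x h1 h2
      rw [nw, h1, Pi.smul_apply, h2, smul_eq_mul]
    have hnw2 := (measurePreserving_sub_right (volume : Measure ℝ) l).quasiMeasurePreserving.ae hnw
    filter_upwards [Lp.coeFn_sub (Tr ℝ p l (nw (p := p) hp hb τ)) (s • nw (p := p) hp hb τ),
      Lp.coeFn_smul s (nw (p := p) hp hb τ), Tr_coe (𝕜 := ℝ) l (nw (p := p) hp hb τ), hnw, hnw2,
      Lp.coeFn_add (hm1.toLp u1) (hm2.toLp u2), hm1.coeFn_toLp, hm2.coeFn_toLp]
      with x e1 e2 e3 e4 e5 e6 e7 e8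
    rw [e1, Pi.sub_apply, e2, Pi.smul_apply, e3, e4, e5, e6, Pi.add_apply, e7, e8, hu1, hu2]
    simp only [gw, smul_eq_mul]
    ring
  have hn2 : ‖hm2.toLp u2‖ ≤ θ * (cq p) ^ (1 / p.toReal) := by
    have hcq0 : 0 ≤ cq p := Real.sqrt_nonneg _
    apply norm_le_of_rpow hp (by positivity)
    rw [Real.mul_rpow hθ0 (by positivity), ← Real.rpow_mul hcq0, one_div, inv_mul_cancel₀ hq0.ne',
      Real.rpow_one, norm_toLp_rpow hp]
    have h1 : ∫ x, |u2 x| ^ p.toReal ≤ ∫ x : ℝ, (√b * θ ^ p.toReal) * Real.exp (-(Real.pi * b * p.toReal) * x ^ 2) := by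
      refine integral_mono_of_nonneg (Eventually.of_forall fun x => by positivity)
        ((integrable_exp_neg_mul_sq (by positivity)).const_mul _) (Eventually.of_forall fun x => ?_)
      simp only
      rw [hu2]
      simp only
      rw [abs_mul, abs_mul, abs_of_pos hc0, abs_of_pos (Real.exp_pos _), Real.mul_rpow (by positivity) (abs_nonneg _),
        Real.mul_rpow hc0.le (Real.exp_pos _).le, hcq, exp_rpow']
      have h3 := Real.rpow_le_rpow (abs_nonneg _) (hθ x) hq0.le
      calc _ ≤ √b * Real.exp (-(Real.pi * b * p.toReal) * x ^ 2) * θ ^ p.toReal := by gcongr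
        _ = _ := by ring
    refine h1.trans (le_of_eq ?_)
    rw [integral_const_mul, int_gauss hb hq0, cq]
    field_simp
  have hn1 : ‖hm1.toLp u1‖ ≤ ‖Tr ℝ p (√b * l) (gam hp) - gam hp‖ := by
    apply norm_le_of_rpow hp (norm_nonneg _)
    rw [norm_toLp_rpow hp, norm_rpow hp]
    set D : ℝ → ℝ := fun y => Real.exp (-Real.pi * (y - √b * l) ^ 2) - Real.exp (-Real.pi * y ^ 2) with hD
    have hgam : gam hp =ᵐ[volume] fun y => Real.exp (-Real.pi * y ^ 2) := by
      filter_upwards [(gw_memLp (p := p) hp one_pos 0).coeFn_toLp] with y hy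
      rw [gam, hy, gw]
      simp
    have hgam2 := (measurePreserving_sub_right (volume : Measure ℝ) (√b * l)).quasiMeasurePreserving.ae hgam
    have hDae : ∀ᵐ y, (Tr ℝ p (√b * l) (gam hp) - gam hp : (Lp ℝ p (volume : Measure ℝ))) y = D y := by
      filter_upwards [Lp.coeFn_sub (Tr ℝ p (√b * l) (gam hp)) (gam hp), Tr_coe (𝕜 := ℝ) (√b * l) (gam hp),
        hgam, hgam2] with y e1 e2 e3 e4
      rw [e1, Pi.sub_apply, e2, e3, e4]
    have h2 : ∫ y, |(Tr ℝ p (√b * l) (gam hp) - gam hp : (Lp ℝ p (volume : Measure ℝ))) y| ^ p.toReal = ∫ y, |D y| ^ p.toReal :=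
      integral_congr_ae (hDae.mono fun y hy => by simp only [hy])
    have hDi : Integrable (fun y => |D y| ^ p.toReal) :=
      (integrable_rpow hp (Tr ℝ p (√b * l) (gam hp) - gam hp)).congr (hDae.mono fun y hy => by simp only [hy])
    rw [h2]
    have h3 : ∫ x, |u1 x| ^ p.toReal ≤ ∫ x : ℝ, √b * |D (√b * x)| ^ p.toReal := by
      refine integral_mono_of_nonneg (Eventually.of_forall fun x => by positivity)
        ((hDi.comp_mul_left' hsb.ne').const_mul _) (Eventually.of_forall fun x => ?_)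
      simp only
      rw [hu1]
      simp only
      have e1 : Real.exp (-Real.pi * b * (x - l) ^ 2) - Real.exp (-Real.pi * b * x ^ 2) = D (√b * x) := by
        rw [hD]
        simp only
        have hb2 : √b ^ 2 = b := Real.sq_sqrt hb.le
        have e2 : -Real.pi * b * (x - l) ^ 2 = -Real.pi * (√b * x - √b * l) ^ 2 := by
          rw [← mul_sub, mul_pow, hb2]; ring
        have e3 : -Real.pi * b * x ^ 2 = -Real.pi * (√b * x) ^ 2 := by
          rw [mul_pow, hb2]; ring
        rw [e2, e3]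
      rw [e1, abs_mul, abs_mul, abs_of_pos hc0, Real.mul_rpow (by positivity) (abs_nonneg _),
        Real.mul_rpow hc0.le (abs_nonneg _), hcq]
      refine mul_le_of_le_one_right (by positivity) ?_
      exact Real.rpow_le_one (abs_nonneg _) (Real.abs_cos_le_one _) hq0.le
    refine h3.trans (le_of_eq ?_)
    rw [integral_const_mul, Measure.integral_comp_mul_left (fun y => |D y| ^ p.toReal) (√b),
      abs_of_pos (by positivity), smul_eq_mul]
    field_simp
  rw [hdec]
  exact (norm_add_le _ _).trans (add_le_add hn1 hn2)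

/-- widths can be chosen so wide that all translations act like multiplication by signs -/
theorem gam_small (hp : p ≠ ⊤) (Λ : ℝ) (hΛ : 0 ≤ Λ) (ε : ℝ) (hε : 0 < ε) :
    ∃ b0 : ℝ, 0 < b0 ∧ ∀ b : ℝ, 0 < b → b ≤ b0 → ∀ l : ℝ, |l| ≤ Λ →
      ‖Tr ℝ p (√b * l) (gam hp) - gam hp‖ ≤ ε := by
  have h1 := (Tr_cont (𝕜 := ℝ) hp (gam hp)).tendsto 0
  rw [Tr_zero] at h1
  obtain ⟨δ, hδ, h2⟩ := Metric.tendsto_nhds_nhds.1 h1 ε hε
  refine ⟨(δ / (Λ + 1)) ^ 2 / 4, by positivity, fun b hb hb2 l hl => ?_⟩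
  have h3 : √b ≤ δ / (Λ + 1) / 2 := by
    rw [show δ / (Λ + 1) / 2 = √((δ / (Λ + 1) / 2) ^ 2) by rw [Real.sqrt_sq (by positivity)]]
    apply Real.sqrt_le_sqrt
    refine hb2.trans (le_of_eq (by ring))
  have h4 : dist (√b * l) 0 < δ := by
    rw [dist_zero_right, norm_mul, Real.norm_of_nonneg (Real.sqrt_nonneg _), Real.norm_eq_abs]
    calc √b * |l| ≤ (δ / (Λ + 1) / 2) * Λ := by gcongr
      _ < δ := by
        rw [div_div, div_mul_eq_mul_div, div_lt_iff₀ (by positivity)]
        nlinarith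
  have h5 := h2 h4
  rw [dist_eq_norm] at h5
  exact h5.le

end H316F
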